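import Pool.Agent.P.MP_44bffd_co.LS.Defs

/-! The absorbing link. -/

namespace Pool.Agent.P.MP_44bffd_co.LS

open Finset
open scoped Classical

namespace AbsP

lemma sum_bits (δ K : ℕ) :
    ∑ k ∈ range K, (if δ.testBit k = true then 2 ^ k else 0) = δ % 2 ^ K := by
  induction K with
  | zero => simp [Nat.mod_one]
  | succ K ih =>
    rw [sum_range_succ, ih, Nat.mod_pow_succ, Nat.testBit_eq_decide_div_mod_eq]
    have := Nat.mod_two_eq_zero_or_one (δ / 2 ^ K)
    rcases this with h | h <;> simp [h]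

lemma sum_wt (K a δ : ℕ) (c : Bool) (h : δ < 2 ^ K) :
    ∑ k : Fin K, wt K a (c, k, δ.testBit k) = K * (a * (2 ^ K - 1)) + δ := by
  unfold wt
  rw [sum_add_distrib, sum_const, card_univ, Fintype.card_fin, smul_eq_mul]
  congr 1
  have := sum_bits δ K
  rw [Nat.mod_eq_of_lt h, ← Fin.sum_univ_eq_sum_range
    (fun k => if δ.testBit k = true then 2 ^ k else 0) K] at this
  exact this

lemma cnt_sum {V Λ ι : Type} [Fintype ι] (W : UG V) (ξ : V → Λ) (τ : ι → Λ)
    (hτ : Function.Injective τ) (w : V) :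
    W.cnt w (fun w' => ∃ k, ξ w' = τ k) = ∑ k, W.cnt w (fun w' => ξ w' = τ k) := by
  unfold UG.cnt
  rw [← card_biUnion]
  · congr 1
    ext b
    simp only [mem_filter, mem_biUnion, mem_univ, true_and]
    constructor
    · rintro ⟨h1, h2, k, h3⟩
      exact ⟨k, h1, h2, h3⟩
    · rintro ⟨k, h1, h2, h3⟩
      exact ⟨h1, h2, k, h3⟩
  · intro i _ j _ hij
    rw [Function.onFun, disjoint_left]
    intro b h1 h2
    exact hij (hτ ((mem_filter.1 h1).2.2.symm.trans (mem_filter.1 h2).2.2))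

end AbsP

theorem p_Abs : S_Abs := by
  intro K a g V W ξ ε hW h1 h2 D g₀ hN
  obtain ⟨V₀, G, hc, hd⟩ := hN
  have hv : ∀ w ∈ W.s, ∀ κ, W.cnt w (fun w' => ξ w' = κ) ≤ wt K a κ ∧
      (wt K a κ : ℝ) - W.cnt w (fun w' => ξ w' = κ) ≤ ε := by
    intro w hw κ
    cases hcol : W.col w
    · exact h2 w hw hcol κ
    · exact h1 w hw hcol κ
  obtain ⟨U, S, hS, hdeg⟩ := link G W
    (fun x w => ∃ k : Fin K, ξ w = (G.col x, k, (D - G.deg x).testBit k)) (by
      rintro x hx x' hx' hadj w _ ⟨k, e⟩ ⟨k', e'⟩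
      exact G.bip x hx x' hx' hadj (Prod.mk.inj (e.symm.trans e')).1)
  refine ⟨U, S, ?_, fun v hv' => ?_⟩
  · refine hS.trans ?_
    rw [pow_add, mul_comm 2 g₀, pow_mul]
    exact Nat.mul_le_mul (Nat.pow_le_pow_left hc 2) hW
  · obtain ⟨x, hx, w, hw, e⟩ := hdeg v hv'
    obtain ⟨d1, d2⟩ := hd x hx
    have hδ : D - G.deg x < 2 ^ K := by
      have : ((D - G.deg x : ℕ) : ℝ) < ((2 ^ K : ℕ) : ℝ) := by
        rw [Nat.cast_sub d1]
        push_cast
        linarith
      exact_mod_cast this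
    have hs := AbsP.sum_wt K a (D - G.deg x) (G.col x) hδ
    have hinj : Function.Injective
        (fun k : Fin K => (G.col x, k, (D - G.deg x).testBit k)) :=
      fun i j h => (Prod.mk.inj (Prod.mk.inj h).2).1
    rw [AbsP.cnt_sum W ξ _ hinj w] at e
    have u1 : ∑ k : Fin K, W.cnt w (fun w' => ξ w' = (G.col x, k, (D - G.deg x).testBit k)) ≤
        ∑ k : Fin K, wt K a (G.col x, k, (D - G.deg x).testBit k) :=
      sum_le_sum fun k _ => (hv w hw _).1
    have u2 : ∑ k : Fin K, ((wt K a (G.col x, k, (D - G.deg x).testBit k) : ℝ) -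
        W.cnt w (fun w' => ξ w' = (G.col x, k, (D - G.deg x).testBit k))) ≤ K * ε := by
      refine (sum_le_sum fun k _ => (hv w hw _).2).trans ?_
      simp
    rw [sum_sub_distrib, ← Nat.cast_sum, ← Nat.cast_sum, hs] at u2
    rw [hs] at u1
    refine ⟨by omega, ?_⟩
    rw [e]
    generalize K * (a * (2 ^ K - 1)) = T at u2 ⊢
    rw [Nat.cast_add, Nat.cast_sub d1] at u2
    rw [Nat.cast_add, Nat.cast_add]
    linarith

end Pool.Agent.P.MP_44bffd_co.LS
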