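import Pool.Agent.P.MP_44bffd_co.LS.Defs

/-! The dense base: choice of the parameters. -/

namespace Pool.Agent.P.MP_44bffd_co.LS

namespace BaseP

theorem tw_add (k i : ℕ) : 2 ^ i * tw k ≤ tw (k + i) := by
  induction i with
  | zero => simp
  | succ i ih =>
    have h : 2 * tw (k + i) ≤ 2 ^ tw (k + i) := Nat.mul_le_pow (by norm_num) _
    rw [← add_assoc, tw_succ, pow_succ]
    linarith

theorem sq_le (j : ℕ) (h : 4 ≤ j) : j ^ 2 ≤ 2 ^ j := by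
  induction j, h using Nat.le_induction with
  | base => norm_num
  | succ j h ih =>
    rw [pow_succ 2 j]
    nlinarith

theorem six_le (n : ℕ) (h : 30 ≤ n) : n ^ 6 ≤ 2 ^ n := by
  induction n, h using Nat.le_induction with
  | base => norm_num
  | succ n h ih =>
    have h1 : (10 * (n + 1)) ^ 6 ≤ (11 * n) ^ 6 := Nat.pow_le_pow_left (by omega) 6
    rw [mul_pow, mul_pow] at h1
    rw [pow_succ 2 n]
    omega

theorem len_le {ρ m : ℕ} (h : ρ ≤ 2 ^ m) (hm : 1 ≤ m) : Tm ρ + 2 * ρ + 5 ≤ 2 ^ (258 * m) := by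
  have h0 := Nat.one_le_two_pow (n := m)
  have h1 : Tm ρ ≤ 2 ^ (48 * m + 208) :=
    calc Tm ρ ≤ (32 * (8 * (4 * 2 ^ m) ^ 2) ^ 3) ^ 8 := by
          unfold Tm
          gcongr
          · norm_num
          · omega
      _ = _ := by ring
  have h2 : 2 ^ (m + 3) ≤ 2 ^ (48 * m + 208) := Nat.pow_le_pow_right (by norm_num) (by omega)
  have h3 : 2 ^ (48 * m + 208 + 1) ≤ 2 ^ (258 * m) := Nat.pow_le_pow_right (by norm_num) (by omega)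
  rw [pow_succ] at h3
  rw [pow_add] at h2
  omega

theorem dense (h3 : S_Vec) (h4 : S_Graph) (h5 : S_Dy) (h6 : S_Pot) {n ρ J s x : ℕ}
    (h : CM (2 * n) ρ) (hρ : 1 ≤ ρ) (hJ : J = Tm ρ + 2 * ρ + 5) (hx : J ≤ 2 ^ x)
    (hn : 30 + 6 * x ≤ n) (hs : s ≤ n) :
    ∃ a b : ℝ, 2 ^ s ≤ a ∧ 2 ^ s ≤ b ∧ Bi a (100 * a) b (100 * b) (8 * n * J) := by
  have h1 := h4 _ _ _ J (h3 _ _ h hρ) (Nat.one_le_pow _ _ (by norm_num)) (by omega) (by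
    have := (Nat.lt_two_pow_self (n := 2 * ρ))
    calc 2 * ((2 * ρ + 1) * 2 ^ Tm ρ) ≤ 32 * (2 ^ (2 * ρ) * 2 ^ Tm ρ) := by gcongr <;> omega
      _ = _ := by rw [hJ]; ring)
  have e1 : ((32 ^ (2 * n) : ℕ) : ℝ) / 2 ^ (4 * (2 * n)) = 2 ^ n * 2 ^ n := by
    rw [div_eq_iff (by positivity), Nat.cast_pow, show ((32 : ℕ) : ℝ) = 2 ^ 5 by norm_num,
      ← pow_mul, ← pow_add, ← pow_add]
    congr 1
    ring
  rw [e1, show 4 * (2 * n) * J = 8 * n * J by ring] at h1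
  have h2 : 32 * (8 * n * J + 1) ^ 3 ≤ 2 ^ n := by
    have a1 : 1 * 1 ≤ n * J := Nat.mul_le_mul (by omega) (by omega)
    have a2 : 2 ^ (30 + 6 * x) ≤ 2 ^ n := Nat.pow_le_pow_right (by norm_num) hn
    refine le_of_pow_le_pow_left₀ two_ne_zero (by positivity) ?_
    calc (32 * (8 * n * J + 1) ^ 3) ^ 2 ≤ (32 * (9 * (n * J)) ^ 3) ^ 2 := by
          gcongr
          linarith
      _ = 23328 ^ 2 * J ^ 6 * n ^ 6 := by ring
      _ ≤ 2 ^ 30 * (2 ^ x) ^ 6 * 2 ^ n :=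
          Nat.mul_le_mul (Nat.mul_le_mul (by norm_num) (Nat.pow_le_pow_left hx 6))
            (six_le n (by omega))
      _ = 2 ^ (30 + 6 * x) * 2 ^ n := by ring
      _ ≤ _ := by rw [sq]; gcongr
  generalize 8 * n * J = g at *
  have h2' : 32 * ((g : ℝ) + 1) ^ 3 ≤ 2 ^ n := by exact_mod_cast h2
  have h7 : (2 : ℝ) ^ s ≤ 2 ^ n := pow_le_pow_right₀ (by norm_num) hs
  have key : ∀ a a' : ℝ, 2 ^ n * 2 ^ n / (4 * ((g : ℝ) + 1) ^ 2) ≤ a → a / (8 * (g + 1)) ≤ a' →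
      2 ^ s ≤ a' := fun a a' e e' => by
    refine le_trans ?_ ((div_le_div_of_nonneg_right e (by positivity)).trans e')
    rw [div_div, le_div_iff₀ (by positivity)]
    calc _ = 2 ^ s * (32 * ((g : ℝ) + 1) ^ 3) := by ring
      _ ≤ _ := by gcongr
  obtain ⟨a, b, a1, b1, h8⟩ := h5 g _ (by positivity) h1
  obtain ⟨a', b', a2, b2, h9⟩ := h6 g a b (lt_of_lt_of_le (by positivity) a1)
    (lt_of_lt_of_le (by positivity) b1) h8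
  exact ⟨a', b', key _ _ a1 a2, key _ _ b1 b2, h9⟩

theorem half (h7 : S_Near) {g e D c : ℕ} {a b Γ : ℝ} (h : Bi a (100 * a) b (100 * b) g)
    (ha : 2 ^ (43 * e + 99) ≤ a) (hb : 2 ^ (43 * e + 99) ≤ b) (hD : D ≤ 2 ^ e)
    (hc : 36 * (3 ^ 9 * g) + 43 * e + 101 ≤ c) (hΓ : (c : ℝ) ≤ Γ) (hΓD : 10 ^ 4 * Γ ≤ D) :
    Bi D D (2 * D - 16 * Real.sqrt (D * Γ)) (2 * D) c := by
  have h0 : ∀ x : ℕ, x ≤ c → (x : ℝ) ≤ Γ := fun x hx => le_trans (by exact_mod_cast hx) hΓ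
  have h1 : (1 : ℝ) ≤ Γ := by simpa using h0 1 (by omega)
  have h2 : 2 ≤ D := by
    have : (2 : ℝ) ≤ D := by linarith
    exact_mod_cast this
  have h3 := h7 g (43 * e + 90) _ a b Γ h ha hb (size_bd hD) (h0 _ (by omega)) (by
    have a1 : 10 ^ 6 ≤ (4 * D * (D + 2) ^ 6 + 2) ^ 6 := by
      have : 2 * 1 ≤ D * (D + 2) ^ 6 := Nat.mul_le_mul h2 (Nat.one_le_pow _ _ (by omega))
      rw [mul_assoc]
      exact Nat.pow_le_pow_left (by omega) 6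
    have b1 : (D : ℝ) * 10 ^ 6 ≤ ((D * (4 * D * (D + 2) ^ 6 + 2) ^ 6 : ℕ) : ℝ) := by
      exact_mod_cast Nat.mul_le_mul_left D a1
    linarith)
  obtain ⟨V, G, h4, h5⟩ := half_exact rfl rfl h3 (h0 _ (by omega)) hΓD
  exact ⟨V, G, h4.trans (Nat.pow_le_pow_right (by norm_num) (by omega)), h5⟩

end BaseP

open BaseP in
theorem p_Base (h1 : S_Tower) (h2 : S_CM) (h3 : S_Vec) (h4 : S_Graph) (h5 : S_Dy) (h6 : S_Pot)
    (h7 : S_Near) : S_Base := by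
  obtain ⟨n₀, ρ₀, hρ, hT⟩ := h1
  obtain ⟨b, hb⟩ : ∃ b, b = 258 * (ρ₀ + 2) := ⟨_, rfl⟩
  obtain ⟨k₀, hk⟩ : ∃ k₀, k₀ = 3 * b + 8 := ⟨_, rfl⟩
  obtain ⟨A, hA⟩ : ∃ A, A = 344 + n₀ + 12 * b * (k₀ + 1) := ⟨_, rfl⟩
  obtain ⟨B, hB⟩ : ∃ B, B = 36 * 3 ^ 9 * 8 * A * 2 ^ (b * k₀) := ⟨_, rfl⟩
  refine ⟨(B + 144) * 2 ^ (b + 1), Nat.one_le_iff_ne_zero.2 (by positivity),
    fun k e D Γ e1 ek hD hΓ hΓD => ?_⟩
  obtain ⟨x, hx⟩ : ∃ x, x = b * (k + k₀ + 1) := ⟨_, rfl⟩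
  have t1 : 142 * e ≤ tw (k + k₀) := by
    have : 2 ^ 8 ≤ 2 ^ k₀ := Nat.pow_le_pow_right (by norm_num) (by omega)
    exact le_trans (Nat.mul_le_mul (by omega) ek) (tw_add k k₀)
  have t2 : 30 + 6 * x ≤ 2 * tw (k + k₀) := by
    have a1 := tw_add 0 (k + k₀)
    rw [tw_zero, mul_one, zero_add] at a1
    have a2 := sq_le (k + k₀) (by omega)
    have a3 : (3 * b + 8) * (k + k₀) ≤ (k + k₀) * (k + k₀) := Nat.mul_le_mul_right _ (by omega)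
    rw [hx]
    nlinarith
  obtain ⟨n, n1, n2, hR⟩ := hT (k + k₀) (142 * e + 30 + 6 * x) (by omega)
  have hJ : Tm (4 * (ρ₀ * 4 ^ (k + k₀))) + 2 * (4 * (ρ₀ * 4 ^ (k + k₀))) + 5 ≤ 2 ^ x := by
    rw [hx, hb, mul_assoc]
    refine len_le ?_ (Nat.one_le_iff_ne_zero.2 (by positivity))
    have a1 : ρ₀ ≤ (2 ^ ρ₀) ^ (k + k₀ + 1) :=
      Nat.lt_two_pow_self.le.trans (Nat.le_self_pow (by omega) _)
    calc 4 * (ρ₀ * 4 ^ (k + k₀)) = ρ₀ * (2 ^ 2) ^ (k + k₀ + 1) := by ring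
      _ ≤ (2 ^ ρ₀) ^ (k + k₀ + 1) * (2 ^ 2) ^ (k + k₀ + 1) := by gcongr
      _ = _ := by rw [← mul_pow, ← pow_add, ← pow_mul]
  obtain ⟨a₁, a₂, a1, a2, hBi⟩ := dense h3 h4 h5 h6 (s := 43 * e + 99) (h2 _ _ hR)
    (Nat.one_le_iff_ne_zero.2 (by positivity)) rfl hJ (by omega) (by omega)
  refine half h7 hBi a1 a2 hD ?_ hΓ hΓD
  generalize Tm (4 * (ρ₀ * 4 ^ (k + k₀))) + 2 * (4 * (ρ₀ * 4 ^ (k + k₀))) + 5 = J at hJ
  have c1 : n ≤ A * (2 ^ (k + 1) * e) := by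
    have b1 : (k + 1) * 1 ≤ (k + 1) * e := Nat.mul_le_mul_left _ e1
    have b2 : (k + 1) * e ≤ 2 ^ (k + 1) * e := Nat.mul_le_mul_right _ Nat.lt_two_pow_self.le
    have b3 : 1 * e ≤ (k + 1) * e := Nat.mul_le_mul_right _ (by omega)
    generalize 2 ^ (k + 1) * e = y at *
    have b4 : x ≤ b * ((k₀ + 1) * y) := by
      rw [hx]
      exact Nat.mul_le_mul_left _ (by nlinarith)
    have b5 : n₀ * 1 ≤ n₀ * y := Nat.mul_le_mul_left _ (by omega)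
    rw [hA]
    nlinarith
  have c2 : 1 * e ≤ (2 ^ (b + 1)) ^ (k + 1) * e :=
    Nat.mul_le_mul_right _ (Nat.one_le_iff_ne_zero.2 (by positivity))
  calc 36 * (3 ^ 9 * (8 * n * J)) + 43 * e + 101
      ≤ 36 * (3 ^ 9 * (8 * (A * (2 ^ (k + 1) * e)) * 2 ^ x)) +
        144 * ((2 ^ (b + 1)) ^ (k + 1) * e) := by
        rw [add_assoc]
        gcongr
        omega
    _ = (B + 144) * (2 ^ (b + 1)) ^ (k + 1) * e := by rw [hx, hB]; ring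
    _ ≤ _ := by
        rw [mul_pow]
        gcongr
        exact Nat.le_self_pow (by omega) _

end Pool.Agent.P.MP_44bffd_co.LS
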