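import Pool.Agent.P.MP_44bffd_co.LS.Defs

/-! Adjoining the imaginary unit to a field with a real embedding. -/

namespace Pool.Agent.P.MP_44bffd_co.LS

open Finset NumberField
open scoped Classical

namespace CMP

theorem no_root {F : Type} [Field F] (φ : F →+* ℝ) (j : F) (hj : j * j = -1) : False := by
  have h := congrArg φ hj
  rw [map_mul, map_neg, map_one] at h
  nlinarith [mul_self_nonneg (φ j)]

theorem conj_mem {K : Type} [Field K] (σ : K →+* ℝ) (z : ℂ)
    (hz : z ∈ Subfield.closure (Set.range (Complex.ofRealHom.comp σ) ∪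
      Set.range (fun _ : Fin 1 => Complex.I))) :
    starRingEnd ℂ z ∈ Subfield.closure (Set.range (Complex.ofRealHom.comp σ) ∪
      Set.range (fun _ : Fin 1 => Complex.I)) := by
  have hle : Subfield.closure (Set.range (Complex.ofRealHom.comp σ) ∪
      Set.range (fun _ : Fin 1 => Complex.I)) ≤
      (Subfield.closure (Set.range (Complex.ofRealHom.comp σ) ∪
      Set.range (fun _ : Fin 1 => Complex.I))).comap (starRingEnd ℂ) := by
    rw [Subfield.closure_le]
    rintro x (⟨a, rfl⟩ | ⟨i, rfl⟩)
    · simp only [SetLike.mem_coe, Subfield.mem_comap]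
      have h : starRingEnd ℂ ((Complex.ofRealHom.comp σ) a) = (Complex.ofRealHom.comp σ) a := by
        simp
      rw [h]
      exact Subfield.subset_closure (Or.inl ⟨a, rfl⟩)
    · simp only [SetLike.mem_coe, Subfield.mem_comap]
      rw [Complex.conj_I]
      exact neg_mem (Subfield.subset_closure (Or.inr ⟨i, rfl⟩))
  exact hle hz

end CMP

theorem p_CM (hE : S_Ext) (hP : S_Pairs) : S_CM := by
  rintro n ρ ⟨K, _, _, σ, α, hα, hn, hd⟩
  obtain ⟨F, _, _, ι, hr, hf, hdisc⟩ := hE K ℂ (Complex.ofRealHom.comp σ) 1 ρ (fun _ => -1)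
    (fun _ => Complex.I) (by intro i; simp) (by
      intro S hS
      have h1 : S = {0} := by
        obtain ⟨i, hi⟩ := hS
        ext k
        simp only [mem_singleton]
        constructor
        · intro _; exact Subsingleton.elim _ _
        · intro _; rwa [Subsingleton.elim k i]
      subst h1
      rintro ⟨z, hz⟩
      refine CMP.no_root σ z ?_
      rw [← hz]; simp) (by rw [hn]; exact hd)
  have hex : ∀ x : F, ∃ y : F, ι y = starRingEnd ℂ (ι x) := by
    intro x
    have h1 : ι x ∈ ι.fieldRange := ⟨x, rfl⟩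
    rw [hr] at h1
    have h2 := CMP.conj_mem σ _ h1
    rw [← hr] at h2
    exact h2
  choose t ht using hex
  let τ : F →+* F :=
    { toFun := t
      map_one' := ι.injective (by rw [ht]; simp)
      map_mul' := fun x y => ι.injective (by rw [ht, map_mul, map_mul, map_mul, ht, ht])
      map_zero' := ι.injective (by rw [ht]; simp)
      map_add' := fun x y => ι.injective (by rw [ht, map_add, map_add, map_add, ht, ht]) }
  have hτ : ∀ x, ι (τ x) = starRingEnd ℂ (ι x) := ht
  have hα' : ∃ a : F, ι a = (Complex.ofRealHom.comp σ) α := by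
    have h1 : (Complex.ofRealHom.comp σ) α ∈ ι.fieldRange := by
      rw [hr]; exact Subfield.subset_closure (Or.inl ⟨α, rfl⟩)
    exact h1
  have hj' : ∃ j : F, ι j = Complex.I := by
    have h1 : Complex.I ∈ ι.fieldRange := by
      rw [hr]; exact Subfield.subset_closure (Or.inr ⟨0, rfl⟩)
    exact h1
  obtain ⟨a, ha⟩ := hα'
  obtain ⟨j, hj⟩ := hj'
  have hj2 : j ^ 2 = -1 := ι.injective (by rw [map_pow, hj]; simp)
  have ha4 : a ^ 4 = 2 := ι.injective (by
    rw [map_pow, ha, ← map_pow, hα, map_ofNat, map_ofNat])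
  have hinv : ∀ x, τ (τ x) = x := fun x => ι.injective (by rw [hτ, hτ]; simp)
  have hτa : τ a = a := ι.injective (by rw [hτ, ha]; simp)
  have hτj : τ j = -j := ι.injective (by rw [hτ, map_neg, hj]; simp)
  obtain ⟨W, hW, hcard⟩ := hP F τ a j hinv ha4 hτa hj2 hτj
  have hN : Module.finrank ℚ F = 2 * n := by rw [hf, hn]; ring
  refine ⟨F, inferInstance, inferInstance, τ, ι, W, hτ, ?_, hW, hN ▸ hcard, hN, hN ▸ hdisc⟩
  intro w
  rw [← InfinitePlace.not_isReal_iff_isComplex]
  intro hw
  exact CMP.no_root (InfinitePlace.embedding_of_isReal hw) j (by rw [← hj2]; ring)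

end Pool.Agent.P.MP_44bffd_co.LS
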