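import Pool.Agent.P.MP_44bffd_co.LS.Defs

/-! Counting algebraic integers with bounded conjugates. -/

namespace Pool.Agent.P.MP_44bffd_co.LS

open Finset NumberField
open scoped Classical

namespace CountP

theorem floor_mem {t : ℝ} {R : ℕ} (h : |t| ≤ R) : ⌊2 * t⌋ ∈ Icc (-(2 * R : ℤ)) (2 * R) := by
  obtain ⟨h1, h2⟩ := abs_le.1 h
  refine mem_Icc.2 ⟨Int.le_floor.2 (by push_cast; linarith), ?_⟩
  have h3 : ((⌊2 * t⌋ : ℤ) : ℝ) ≤ ((2 * R : ℤ) : ℝ) := by
    push_cast
    linarith [Int.floor_le (2 * t)]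
  exact_mod_cast h3

theorem close {s t : ℝ} (h : ⌊2 * s⌋ = ⌊2 * t⌋) : (s - t) ^ 2 < 1 / 4 := by
  obtain ⟨h1, h2⟩ := abs_lt.1 (Int.abs_sub_lt_one_of_floor_eq_floor h)
  nlinarith

theorem eq_zero {K : Type} [Field K] [NumberField K] {x : 𝓞 K}
    (h : ∀ φ : K →+* ℂ, ‖φ (x : K)‖ < 1) : x = 0 := by
  by_contra h0
  have h1 : ∀ w : InfinitePlace K, w (x : K) < 1 := fun w => by
    rw [← w.norm_embedding_eq]
    exact h _
  obtain ⟨w⟩ : Nonempty (InfinitePlace K) := inferInstance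
  exact absurd (InfinitePlace.one_le_of_lt_one h0 (w := w) fun z _ => h1 z) (not_le.2 (h1 w))

end CountP

theorem p_Count : S_Count := by
  intro K _ _ R s hs
  let F : 𝓞 K → (K →+* ℂ) → ℤ × ℤ := fun x φ => (⌊2 * (φ (x : K)).re⌋, ⌊2 * (φ (x : K)).im⌋)
  have h1 : s.card ≤ (Fintype.piFinset fun _ : K →+* ℂ =>
      Icc (-(2 * R : ℤ)) (2 * R) ×ˢ Icc (-(2 * R : ℤ)) (2 * R)).card := by
    refine card_le_card_of_injOn F (fun x hx => ?_) fun x _ y _ h => ?_
    · refine mem_coe.2 (Fintype.mem_piFinset.2 fun φ => ?_)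
      have h2 : ‖φ (x : K)‖ ≤ R := hs x hx (InfinitePlace.mk φ)
      exact mem_product.2 ⟨CountP.floor_mem ((Complex.abs_re_le_norm _).trans h2),
        CountP.floor_mem ((Complex.abs_im_le_norm _).trans h2)⟩
    · refine sub_eq_zero.1 (CountP.eq_zero fun φ => ?_)
      obtain ⟨h2, h3⟩ := Prod.mk.inj (congrFun h φ)
      have h4 := CountP.close h2
      have h5 := CountP.close h3
      refine lt_of_pow_lt_pow_left₀ 2 zero_le_one ?_
      rw [Complex.sq_norm, Complex.normSq_apply,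
        show ((x - y : 𝓞 K) : K) = (x : K) - (y : K) from map_sub (algebraMap (𝓞 K) K) x y, map_sub,
        Complex.sub_re, Complex.sub_im]
      nlinarith
  refine h1.trans (le_of_eq ?_)
  rw [Fintype.card_piFinset, prod_const, card_univ, Embeddings.card, card_product, Int.card_Icc,
    show (2 * R + 1 - -(2 * R) : ℤ).toNat = 4 * R + 1 by omega, pow_mul, sq]

end Pool.Agent.P.MP_44bffd_co.LS
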