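import Pool.Agent.P.MP_44bffd_co.Main2

/-! Statements of the steps towards the bound `d ^ (C ^ log* d)`. -/

namespace Pool.Agent.P.MP_44bffd_co.LS

open Finset NumberField
open scoped Classical

/-- The tower of twos of height `k`. -/
def tw (k : ℕ) : ℕ := (fun x => 2 ^ x)^[k] 1

theorem tw_zero : tw 0 = 1 := rfl
theorem tw_succ (k : ℕ) : tw (k + 1) = 2 ^ tw k := Function.iterate_succ_apply' _ _ _

/-! ### Number fields -/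

def S_Gen : Prop := ∀ (L : Type) [Field L] [NumberField L] (P : Ideal (𝓞 L))
  (Q : Finset (Ideal (𝓞 L))), P.IsMaximal → (∀ I ∈ Q, I.IsMaximal ∧ I ≠ P) →
  ∃ x : 𝓞 L, x ∉ P ∧ (∀ I ∈ Q, x ∈ I) ∧
    ∀ (N : ℕ) (b : 𝓞 L), ∃ g : Polynomial ℤ, b - Polynomial.aeval x g ∈ P ^ N

def S_Der : Prop := ∀ (K L : Type) [Field K] [NumberField K] [Field L] [NumberField L]
  [Algebra K L] [IsGalois K L] (x : 𝓞 L), (∀ s : L ≃ₐ[K] L, s • x = x → s = 1) →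
  ∏ s ∈ (univ : Finset (L ≃ₐ[K] L)).erase 1, (x - s • x) ∈ differentIdeal (𝓞 K) (𝓞 L)

def S_Diff : Prop := ∀ (K L : Type) [Field K] [NumberField K] [Field L] [NumberField L]
  [Algebra K L] (m : ℕ) (y : Fin m → (𝓞 L)ˣ),
  (∀ i, ∃ u : K, algebraMap K L u = ((y i : 𝓞 L) : L) ^ 2) →
  IntermediateField.adjoin K (Set.range fun i => ((y i : 𝓞 L) : L)) = ⊤ →
  (discr L).natAbs ≤ 4 ^ Module.finrank ℚ L * (discr K).natAbs ^ Module.finrank K L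

def S_Kum : Prop := ∀ (K E : Type) [Field K] [CharZero K] [Field E] [Algebra K E] (m : ℕ)
  (u : Fin m → K) (y : Fin m → E), (∀ i, y i ^ 2 = algebraMap K E (u i)) →
  (∀ S : Finset (Fin m), S.Nonempty → ¬ IsSquare (∏ i ∈ S, u i)) →
  Module.finrank K (IntermediateField.adjoin K (Set.range y)) = 2 ^ m

def S_Ext : Prop := ∀ (K E : Type) [Field K] [NumberField K] [Field E] (σ : K →+* E) (m ρ : ℕ)
  (u : Fin m → (𝓞 K)ˣ) (y : Fin m → E), (∀ i, y i ^ 2 = σ ((u i : 𝓞 K) : K)) →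
  (∀ S : Finset (Fin m), S.Nonempty → ¬ IsSquare (∏ i ∈ S, ((u i : 𝓞 K) : K))) →
  (discr K).natAbs ≤ ρ ^ Module.finrank ℚ K →
  ∃ (F : Type) (_ : Field F) (_ : NumberField F) (ι : F →+* E),
    ι.fieldRange = Subfield.closure (Set.range σ ∪ Set.range y) ∧
    Module.finrank ℚ F = Module.finrank ℚ K * 2 ^ m ∧
    (discr F).natAbs ≤ (4 * ρ) ^ Module.finrank ℚ F

def S_Units : Prop := ∀ (K : Type) [Field K] [NumberField K] (σ : K →+* ℝ) (m : ℕ),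
  2 * m + 1 ≤ Module.finrank ℚ K →
  ∃ u : Fin m → (𝓞 K)ˣ, (∀ i, 0 < σ ((u i : 𝓞 K) : K)) ∧
    ∀ S : Finset (Fin m), S.Nonempty → ¬ IsSquare (∏ i ∈ S, ((u i : 𝓞 K) : K))

/-- A number field of degree `n` and root discriminant at most `ρ` with a real embedding and a
fourth root of two. -/
def RF (n ρ : ℕ) : Prop := ∃ (K : Type) (_ : Field K) (_ : NumberField K) (_ : K →+* ℝ) (α : K),
  α ^ 4 = 2 ∧ Module.finrank ℚ K = n ∧ (discr K).natAbs ≤ ρ ^ n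

def S_Tower : Prop := ∃ n₀ ρ₀ : ℕ, 1 ≤ ρ₀ ∧ ∀ k t : ℕ, t ≤ 3 * tw k →
  ∃ n, t ≤ n ∧ n ≤ 2 * t + n₀ ∧ RF n (ρ₀ * 4 ^ k)

def S_Pairs : Prop := ∀ (K : Type) [Field K] [NumberField K] (τ : K →+* K) (α j : K),
  (∀ x, τ (τ x) = x) → α ^ 4 = 2 → τ α = α → j ^ 2 = -1 → τ j = -j →
  ∃ W : Finset (InfinitePlace K), (∀ w ∈ W, w.comap τ ∉ W) ∧ Module.finrank ℚ K ≤ 8 * W.card

/-- A totally complex field with an involution that is the complex conjugation at one place and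
moves many places. -/
def CM (N ρ : ℕ) : Prop := ∃ (K : Type) (_ : Field K) (_ : NumberField K) (τ : K →+* K)
  (ι : K →+* ℂ) (W : Finset (InfinitePlace K)), (∀ x, ι (τ x) = starRingEnd ℂ (ι x)) ∧
  (∀ w : InfinitePlace K, w.IsComplex) ∧ (∀ w ∈ W, w.comap τ ∉ W) ∧ N ≤ 8 * W.card ∧
  Module.finrank ℚ K = N ∧ (discr K).natAbs ≤ ρ ^ N

def S_CM : Prop := ∀ n ρ : ℕ, RF n ρ → CM (2 * n) (4 * ρ)

def S_Count : Prop := ∀ (K : Type) [Field K] [NumberField K] (R : ℕ) (s : Finset (𝓞 K)),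
  (∀ x ∈ s, ∀ w : InfinitePlace K, w (x : K) ≤ R) →
  s.card ≤ (4 * R + 1) ^ (2 * Module.finrank ℚ K)

def S_Mink : Prop := ∀ (K : Type) [Field K] [NumberField K] (τ : K →+* K)
  (W : Finset (InfinitePlace K)) (ρ T : ℕ), (∀ x, τ (τ x) = x) →
  (∀ w : InfinitePlace K, w.IsComplex) → (∀ w ∈ W, w.comap τ ∉ W) →
  (discr K).natAbs ≤ ρ ^ Module.finrank ℚ K → 1 ≤ ρ →
  ∃ X : Finset (𝓞 K), T ^ W.card ≤ X.card * (2 * ρ + 1) ^ Module.finrank ℚ K ∧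
    ∀ x ∈ X, x ≠ 0 ∧ ∀ w : InfinitePlace K, w (x : K) ≤ (2 * ρ + 1) * 2 ^ T ∧
      w ((x : K) * τ (x : K)) < (2 * ρ + 1) ^ 2

/-- A group of plane vectors with `n` unit vectors in one coset of a subgroup without unit
vectors, and with slowly growing balls. -/
def Lat (N R n : ℕ) : Prop := ∃ (Λ : Type) (_ : AddCommGroup Λ) (f : Λ →+ ℂ) (Λ₀ : AddSubgroup Λ)
  (B : ℕ → Set Λ) (U : Finset Λ), Function.Injective f ∧ 0 ∈ B 0 ∧ (∀ j, B j ⊆ B (j + 1)) ∧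
  (∀ j, ∀ x ∈ B j, ∀ u ∈ U, x + u ∈ B (j + 1) ∧ x - u ∈ B (j + 1)) ∧
  (∀ (j : ℕ) (s : Finset Λ), (s : Set Λ) ⊆ B j → s.card ≤ (4 * (j * R) + 1) ^ (2 * N)) ∧
  (∀ u ∈ U, ‖f u‖ = 1) ∧ (∀ u ∈ U, ∀ u' ∈ U, u - u' ∈ Λ₀) ∧ (∀ x ∈ Λ₀, ‖f x‖ ≠ 1) ∧ n ≤ U.card

/-- The length of the skew boxes. -/
def Tm (ρ : ℕ) : ℕ := (32 * (7 * (2 * ρ + 1) ^ 2) ^ 3) ^ 8

def S_Vec : Prop := ∀ N ρ : ℕ, CM N ρ → 1 ≤ ρ → Lat N ((2 * ρ + 1) * 2 ^ Tm ρ) (32 ^ N)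

/-! ### From large average degree to nearly regular -/

/-- A graph on at most `2 ^ g` points with average degree at least `δ`. -/
def Av (g : ℕ) (δ : ℝ) : Prop :=
  ∃ (V : Type) (G : UG V), G.s.card ≤ 2 ^ g ∧ δ * G.s.card ≤ ∑ v ∈ G.s, (G.deg v : ℝ)

def S_Graph : Prop := ∀ N R n J : ℕ, Lat N R n → 1 ≤ n → 4 ≤ J → 2 * R ≤ 2 ^ J →
  Av (4 * N * J) ((n : ℝ) / 2 ^ (4 * N))

/-- Bounded degrees and almost the maximal number of edges. -/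
def Dy (g : ℕ) (a b : ℝ) : Prop := ∃ (V : Type) (G : UG V), G.s.card ≤ 2 ^ g ∧
  (∀ v ∈ G.s, (G.col v = true → (G.deg v : ℝ) ≤ 2 * a) ∧ (G.col v = false → (G.deg v : ℝ) ≤ 2 * b)) ∧
  0 < ∑ v ∈ G.s.filter (fun v => G.col v = true), G.deg v ∧
  a * b * (G.s.filter (fun v => G.col v = true)).card * (G.s.filter (fun v => G.col v = false)).card
    ≤ (g + 1) * (∑ v ∈ G.s.filter (fun v => G.col v = true), (G.deg v : ℝ)) ^ 2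

def S_Dy : Prop := ∀ (g : ℕ) (δ : ℝ), 0 < δ → Av g δ →
  ∃ a b : ℝ, δ / (4 * (g + 1) ^ 2) ≤ a ∧ δ / (4 * (g + 1) ^ 2) ≤ b ∧ Dy g a b

def S_Pot : Prop := ∀ (g : ℕ) (a b : ℝ), 0 < a → 0 < b → Dy g a b →
  ∃ a' b' : ℝ, a / (8 * (g + 1)) ≤ a' ∧ b / (8 * (g + 1)) ≤ b' ∧ Bi a' (100 * a') b' (100 * b') g

def S_Near : Prop := ∀ (g t E : ℕ) (a b Γ : ℝ), Bi a (100 * a) b (100 * b) g →
  2 ^ (t + 9) ≤ a → 2 ^ (t + 9) ≤ b → E ≤ 2 ^ t → ((3 ^ 9 * g + t + 11 : ℕ) : ℝ) ≤ Γ →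
  10 ^ 10 * Γ ≤ E → Nr E (E / 8) (3 ^ 9 * g)

/-- Half exact graphs of all degrees `D ≤ 2 ^ e`, `e ≤ L`, on at most `2 ^ (c e)` points. -/
def HX (c L : ℕ) : Prop := ∀ (e D : ℕ) (Γ : ℝ), 1 ≤ e → e ≤ L → D ≤ 2 ^ e →
  ((c * e : ℕ) : ℝ) ≤ Γ → 10 ^ 4 * Γ ≤ D →
  Bi D D (2 * D - 16 * Real.sqrt (D * Γ)) (2 * D) (c * e)

def S_Base : Prop := ∃ C : ℕ, 1 ≤ C ∧ ∀ k, HX (C ^ (k + 1)) (tw k)

/-! ### Labelled graphs -/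

/-- The weights of the classes. -/
def wt (K a : ℕ) (κ : Bool × Fin K × Bool) : ℕ :=
  a * (2 ^ K - 1) + if κ.2.2 = true then 2 ^ (κ.2.1 : ℕ) else 0

/-- Every line of the array `π` has the distribution `n` for the weights `ν`. -/
def Lines {B C : Type} [Fintype B] {r : ℕ} (ν : B → ℕ) (n : C → ℕ) (π : (Fin r → B) → C) : Prop :=
  ∀ (β : Fin r → B) (i : Fin r) (κ : C),
    ∑ b : B, (if π (Function.update β i b) = κ then ν b else 0) = n κ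

def S_Lot : Prop := ∀ K r : ℕ, 1 ≤ K →
  ∃ (B : Type) (_ : Fintype B) (ν : B → ℕ) (π : (Fin r → B) → Bool × Fin K × Bool),
    Fintype.card B ≤ K * (8 * K * 3 ^ r + 2) ∧ (∀ b, ν b ≤ 2 ^ K) ∧ (∃ b, 2 ^ K ≤ 2 * ν b) ∧
    Lines ν (wt K (2 * 3 ^ r)) π

/-- Every vertex of colour `c` has between `μ κ - σ` and `μ κ` neighbours with label `κ`. -/
def View {V Λ : Type} (G : UG V) (c : Bool) (ξ : V → Λ) (μ : Λ → ℕ) (σ : ℝ) : Prop :=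
  ∀ v ∈ G.s, G.col v = c → ∀ κ, G.cnt v (fun w => ξ w = κ) ≤ μ κ ∧
    (μ κ : ℝ) - G.cnt v (fun w => ξ w = κ) ≤ σ

/-- The vertices of colour `false` exist and have degree close to `M`. -/
def Fal {V : Type} (H : UG V) (M : ℕ) (Γ : ℝ) : Prop := (∃ w ∈ H.s, H.col w = false) ∧
  ∀ w ∈ H.s, H.col w = false → H.deg w ≤ M ∧ (M : ℝ) - 16 * Real.sqrt (M * Γ) ≤ H.deg w

def S_Link : Prop := ∀ (V V' Λ : Type) [Fintype Λ] (G : UG V) (H : UG V') (ξ : V → Λ) (μ : Λ → ℕ)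
  (m g e : ℕ) (σ Γ : ℝ), View G true ξ μ σ → 1 ≤ σ → (∀ κ, μ κ ≤ m) → 0 < Fintype.card Λ * m →
  Fintype.card Λ * (m + 1) ≤ 2 ^ e → H.s.card ≤ 2 ^ g → (g : ℝ) + e + 1 ≤ Γ →
  Fal H (Fintype.card Λ * m) Γ →
  ∃ (S : UG (V × V')) (ξ' : V × V' → Λ), S.s ⊆ G.s ×ˢ H.s ∧
    View S true ξ' μ ((20 * Real.sqrt Γ + 2) * Real.sqrt σ) ∧
    ∀ v ∈ S.s, S.col v = false →
      (G.col v.1 = false ∧ ∀ q : V × V' → Prop, S.cnt v q = G.cnt v.1 (fun x => q (x, v.2))) ∨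
      (H.col v.2 = true ∧ ∀ q : V × V' → Prop, S.cnt v q = H.cnt v.2 (fun w => q (v.1, w)))

def S_One : Prop := ∀ (V' Λ : Type) [Fintype Λ] (H : UG V') (μ : Λ → ℕ) (m g e r u : ℕ)
  (Γ b₁ b₂ : ℝ), (∀ κ, μ κ ≤ m) → m ≤ 2 ^ (2 ^ r * u) → 0 < Fintype.card Λ * m →
  Fintype.card Λ * (m + 1) ≤ 2 ^ e → H.s.card ≤ 2 ^ g → (g : ℝ) + e + 1 ≤ Γ →
  Fal H (Fintype.card Λ * m) Γ →
  (∀ w ∈ H.s, H.col w = true → b₁ ≤ H.deg w ∧ (H.deg w : ℝ) ≤ b₂) →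
  ∃ (V : Type) (O : UG V) (ξ : V → Λ), O.s.card ≤ 2 ^ (r * g) ∧
    View O true ξ μ ((20 * Real.sqrt Γ + 2) ^ 2 * 2 ^ u) ∧
    ∀ v ∈ O.s, O.col v = false → b₁ ≤ O.deg v ∧ (O.deg v : ℝ) ≤ b₂

def S_W : Prop := ∀ (V' B C : Type) [Fintype B] [Fintype C] (H : UG V') (b : V' → B) (r : ℕ)
  (ν : B → ℕ) (n : C → ℕ) (π : (Fin r → B) → C) (m g e u : ℕ) (ε Γ : ℝ), Lines ν n π →
  (∀ κ, n κ ≤ m) → m ≤ 2 ^ (2 ^ r * u) → 0 < Fintype.card C * m →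
  Fintype.card C * (m + 1) ≤ 2 ^ e → H.s.card ≤ 2 ^ g → (g : ℝ) + e + 1 ≤ Γ →
  Fal H (Fintype.card C * m) Γ → View H true b ν ε → 0 ≤ ε →
  ∃ (V : Type) (W : UG V) (ξ : V → C), W.s.card ≤ 2 ^ (r * g) ∧
    View W true ξ n ((20 * Real.sqrt Γ + 2) ^ 2 * 2 ^ u) ∧ View W false ξ n (Fintype.card B * ε)

def S_Abs : Prop := ∀ (K a g : ℕ) (V : Type) (W : UG V) (ξ : V → Bool × Fin K × Bool) (ε : ℝ),
  W.s.card ≤ 2 ^ g → View W true ξ (wt K a) ε → View W false ξ (wt K a) ε →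
  ∀ D g₀ : ℕ, Nr D (2 ^ K - 1) g₀ → Nr (D + K * (a * (2 ^ K - 1))) (K * ε) (2 * g₀ + g)

def S_Two : Prop := ∀ (D M₁ M₂ g : ℕ) (Γ : ℝ),
  Bi D D (2 * D - 16 * Real.sqrt (D * Γ)) (2 * D) g → M₁ ≤ D → M₂ ≤ D → (g : ℝ) + 1 ≤ Γ →
  400 * Γ ≤ M₁ → 400 * Γ ≤ M₂ →
  Bi (M₁ - 16 * Real.sqrt (M₁ * Γ)) M₁ (M₂ - 16 * Real.sqrt (M₂ * Γ)) M₂ g

def S_Round : Prop := ∀ c L K r : ℕ, HX c L → 1 ≤ c → 1 ≤ K → 11 * K ≤ L → 1 ≤ r →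
  2 ^ r ≤ 2 * K → ∃ T : ℕ, T ≤ 8 * K ^ 3 * 2 ^ K ∧ ∀ D g : ℕ, Nr D (2 ^ K - 1) g →
    Nr (D + T) ((10 ^ 9 * c * K ^ 7 * 2 ^ (8 * K / 2 ^ r) : ℕ) : ℝ) (2 * g + 11 * c * r ^ 2 * K)

def S_Iter : Prop := ∃ C : ℕ, ∀ c L k d : ℕ, HX c (11 * L) → 1 ≤ c → 1 ≤ L → d ≤ 2 ^ L →
  2 ^ L ≤ 2 * d → L ≤ tw k → ∃ (V : Type) (G : UG V),
    G.s.card ≤ 2 ^ (C ^ (k + 1) * c ^ 2 * L) ∧ ∀ v ∈ G.s, G.deg v = d

end Pool.Agent.P.MP_44bffd_co.LS
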