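import Pool.Agent.P.MP_44bffd_co.LS.Defs

/-! The product of the differences of the conjugates lies in the different ideal. -/

namespace Pool.Agent.P.MP_44bffd_co.LS

open Finset NumberField Polynomial
open scoped Classical

namespace DerP

variable {K L : Type} [Field K] [Field L] [Algebra K L] [FiniteDimensional K L] [IsGalois K L]

omit [FiniteDimensional K L] [IsGalois K L] in
theorem inj {y : L} (h : ∀ s : L ≃ₐ[K] L, s y = y → s = 1) :
    Function.Injective fun s : L ≃ₐ[K] L => s y := by
  intro s t e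
  have e' : s y = t y := e
  have h1 : (t⁻¹ * s) y = y := by
    rw [AlgEquiv.mul_apply, e', ← AlgEquiv.mul_apply, inv_mul_cancel, AlgEquiv.one_apply]
  exact (inv_mul_eq_one.1 (h _ h1)).symm

theorem dvd {y : L} (h : ∀ s : L ≃ₐ[K] L, s y = y → s = 1) :
    Lagrange.nodal univ (fun s : L ≃ₐ[K] L => s y) ∣ (minpoly K y).map (algebraMap K L) := by
  refine Finset.prod_dvd_of_coprime (fun s _ t _ hst => ?_) fun s _ => ?_
  · exact pairwise_coprime_X_sub_C (inj h) hst
  · rw [dvd_iff_isRoot, IsRoot, eval_map_algebraMap, aeval_algEquiv, AlgHom.comp_apply,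
      minpoly.aeval, map_zero]

theorem deg {y : L} (h : ∀ s : L ≃ₐ[K] L, s y = y → s = 1) :
    (minpoly K y).natDegree = Module.finrank K L := by
  have hi : IsIntegral K y := IsIntegral.of_finite K y
  refine le_antisymm (minpoly.natDegree_le y) ?_
  have h1 := natDegree_le_of_dvd (dvd h) ((minpoly.monic hi).map _).ne_zero
  rwa [Lagrange.natDegree_nodal, natDegree_map, card_univ, ← Nat.card_eq_fintype_card,
    IsGalois.card_aut_eq_finrank] at h1

theorem eq_nodal {y : L} (h : ∀ s : L ≃ₐ[K] L, s y = y → s = 1) :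
    (minpoly K y).map (algebraMap K L) = Lagrange.nodal univ (fun s : L ≃ₐ[K] L => s y) := by
  have hi : IsIntegral K y := IsIntegral.of_finite K y
  refine eq_of_monic_of_dvd_of_natDegree_le Lagrange.nodal_monic ((minpoly.monic hi).map _)
    (dvd h) (le_of_eq ?_)
  rw [Lagrange.natDegree_nodal, natDegree_map, card_univ, ← Nat.card_eq_fintype_card,
    IsGalois.card_aut_eq_finrank, deg h]

theorem der {y : L} (h : ∀ s : L ≃ₐ[K] L, s y = y → s = 1) :
    aeval y (derivative (minpoly K y)) = ∏ s ∈ (univ : Finset (L ≃ₐ[K] L)).erase 1, (y - s y) := by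
  rw [← eval_map_algebraMap, ← derivative_map, eq_nodal h]
  have := Lagrange.eval_nodal_derivative_eval_node_eq (s := univ)
    (v := fun s : L ≃ₐ[K] L => s y) (i := 1) (mem_univ _)
  simp only [AlgEquiv.one_apply] at this
  rw [this, Lagrange.eval_nodal]

theorem top {y : L} (h : ∀ s : L ≃ₐ[K] L, s y = y → s = 1) : Algebra.adjoin K {y} = ⊤ := by
  have h1 := (Field.primitive_element_iff_minpoly_natDegree_eq K y).2 (deg h)
  rw [← IntermediateField.adjoin_simple_toSubalgebra_of_isAlgebraic
    (IsIntegral.of_finite K y).isAlgebraic, h1, IntermediateField.top_toSubalgebra]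

end DerP

theorem p_Der : S_Der := by
  intro K L _ _ _ _ _ _ x hx
  have hc : ∀ s : L ≃ₐ[K] L, algebraMap (𝓞 L) L (s • x) = s (algebraMap (𝓞 L) L x) := fun s => rfl
  have h : ∀ s : L ≃ₐ[K] L, s (algebraMap (𝓞 L) L x) = algebraMap (𝓞 L) L x → s = 1 :=
    fun s e => hx s (RingOfIntegers.coe_injective ((hc s).trans e))
  have key := aeval_derivative_mem_differentIdeal (𝓞 K) K L x (DerP.top h)
  have hi : IsIntegral (𝓞 K) x := Algebra.IsIntegral.isIntegral x
  have e : aeval x (derivative (minpoly (𝓞 K) x)) =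
      ∏ s ∈ (univ : Finset (L ≃ₐ[K] L)).erase 1, (x - s • x) := by
    apply RingOfIntegers.coe_injective
    have h1 := DerP.der h
    rw [minpoly.isIntegrallyClosed_eq_field_fractions K L hi, derivative_map, aeval_map_algebraMap,
      aeval_algebraMap_apply] at h1
    rw [h1, map_prod]
    exact prod_congr rfl fun s _ => by rw [map_sub, hc]
  rwa [e] at key

end Pool.Agent.P.MP_44bffd_co.LS
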