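import Pool.Agent.P.MP_44bffd_co.LS.Defs

/-! The discriminant of a field generated by square roots of units. -/

namespace Pool.Agent.P.MP_44bffd_co.LS

open Finset NumberField
open scoped Classical

namespace DiffP

open Polynomial

/-- A polynomial that is very small at the nodes is at most as large as the node polynomial. -/
theorem interp {B Γ ι : Type*} [CommRing B] [LinearOrderedCommGroupWithZero Γ]
    (v : Valuation B Γ) (h1 : ∀ b, v b ≤ 1) (a : ι → B) (z : B) {ε : Γ} (hε : ε ≠ 0)
    (S : Finset ι) (hS : ∀ s ∈ S, ∀ t ∈ S, s ≠ t → v (a s - a t) ≠ 0) :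
    ∃ η : Γ, η ≠ 0 ∧ ∀ G : B[X], (∀ s ∈ S, v (G.eval (a s)) ≤ η) →
      v (G.eval z) ≤ max (v (∏ s ∈ S, (z - a s))) ε := by
  induction S using Finset.induction_on with
  | empty => exact ⟨1, one_ne_zero, fun G _ => by simp [h1]⟩
  | insert t S ht ih =>
    obtain ⟨η, hη, H⟩ := ih fun s hs s' hs' =>
      hS s (mem_insert_of_mem hs) s' (mem_insert_of_mem hs')
    have hne : ∀ s ∈ S, v (a s - a t) ≠ 0 := fun s hs =>
      hS s (mem_insert_of_mem hs) t (mem_insert_self _ _) (by rintro rfl; exact ht hs)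
    have hc : ∏ s ∈ S, v (a s - a t) ≠ 0 := prod_ne_zero_iff.mpr hne
    refine ⟨min ε (η * ∏ s ∈ S, v (a s - a t)), ?_, fun G hG => ?_⟩
    · exact (lt_min (zero_lt_iff.mpr hε) (zero_lt_iff.mpr (mul_ne_zero hη hc))).ne'
    obtain ⟨G₁, e⟩ : ∃ G₁ : B[X], ∀ w, G.eval w = G.eval (a t) + (w - a t) * G₁.eval w := by
      obtain ⟨G₁, h⟩ := X_sub_C_dvd_sub_C_eval (p := G) (a := a t)
      refine ⟨G₁, fun w => ?_⟩
      have := congrArg (eval w) h
      simp only [eval_sub, eval_C, eval_mul, eval_X] at this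
      linear_combination this
    have ht0 := hG t (mem_insert_self _ _)
    have h2 : ∀ s ∈ S, v (G₁.eval (a s)) ≤ η := by
      intro s hs
      have h3 : v ((a s - a t) * G₁.eval (a s)) ≤ η * ∏ s ∈ S, v (a s - a t) := by
        rw [show (a s - a t) * G₁.eval (a s) = G.eval (a s) - G.eval (a t) by
          linear_combination -e (a s)]
        exact v.map_sub_le ((hG s (mem_insert_of_mem hs)).trans (min_le_right _ _))
          (ht0.trans (min_le_right _ _))
      have h4 : ∏ s ∈ S, v (a s - a t) ≤ v (a s - a t) := by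
        rw [← mul_prod_erase S _ hs]
        exact mul_le_of_le_one_right' (prod_le_one' fun _ _ => h1 _)
      rw [map_mul, mul_comm] at h3
      exact le_of_mul_le_mul_right (h3.trans (mul_le_mul_right h4 η))
        (zero_lt_iff.mpr (hne s hs))
    rw [e z, prod_insert ht]
    refine v.map_add_le (ht0.trans ((min_le_left _ _).trans (le_max_right _ _))) ?_
    rw [map_mul, map_mul]
    rcases le_max_iff.mp (H G₁ h2) with h | h
    · exact le_max_of_le_left (mul_le_mul_right h _)
    · exact le_max_of_le_right ((mul_le_of_le_one_left' (h1 _)).trans h)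

/-- half of the subsets have product of signs `-1` -/
theorem count {m : ℕ} (σ : Fin m → ℤ) (hσ : ∀ i, σ i = 1 ∨ σ i = -1) {j : Fin m}
    (hj : σ j = -1) :
    2 * ((univ : Finset (Finset (Fin m))).filter fun T => ∏ i ∈ T, σ i = -1).card = 2 ^ m := by
  have h0 : ∏ i, (1 + σ i) = 0 := prod_eq_zero (mem_univ j) (by rw [hj]; rfl)
  rw [prod_one_add, powerset_univ] at h0
  have h1 : ∀ T : Finset (Fin m), ∏ i ∈ T, σ i = 1 - 2 * if ∏ i ∈ T, σ i = -1 then 1 else 0 := by
    intro T
    have : ∏ i ∈ T, σ i = 1 ∨ ∏ i ∈ T, σ i = -1 :=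
      prod_induction _ (fun a : ℤ => a = 1 ∨ a = -1)
        (by rintro a b (rfl | rfl) (rfl | rfl) <;> simp) (Or.inl rfl) fun i _ => hσ i
    rcases this with h | h <;> simp [h]
  rw [sum_congr rfl fun T _ => h1 T, sum_sub_distrib, ← mul_sum, sum_boole] at h0
  simp only [sum_const, card_univ, Fintype.card_finset, Fintype.card_fin, nsmul_eq_mul, mul_one,
    Nat.cast_pow, Nat.cast_ofNat] at h0
  have h2 : (2 : ℤ) * (((univ : Finset (Finset (Fin m))).filter
      fun T => ∏ i ∈ T, σ i = -1).card : ℕ) = 2 ^ m := by linarith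
  exact_mod_cast h2

/-- the local estimate for the product of the differences of the conjugates -/
theorem core {B G : Type*} [CommRing B] [Group G] [Fintype G] [MulSemiringAction G B]
    (v : Valuation B (WithZero (Multiplicative ℤ))) (h1 : ∀ b, v b ≤ 1)
    (h0 : ∀ b, v b = 0 → b = 0) (h2 : (2 : B) ≠ 0) {m : ℕ} (x : B) (y : Fin m → B)
    (hy : ∀ i, v (y i) = 1) (σ : G → Fin m → ℤ) (hσ : ∀ s i, σ s i = 1 ∨ σ s i = -1)
    (hs : ∀ s i, s • y i = σ s i * y i) (h1σ : ∀ i, σ 1 i = 1)
    (hmv : ∀ s, s ≠ 1 → ∃ j, σ s j = -1) (St : G → Prop)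
    (hSt : ∀ s, ¬ St s → v (x - s • x) = 1) (hinj : ∀ s t : G, s • x = t • x → s = t)
    (happ : ∀ η, η ≠ 0 → ∀ b : B, ∃ g : ℤ[X], v (b - aeval x g) ≤ η ∧
      ∀ s, St s → v (s • (b - aeval x g)) ≤ η) :
    v 4 ≤ v (∏ s ∈ (univ : Finset G).erase 1, (x - s • x)) := by
  have hv2 : v 2 ≠ 0 := fun h => h2 (h0 _ h)
  have key : ∀ T : Finset (Fin m),
      v 2 ≤ ∏ s ∈ univ.filter (fun s : G => ∏ i ∈ T, σ s i = -1), v (x - s • x) := by
    intro T
    obtain ⟨ε, hε, hlt⟩ := WithZero.exists_ne_zero_and_lt hv2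
    obtain ⟨η, hη, H⟩ := interp v h1 (fun s : G => s • x) x hε
      ((univ.filter fun s : G => ∏ i ∈ T, σ s i = -1).filter St)
      fun s _ t _ hst h => hst (hinj s t (sub_eq_zero.mp (h0 _ h)))
    obtain ⟨g, g1, g2⟩ := happ (min ε η)
      (lt_min (zero_lt_iff.mpr hε) (zero_lt_iff.mpr hη)).ne' (∏ i ∈ T, y i)
    have hev : ∀ w : B, (g.map (Int.castRingHom B) + C (∏ i ∈ T, y i)).eval w =
        aeval w g + ∏ i ∈ T, y i := fun w => by
      rw [eval_add, eval_C, aeval_def, eval_map]; rfl
    have H' := H (g.map (Int.castRingHom B) + C (∏ i ∈ T, y i)) fun s hs' => by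
      rw [mem_filter, mem_filter] at hs'
      have e1 : s • ∏ i ∈ T, y i = -∏ i ∈ T, y i := by
        rw [smul_prod', prod_congr rfl fun i _ => hs s i, prod_mul_distrib, ← Int.cast_prod,
          hs'.1.2]
        simp
      have e2 : s • aeval x g = aeval (s • x) g :=
        (aeval_algHom_apply (MulSemiringAction.toRingHom G B s).toIntAlgHom x g).symm
      have := (g2 s hs'.2).trans (min_le_right _ _)
      rw [smul_sub, e1, e2, ← v.map_neg] at this
      rw [hev]
      convert this using 2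
      ring
    rw [hev] at H'
    have e3 : v 2 = v ((aeval x g + ∏ i ∈ T, y i) + (∏ i ∈ T, y i - aeval x g)) := by
      rw [show (aeval x g + ∏ i ∈ T, y i) + (∏ i ∈ T, y i - aeval x g) = 2 * ∏ i ∈ T, y i by ring,
        map_mul, map_prod, prod_congr rfl fun i _ => hy i]
      simp
    have e4 := v.map_add_le H' ((g1.trans (min_le_left _ _)).trans (le_max_right _ _))
    rw [← e3] at e4
    have e5 := (le_max_iff.mp e4).resolve_right (not_le.mpr hlt)
    rw [← prod_filter_mul_prod_filter_not _ St,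
      prod_congr rfl fun s hs' => hSt s (mem_filter.mp hs').2, prod_const_one, mul_one,
      ← map_prod]
    exact e5
  have hall : v 2 ^ 2 ^ m ≤ ∏ s : G, v (x - s • x) ^
      ((univ : Finset (Finset (Fin m))).filter fun T => ∏ i ∈ T, σ s i = -1).card := by
    calc v 2 ^ 2 ^ m = ∏ _T : Finset (Fin m), v 2 := by simp
      _ ≤ ∏ T : Finset (Fin m), ∏ s ∈ univ.filter (fun s : G => ∏ i ∈ T, σ s i = -1),
          v (x - s • x) := prod_le_prod' fun T _ => key T
      _ = _ := by
        simp only [prod_filter]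
        rw [prod_comm]
        refine prod_congr rfl fun s _ => ?_
        rw [← prod_filter, prod_const]
  have hsq : v 4 ^ 2 ^ m ≤ v (∏ s ∈ (univ : Finset G).erase 1, (x - s • x)) ^ 2 ^ m := by
    have e1 : v 4 ^ 2 ^ m = (v 2 ^ 2 ^ m) ^ 2 := by
      rw [show (4 : B) = 2 ^ 2 by norm_num, map_pow, ← pow_mul, ← pow_mul, mul_comm]
    rw [e1]
    refine (pow_le_pow_left' hall 2).trans (le_of_eq ?_)
    rw [← mul_prod_erase univ _ (mem_univ 1)]
    simp only [h1σ, prod_const_one, reduceCtorEq, filter_false, card_empty, pow_zero, one_mul]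
    rw [map_prod, ← prod_pow, ← prod_pow]
    refine prod_congr rfl fun s hs' => ?_
    obtain ⟨j, hj⟩ := hmv s (ne_of_mem_erase hs')
    rw [← pow_mul, mul_comm, count (σ s) (hσ s) hj]
  exact (pow_le_pow_iff_left₀ zero_le zero_le (by positivity)).mp hsq

theorem galois (K L : Type) [Field K] [NumberField K] [Field L] [NumberField L] [Algebra K L]
    {m : ℕ} (y : Fin m → L) (u : Fin m → K) (hu : ∀ i, algebraMap K L (u i) = y i ^ 2)
    (ha : IntermediateField.adjoin K (Set.range y) = ⊤) : IsGalois K L := by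
  have hmap : (∏ i, (X ^ 2 - C (u i)) : K[X]).map (algebraMap K L) =
      ∏ i, ((X - C (y i)) * (X - C (-y i))) := by
    rw [Polynomial.map_prod]
    refine prod_congr rfl fun i _ => ?_
    simp only [Polynomial.map_sub, Polynomial.map_pow, map_X, map_C, hu, map_pow, map_neg]
    ring
  have hsp : (∏ i, (X ^ 2 - C (u i)) : K[X]).IsSplittingField K L := by
    rw [isSplittingField_iff_intermediateField]
    refine ⟨?_, ?_⟩
    · rw [hmap]
      exact Splits.prod fun i _ => (Splits.X_sub_C _).mul (Splits.X_sub_C _)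
    · rw [eq_top_iff, ← ha]
      refine IntermediateField.adjoin.mono _ _ _ ?_
      rintro _ ⟨i, rfl⟩
      rw [mem_rootSet_of_ne (monic_prod_of_monic _ _ fun i _ =>
        monic_X_pow_sub_C _ two_ne_zero).ne_zero, map_prod]
      exact prod_eq_zero (mem_univ i) (by simp [hu])
  have := Normal.of_isSplittingField (∏ i, (X ^ 2 - C (u i)) : K[X]) (hFEp := hsp)
  exact IsGalois.mk

end DiffP

open DiffP Polynomial IsDedekindDomain

theorem p_Diff (hG : S_Gen) (hD : S_Der) : S_Diff := by
  intro K L _ _ _ _ _ m y hy ha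
  choose u hu using hy
  have := galois K L _ u hu ha
  have h4 : (4 : 𝓞 L) ∈ differentIdeal (𝓞 K) (𝓞 L) := by
    by_contra h4
    obtain ⟨P, hP, hle⟩ := Ideal.exists_le_maximal
      ((differentIdeal (𝓞 K) (𝓞 L)).colon {4}) (by
        rw [Ne, Ideal.eq_top_iff_one, Submodule.mem_colon_singleton, one_smul]; exact h4)
    let φ : (L ≃ₐ[K] L) → 𝓞 L →+* 𝓞 L := fun s => MulSemiringAction.toRingHom _ _ s
    have hφ : ∀ s b, φ s b = s • b := fun _ _ => rfl
    obtain ⟨x, hxP, hxQ, hx⟩ := hG L P
      ((univ.image fun s => P.comap (φ s)).filter fun I => I ≠ P) hP fun I hI => by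
        obtain ⟨hI, hne⟩ := mem_filter.mp hI
        obtain ⟨s, -, rfl⟩ := mem_image.mp hI
        exact ⟨Ideal.comap_isMaximal_of_surjective _ (MulAction.bijective s).2, hne⟩
    have hout : ∀ s, ¬ P.comap (φ s) = P → s • x ∈ P := fun s hs =>
      hxQ _ (mem_filter.mpr ⟨mem_image_of_mem _ (mem_univ s), hs⟩)
    have hin : ∀ s, P.comap (φ s) = P → ∀ (N : ℕ) (b : 𝓞 L), b ∈ P ^ N → s • b ∈ P ^ N := by
      intro s hs N b hb
      rw [← hs] at hb
      exact Ideal.le_comap_pow _ N hb
    have hone : ∀ s : L ≃ₐ[K] L, (∀ i, s • (y i : 𝓞 L) = y i) → s = 1 := by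
      intro s hs
      ext z
      have hz : z ∈ IntermediateField.adjoin K (Set.range fun i => ((y i : 𝓞 L) : L)) :=
        ha ▸ IntermediateField.mem_top
      induction hz using IntermediateField.adjoin_induction with
      | mem z hz =>
        obtain ⟨i, rfl⟩ := hz
        exact congrArg (fun b : 𝓞 L => (b : L)) (hs i)
      | algebraMap z => simp
      | add a b _ _ h1 h2 => rw [map_add, map_add, h1, h2]
      | inv a _ h1 => rw [map_inv₀, map_inv₀, h1]
      | mul a b _ _ h1 h2 => rw [map_mul, map_mul, h1, h2]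
    have hfix : ∀ s : L ≃ₐ[K] L, s • x = x → s = 1 := by
      intro s hs
      have hst : P.comap (φ s) = P := by
        by_contra h
        exact hxP (hs ▸ hout s h)
      refine hone s fun i => sub_eq_zero.mp ?_
      rw [← Ideal.mem_bot, ← Ideal.iInf_pow_eq_bot_of_isDomain P hP.ne_top, Ideal.mem_iInf]
      intro N
      obtain ⟨g, hg⟩ := hx N (y i)
      have e2 : s • aeval x g = aeval (s • x) g :=
        (aeval_algHom_apply (φ s).toIntAlgHom x g).symm
      have h1 := sub_mem (hin s hst N _ hg) hg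
      rw [smul_sub, e2, hs] at h1
      convert h1 using 1
      ring
    have hpm : ∀ (s : L ≃ₐ[K] L) i, s • (y i : 𝓞 L) = y i ∨ s • (y i : 𝓞 L) = -y i := by
      intro s i
      rw [← sq_eq_sq_iff_eq_or_eq_neg, ← smul_pow']
      apply RingOfIntegers.coe_injective
      have e : s (((y i : 𝓞 L) : L) ^ 2) = ((y i : 𝓞 L) : L) ^ 2 := by
        rw [← hu, AlgEquiv.commutes]
      exact e
    let w : HeightOneSpectrum (𝓞 L) :=
      ⟨P, hP.isPrime, Ring.ne_bot_of_isMaximal_of_not_isField hP (RingOfIntegers.not_isField L)⟩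
    have hw1 : ∀ b, b ∉ P → w.intValuation b = 1 := fun b hb =>
      (w.intValuation_eq_one_iff_mem_primeCompl b).mpr hb
    have hc := core w.intValuation w.intValuation_le_one
      (fun b hb => by_contra fun h => w.intValuation_ne_zero b h hb) two_ne_zero x
      (fun i => (y i : 𝓞 L))
      (fun i => hw1 _ fun h => hP.ne_top (P.eq_top_of_isUnit_mem h (y i).isUnit))
      (fun (s : L ≃ₐ[K] L) i => if s • (y i : 𝓞 L) = y i then 1 else -1)
      (fun s i => by split_ifs <;> simp)
      (fun s i => by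
        split_ifs with h
        · simpa using h
        · simpa using (hpm s i).resolve_left h)
      (fun i => by simp)
      (fun s hs => by
        by_contra h
        refine hs (hone s fun i => by_contra fun hi => h ⟨i, if_neg hi⟩))
      (fun s => P.comap (φ s) = P)
      (fun s hs => hw1 _ fun h => hxP (by simpa using add_mem h (hout s hs)))
      (fun s t hst => by
        have : t⁻¹ * s = 1 := hfix _ (by rw [mul_smul, hst, inv_smul_smul])
        exact (inv_mul_eq_one.mp this).symm)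
      (fun η hη b => by
        obtain ⟨N, hN⟩ := WithZero.exists_exp_neg_natCast_lt hη
        obtain ⟨g, hg⟩ := hx N b
        exact ⟨g, ((w.intValuation_le_pow_iff_mem _ N).mpr hg).trans hN.le, fun s hs =>
          ((w.intValuation_le_pow_iff_mem _ N).mpr (hin s hs N _ hg)).trans hN.le⟩)
    have hδ := hD K L x hfix
    set δ := ∏ s ∈ (univ : Finset (L ≃ₐ[K] L)).erase 1, (x - s • x) with hδe
    have hδ0 : δ ≠ 0 := prod_ne_zero_iff.mpr fun s hs h =>
      ne_of_mem_erase hs (hfix s (sub_eq_zero.mp h).symm)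
    have hδ1 : algebraMap (𝓞 L) L δ ≠ 0 := fun h => hδ0 (RingOfIntegers.coe_injective (by
      rw [h, map_zero]))
    obtain ⟨n, d, hnd⟩ := w.exists_primeCompl_mul_eq_of_integer
      (algebraMap (𝓞 L) L 4 / algebraMap (𝓞 L) L δ) (by
        rw [map_div₀, w.valuation_of_algebraMap, w.valuation_of_algebraMap]
        exact div_le_one_of_le₀ hc zero_le)
    refine d.2 (hle ?_)
    rw [Submodule.mem_colon_singleton, smul_eq_mul]
    have e : (d : 𝓞 L) * 4 = n * δ := by
      apply RingOfIntegers.coe_injective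
      rw [map_mul, map_mul, ← hnd]
      field_simp
    rw [e]
    exact Ideal.mul_mem_left _ _ hδ
  rw [natAbs_discr_eq_absNorm_differentIdeal_mul_natAbs_discr_pow K (𝓞 K) L (𝓞 L)]
  refine Nat.mul_le_mul_right _ (Nat.le_of_dvd (by positivity) ?_)
  have h5 := Ideal.absNorm_dvd_absNorm_of_le ((Ideal.span_singleton_le_iff_mem _).mpr h4)
  rwa [show (4 : 𝓞 L) = ((4 : ℕ) : 𝓞 L) by norm_num, Ideal.absNorm_span_natCast,
    RingOfIntegers.rank] at h5

end Pool.Agent.P.MP_44bffd_co.LS
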