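import Pool.Agent.P.MP_44bffd_co.LS.Defs

/-! Dyadic degree classes: from large average degree to bounded degrees with many edges. -/

namespace Pool.Agent.P.MP_44bffd_co.LS

open Finset
open scoped Classical

namespace DyP

variable {V : Type}

lemma cnt_eq_sum (G : UG V) (v : V) (B : Finset V) (hB : B ⊆ G.s) :
    G.cnt v (fun w => w ∈ B) = ∑ w ∈ B, if G.adj v w then 1 else 0 := by
  unfold UG.cnt
  rw [← Finset.card_filter]
  congr 1
  ext w
  simp only [Finset.mem_filter]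
  exact ⟨fun h => ⟨h.2.2, h.2.1⟩, fun h => ⟨hB h.1, h.2, h.1⟩⟩

/-- Double counting of the edges between two sets. -/
lemma double (G : UG V) (A B : Finset V) (hA : A ⊆ G.s) (hB : B ⊆ G.s) :
    ∑ v ∈ A, G.cnt v (fun w => w ∈ B) = ∑ w ∈ B, G.cnt w (fun v => v ∈ A) := by
  simp only [cnt_eq_sum G _ B hB, cnt_eq_sum G _ A hA]
  rw [Finset.sum_comm]
  refine Finset.sum_congr rfl fun w hw => Finset.sum_congr rfl fun v hv => ?_
  have : G.adj v w ↔ G.adj w v :=
    ⟨G.symm (hA hv) (hB hw), G.symm (hB hw) (hA hv)⟩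
  simp only [this]

lemma cnt_le_card (G : UG V) (v : V) (p : V → Prop) : G.cnt v p ≤ G.s.card :=
  Finset.card_le_card (Finset.filter_subset _ _)

lemma cnt_le_deg (G : UG V) (v : V) (p : V → Prop) : G.cnt v p ≤ G.deg v := by
  unfold UG.deg UG.cnt
  apply Finset.card_le_card
  intro w hw
  simp only [Finset.mem_filter] at hw ⊢
  exact ⟨hw.1, hw.2.1, trivial⟩

/-- A dyadic class that carries a large part of the sum. -/
lemma dyadic (S : Finset V) (d : V → ℕ) (g : ℕ) (hd : ∀ v ∈ S, d v ≤ 2 ^ g) :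
    ∃ (i : ℕ) (X : Finset V), X ⊆ S ∧ ∑ v ∈ S, d v ≤ (g + 1) * ∑ v ∈ X, d v ∧
      ∀ v ∈ X, 2 ^ i ≤ d v ∧ d v ≤ 2 * 2 ^ i := by
  let S' := S.filter (fun v => d v ≠ 0)
  have e1 : ∑ v ∈ S, d v = ∑ v ∈ S', d v := (Finset.sum_filter_ne_zero S).symm
  have hm : ∀ v ∈ S', Nat.log 2 (d v) ∈ range (g + 1) := by
    intro v hv
    rw [Finset.mem_range, Nat.lt_succ_iff]
    calc Nat.log 2 (d v) ≤ Nat.log 2 (2 ^ g) := Nat.log_mono_right (hd v (Finset.mem_filter.1 hv).1)
      _ = g := Nat.log_pow (by norm_num) g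
  have e2 := Finset.sum_fiberwise_of_maps_to hm d
  obtain ⟨i, -, hi⟩ := Finset.exists_max_image (range (g + 1))
    (fun i => ∑ v ∈ S'.filter (fun v => Nat.log 2 (d v) = i), d v) ⟨0, by simp⟩
  refine ⟨i, S'.filter (fun v => Nat.log 2 (d v) = i),
    (Finset.filter_subset _ _).trans (Finset.filter_subset _ _), ?_, ?_⟩
  · rw [e1, ← e2]
    have := Finset.sum_le_card_nsmul _ _ _ hi
    simpa using this
  · intro v hv
    obtain ⟨h1, h2⟩ := Finset.mem_filter.1 hv
    have h0 : d v ≠ 0 := (Finset.mem_filter.1 h1).2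
    refine ⟨h2 ▸ Nat.pow_log_le_self 2 h0, ?_⟩
    have := Nat.lt_pow_succ_log_self (b := 2) (by norm_num) (d v)
    rw [h2, pow_succ] at this
    omega

lemma sum_bds (X : Finset V) (d : V → ℕ) (a n : ℕ) (hn : X.card ≤ n)
    (h : ∀ v ∈ X, a ≤ d v ∧ d v ≤ 2 * a) :
    a * X.card ≤ ∑ v ∈ X, d v ∧ ∑ v ∈ X, d v ≤ 2 * a * n := by
  constructor
  · have := Finset.card_nsmul_le_sum X d a (fun v hv => (h v hv).1)
    simpa [mul_comm] using this
  · have := Finset.sum_le_card_nsmul X d (2 * a) (fun v hv => (h v hv).2)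
    rw [smul_eq_mul, mul_comm] at this
    exact this.trans (Nat.mul_le_mul_left _ hn)

lemma low (δ a n g E : ℝ) (hn : 0 < n) (hg : 0 ≤ g) (h1 : δ * n ≤ 2 * E)
    (h2 : E ≤ (g + 1) ^ 2 * (2 * a * n)) : δ / (4 * (g + 1) ^ 2) ≤ a := by
  rw [div_le_iff₀ (by positivity)]
  have : δ * n ≤ a * (4 * (g + 1) ^ 2) * n := by nlinarith
  exact le_of_mul_le_mul_right this hn

end DyP

open DyP in
theorem p_Dy : S_Dy := by
  rintro g δ hδ ⟨V, G, hg, hav⟩
  set T := G.s.filter (fun v => G.col v = true) with hT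
  set F := G.s.filter (fun v => ¬ G.col v = true) with hF
  have hTs : T ⊆ G.s := Finset.filter_subset _ _
  have hFs : F ⊆ G.s := Finset.filter_subset _ _
  have dT : ∀ v ∈ T, G.deg v = G.cnt v (fun w => w ∈ F) := by
    intro v hv
    obtain ⟨h1, h2⟩ := Finset.mem_filter.1 hv
    refine G.cnt_congr v fun w hw h => iff_of_true trivial (Finset.mem_filter.2 ⟨hw, fun e => ?_⟩)
    exact G.bip v h1 w hw h (h2.trans e.symm)
  have dF : ∀ v ∈ F, G.deg v = G.cnt v (fun w => w ∈ T) := by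
    intro v hv
    obtain ⟨h1, h2⟩ := Finset.mem_filter.1 hv
    refine G.cnt_congr v fun w hw h => iff_of_true trivial (Finset.mem_filter.2 ⟨hw, ?_⟩)
    have := G.bip v h1 w hw h
    revert this h2
    cases G.col v <;> cases G.col w <;> simp
  have hE : ∑ v ∈ G.s, G.deg v = 2 * ∑ v ∈ T, G.deg v := by
    rw [← Finset.sum_filter_add_sum_filter_not G.s (fun v => G.col v = true), ← hT, ← hF,
      Finset.sum_congr rfl dF, ← double G T F hTs hFs, ← Finset.sum_congr rfl dT]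
    ring
  obtain ⟨i, X, hX, hX1, hX2⟩ := dyadic T G.deg g (fun v _ => (cnt_le_card G v _).trans hg)
  obtain ⟨j, Y, hY, hY1, hY2⟩ := dyadic F (fun w => G.cnt w (fun v => v ∈ X)) g
    (fun v _ => (cnt_le_card G v _).trans hg)
  have hXs : X ⊆ G.s := hX.trans hTs
  have hYs : Y ⊆ G.s := hY.trans hFs
  have e1 : ∑ v ∈ X, G.deg v = ∑ w ∈ F, G.cnt w (fun v => v ∈ X) := by
    rw [← double G X F hXs hFs]
    exact Finset.sum_congr rfl fun v hv => dT v (hX hv)
  obtain ⟨a1, a2⟩ := sum_bds X G.deg (2 ^ i) G.s.card (Finset.card_le_card hXs) hX2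
  obtain ⟨b1, b2⟩ := sum_bds Y (fun w => G.cnt w (fun v => v ∈ X)) (2 ^ j) G.s.card
    (Finset.card_le_card hYs) hY2
  rw [← e1] at hY1
  set E := ∑ v ∈ T, G.deg v with hEdef
  set e₁ := ∑ v ∈ X, G.deg v with he₁
  set e₂ := ∑ w ∈ Y, G.cnt w (fun v => v ∈ X) with he₂
  have hn : (0 : ℝ) < G.s.card := by exact_mod_cast G.ne.card_pos
  have hav' : δ * G.s.card ≤ 2 * (E : ℝ) := by
    refine hav.trans (le_of_eq ?_)
    exact_mod_cast hE
  have hEpos : 0 < E := by
    have : (0 : ℝ) < 2 * E := lt_of_lt_of_le (mul_pos hδ hn) hav'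
    have : (0 : ℝ) < E := by linarith
    exact_mod_cast this
  have he₂pos : 0 < e₂ := by
    rcases Nat.eq_zero_or_pos e₂ with h | h
    · rw [h, mul_zero, Nat.le_zero] at hY1
      rw [hY1, mul_zero] at hX1
      omega
    · exact h
  have hXc : ∀ v ∈ X, G.col v = true := fun v hv => (Finset.mem_filter.1 (hX hv)).2
  have hYc : ∀ v ∈ Y, ¬ G.col v = true := fun v hv => (Finset.mem_filter.1 (hY hv)).2
  have hne : ∃ v ∈ G.s, v ∈ X ∨ v ∈ Y := by
    obtain ⟨w, hw, -⟩ := Finset.exists_ne_zero_of_sum_ne_zero he₂pos.ne'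
    exact ⟨w, hYs hw, Or.inr hw⟩
  have fX : (G.sub _ hne).s.filter (fun v => (G.sub _ hne).col v = true) = X := by
    ext v
    rw [Finset.mem_filter, UG.mem_sub]
    exact ⟨fun h => h.1.2.resolve_right fun h' => hYc v h' h.2,
      fun h => ⟨⟨hXs h, Or.inl h⟩, hXc v h⟩⟩
  have fY : (G.sub _ hne).s.filter (fun v => (G.sub _ hne).col v = false) = Y := by
    ext v
    rw [Finset.mem_filter, UG.mem_sub]
    refine ⟨fun h => h.1.2.resolve_left fun h' => ?_,
      fun h => ⟨⟨hYs h, Or.inr h⟩, Bool.eq_false_iff.2 (hYc v h)⟩⟩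
    have h2 : G.col v = false := h.2
    rw [hXc v h'] at h2
    exact Bool.noConfusion h2
  have sX : ∑ v ∈ X, (G.sub _ hne).deg v = e₂ := by
    rw [he₂, ← double G X Y hXs hYs]
    refine Finset.sum_congr rfl fun v hv => ?_
    rw [UG.sub_deg]
    refine G.cnt_congr v fun w hw h => ⟨fun h' => h'.resolve_left fun h'' => ?_, Or.inr⟩
    exact G.bip v (hXs hv) w hw h ((hXc v hv).trans (hXc w h'').symm)
  refine ⟨2 ^ i, 2 ^ j, low δ _ G.s.card g E hn (Nat.cast_nonneg g) hav' ?_,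
    low δ _ G.s.card g E hn (Nat.cast_nonneg g) hav' ?_, V, G.sub _ hne,
    (G.card_sub _ _).trans hg, ?_, ?_, ?_⟩
  · have : E ≤ (g + 1) ^ 2 * (2 * 2 ^ i * G.s.card) :=
      hX1.trans (Nat.mul_le_mul (by nlinarith) a2)
    exact_mod_cast this
  · have : E ≤ (g + 1) ^ 2 * (2 * 2 ^ j * G.s.card) := by
      calc E ≤ (g + 1) * e₁ := hX1
        _ ≤ (g + 1) * ((g + 1) * (2 * 2 ^ j * G.s.card)) :=
          Nat.mul_le_mul_left _ (hY1.trans (Nat.mul_le_mul_left _ b2))
        _ = _ := by ring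
    exact_mod_cast this
  · intro v hv
    constructor
    · intro hc
      have hvX : v ∈ X := fX ▸ Finset.mem_filter.2 ⟨hv, hc⟩
      rw [UG.sub_deg]
      have := (cnt_le_deg G v (fun w => w ∈ X ∨ w ∈ Y)).trans (hX2 v hvX).2
      exact_mod_cast this
    · intro hc
      have hvY : v ∈ Y := fY ▸ Finset.mem_filter.2 ⟨hv, hc⟩
      rw [UG.sub_deg]
      have e : G.cnt v (fun w => w ∈ X ∨ w ∈ Y) = G.cnt v (fun w => w ∈ X) := by
        refine G.cnt_congr v fun w hw h => ⟨fun h' => h'.resolve_right fun h'' => ?_, Or.inl⟩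
        have h1 := hYc v hvY
        have h2 := hYc w h''
        have := G.bip v (hYs hvY) w hw h
        revert this h1 h2
        cases G.col v <;> cases G.col w <;> simp
      rw [e]
      have := (hY2 v hvY).2
      exact_mod_cast this
  · rw [fX, sX]
    exact he₂pos
  · rw [fX, fY, ← Nat.cast_sum, sX]
    have : 2 ^ i * 2 ^ j * X.card * Y.card ≤ (g + 1) * e₂ ^ 2 := by
      calc 2 ^ i * 2 ^ j * X.card * Y.card = (2 ^ i * X.card) * (2 ^ j * Y.card) := by ring
        _ ≤ ((g + 1) * e₂) * e₂ := Nat.mul_le_mul (a1.trans hY1) b1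
        _ = _ := by ring
    exact_mod_cast this

end Pool.Agent.P.MP_44bffd_co.LS
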