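import Pool.Agent.P.MP_44bffd_co.LS.Defs

/-! Adjoining square roots of units. -/

namespace Pool.Agent.P.MP_44bffd_co.LS

open Finset NumberField
open scoped Classical

namespace ExtP

theorem core (hD : S_Diff) (K F : Type) [Field K] [NumberField K] [Field F] [NumberField F]
    [Algebra K F] (m ρ : ℕ) (u : Fin m → (𝓞 K)ˣ) (y : Fin m → F)
    (hy : ∀ i, y i ^ 2 = algebraMap K F ((u i : 𝓞 K) : K))
    (ht : IntermediateField.adjoin K (Set.range y) = ⊤) (hr : Module.finrank K F = 2 ^ m)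
    (hρ : (discr K).natAbs ≤ ρ ^ Module.finrank ℚ K) :
    Module.finrank ℚ F = Module.finrank ℚ K * 2 ^ m ∧
      (discr F).natAbs ≤ (4 * ρ) ^ Module.finrank ℚ F := by
  have h1 : Module.finrank ℚ F = Module.finrank ℚ K * 2 ^ m := by
    rw [← hr, Module.finrank_mul_finrank]
  have h2 : ∀ i, ∃ z : (𝓞 F)ˣ, ((z : 𝓞 F) : F) = y i := fun i => by
    have h3 : y i ^ 2 = ((algebraMap (𝓞 K) (𝓞 F) (u i) : 𝓞 F) : F) := hy i
    have h4 : IsIntegral ℤ (y i) := IsIntegral.of_pow two_pos (by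
      rw [h3]
      exact RingOfIntegers.isIntegral_coe _)
    have h5 : (⟨y i, h4⟩ : 𝓞 F) ^ 2 = algebraMap (𝓞 K) (𝓞 F) (u i) :=
      Subtype.ext h3
    have h6 : IsUnit (⟨y i, h4⟩ : 𝓞 F) :=
      (isUnit_pow_iff two_ne_zero).1 (h5 ▸ (u i).isUnit.map _)
    exact ⟨h6.unit, by rw [h6.unit_spec]; rfl⟩
  choose z hz using h2
  refine ⟨h1, (hD K F m z (fun i => ⟨_, by rw [hz, hy]⟩) (by simpa only [hz] using ht)).trans ?_⟩
  rw [mul_pow, hr]
  refine Nat.mul_le_mul_left _ ?_
  rw [h1, pow_mul]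
  exact Nat.pow_le_pow_left hρ _

end ExtP

theorem p_Ext (hD : S_Diff) (hK : S_Kum) : S_Ext := by
  intro K E _ _ _ σ m ρ u y hy hs hρ
  let : Algebra K E := σ.toAlgebra
  have hr := hK K E m (fun i => ((u i : 𝓞 K) : K)) y hy hs
  have hf : Module.Finite K (IntermediateField.adjoin K (Set.range y)) :=
    Module.finite_of_finrank_pos (by rw [hr]; positivity)
  have hn : NumberField (IntermediateField.adjoin K (Set.range y)) := NumberField.of_module_finite K _
  refine ⟨IntermediateField.adjoin K (Set.range y), inferInstance, hn,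
    (IntermediateField.adjoin K (Set.range y)).toSubfield.subtype, ?_,
    ExtP.core hD K _ m ρ u (fun i => ⟨y i, IntermediateField.subset_adjoin _ _ ⟨i, rfl⟩⟩)
      (fun i => Subtype.ext (hy i)) ?_ hr hρ⟩
  · rw [Subfield.fieldRange_subtype]
    rfl
  · apply IntermediateField.lift_injective
    rw [IntermediateField.lift_top, IntermediateField.lift_adjoin, ← Set.range_comp]
    rfl

end Pool.Agent.P.MP_44bffd_co.LS
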