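import Pool.Agent.P.MP_44bffd_co.LS.Defs

/-! The final count and the passage to the Euclidean plane. -/

namespace Pool.Agent.P.MP_44bffd_co.LS

open Finset
open scoped Classical

theorem graph_final (hB : S_Base) (hI : S_Iter) : ∃ C : ℕ, ∀ d k : ℕ, 2 ≤ d → d ≤ tw k →
    ∃ (V : Type) (G : UG V), G.s.card ≤ d ^ (C ^ k) ∧ ∀ v ∈ G.s, G.deg v = d := by
  obtain ⟨B, hB1, hB⟩ := hB
  obtain ⟨C, hC⟩ := hI
  refine ⟨2 * (C + 1) ^ 2 * B ^ 10, fun d k hd hk => ?_⟩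
  have k1 : 1 ≤ k := by
    by_contra h
    have : k = 0 := by omega
    subst this
    rw [tw_zero] at hk
    omega
  obtain ⟨l, l1, l2, l3⟩ : ∃ l, 2 ^ l ≤ d ∧ d < 2 ^ (l + 1) ∧ 1 ≤ l :=
    ⟨Nat.log 2 d, Nat.pow_log_le_self 2 (by omega), Nat.lt_pow_succ_log_self (by norm_num) _,
      Nat.log_pos (by norm_num : 1 < 2) hd⟩
  have l4 : l < 2 ^ l := Nat.lt_two_pow_self
  have hL : l + 1 ≤ tw k := by omega
  have h11 : 11 * (l + 1) ≤ tw (k + 3) := by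
    rw [tw_succ, tw_succ, tw_succ]
    have a1 : tw k + 1 ≤ 2 ^ tw k := Nat.lt_two_pow_self
    have a2 : 2 ^ (tw k + 1) ≤ 2 ^ 2 ^ tw k := Nat.pow_le_pow_right (by norm_num) a1
    have a3 : tw k + 4 ≤ 2 ^ 2 ^ tw k := by rw [pow_succ] at a2; omega
    have a4 : 2 ^ (tw k + 4) ≤ 2 ^ 2 ^ 2 ^ tw k := Nat.pow_le_pow_right (by norm_num) a3
    rw [pow_add] at a4
    omega
  obtain ⟨V, G, g1, g2⟩ := hC (B ^ (k + 3 + 1)) (l + 1) k d
    (fun e D Γ a b => hB (k + 3) e D Γ a (b.trans h11)) (Nat.one_le_pow _ _ hB1) (by omega) l2.le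
    (by rw [pow_succ]; omega) hL
  refine ⟨V, G, g1.trans ?_, g2⟩
  have b1 : C ^ (k + 1) * (B ^ (k + 3 + 1)) ^ 2 * 2 ≤ (2 * (C + 1) ^ 2 * B ^ 10) ^ k := by
    have c1 : C ^ (k + 1) ≤ ((C + 1) ^ 2) ^ k := by
      rw [← pow_mul]
      exact (Nat.pow_le_pow_left (Nat.le_succ C) _).trans
        (Nat.pow_le_pow_right (by omega) (by omega))
    have c2 : (B ^ (k + 3 + 1)) ^ 2 ≤ (B ^ 10) ^ k := by
      rw [← pow_mul, ← pow_mul]
      exact Nat.pow_le_pow_right hB1 (by omega)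
    have c3 : 2 ≤ 2 ^ k := Nat.le_self_pow (by omega) 2
    calc _ ≤ ((C + 1) ^ 2) ^ k * (B ^ 10) ^ k * 2 ^ k := by gcongr
      _ = _ := by rw [mul_pow, mul_pow]; ring
  generalize C ^ (k + 1) * (B ^ (k + 3 + 1)) ^ 2 = X at *
  calc 2 ^ (X * (l + 1)) ≤ 2 ^ (l * (X * 2)) :=
        Nat.pow_le_pow_right (by norm_num) (by nlinarith)
    _ = (2 ^ l) ^ (X * 2) := pow_mul _ _ _
    _ ≤ d ^ (X * 2) := Nat.pow_le_pow_left l1 _
    _ ≤ _ := Nat.pow_le_pow_right (by omega) b1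

theorem to_plane {V : Type} (G : UG V) {d : ℕ} (hG : ∀ v ∈ G.s, G.deg v = d) :
    ∃ P : Finset (EuclideanSpace ℝ (Fin 2)), P.Nonempty ∧
      (∀ p ∈ P, {q | q ∈ P ∧ dist p q = 1}.ncard = d) ∧ P.card ≤ G.s.card := by
  obtain ⟨f, f1, f2⟩ := G.real
  let e : ℂ ≃ₗᵢ[ℝ] EuclideanSpace ℝ (Fin 2) := Complex.orthonormalBasisOneI.repr
  have hinj : Set.InjOn (fun v => e (f v)) G.s := fun a ha b hb h => f1 ha hb (e.injective h)
  refine ⟨G.s.image (fun v => e (f v)), G.ne.image _, ?_, Finset.card_image_le⟩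
  intro p hp
  obtain ⟨v, hv, rfl⟩ := Finset.mem_image.1 hp
  have : {q | q ∈ G.s.image (fun v => e (f v)) ∧ dist (e (f v)) q = 1} =
      ((G.s.filter (G.adj v)).image (fun v => e (f v)) : Finset _) := by
    ext q
    simp only [Set.mem_ofPred_eq, Finset.mem_image, Finset.coe_image, Finset.coe_filter,
      Set.mem_image]
    constructor
    · rintro ⟨⟨w, hw, rfl⟩, h⟩
      rw [e.dist_map] at h
      exact ⟨w, ⟨hw, (f2 v hv w hw).2 h⟩, rfl⟩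
    · rintro ⟨w, ⟨hw, h⟩, rfl⟩
      exact ⟨⟨w, hw, rfl⟩, by rw [e.dist_map]; exact (f2 v hv w hw).1 h⟩
  rw [this, Set.ncard_coe_finset, Finset.card_image_of_injOn
    (hinj.mono (by exact_mod_cast Finset.filter_subset _ _)), ← deg_eq, hG v hv]

end Pool.Agent.P.MP_44bffd_co.LS
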