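import Pool.Agent.P.MP_44bffd_co.LS.Defs

/-! One element whose integer polynomials fill all quotients by powers of a maximal ideal. -/

namespace Pool.Agent.P.MP_44bffd_co.LS

open Finset NumberField Polynomial

namespace GenP

variable {B : Type} [CommRing B] [IsDedekindDomain B]

theorem pow_le (P : Ideal B) [P.IsPrime] (hP : P ≠ ⊥) {w : B} (h1 : w ∈ P) (h2 : w ∉ P ^ 2)
    (N : ℕ) : P ^ N ≤ Ideal.span {w ^ N} ⊔ P ^ (N + 1) := by
  have hw : Ideal.span {w} ≤ P := (Ideal.span_singleton_le_iff_mem _).mpr h1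
  have e : Ideal.span {w} ⊔ P ^ 2 = P := by
    have h := Ideal.eq_prime_pow_of_succ_lt_of_le (P := P) (I := Ideal.span {w} ⊔ P ^ 2) hP
      (i := 1) (lt_of_le_of_ne le_sup_right fun h => h2 (h ▸ Ideal.mem_sup_left
        (Ideal.mem_span_singleton_self w)))
      (by rw [pow_one]; exact sup_le hw (Ideal.pow_le_self two_ne_zero))
    rwa [pow_one] at h
  induction N with
  | zero => simp
  | succ N ih =>
    have hwN : Ideal.span {w ^ N} ≤ P ^ N :=
      (Ideal.span_singleton_le_iff_mem _).mpr (Ideal.pow_mem_pow h1 N)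
    have a1 : Ideal.span {w ^ N} * P ≤ Ideal.span {w ^ (N + 1)} ⊔ P ^ (N + 1 + 1) := by
      calc Ideal.span {w ^ N} * P = Ideal.span {w ^ N} * (Ideal.span {w} ⊔ P ^ 2) := by rw [e]
        _ = Ideal.span {w ^ (N + 1)} ⊔ Ideal.span {w ^ N} * P ^ 2 := by
          rw [Ideal.mul_sup, Ideal.span_singleton_mul_span_singleton, ← pow_succ]
        _ ≤ _ := by
          refine sup_le_sup_left ?_ _
          rw [show N + 1 + 1 = N + 2 from rfl, pow_add]
          exact Ideal.mul_mono_left hwN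
    calc P ^ (N + 1) = P ^ N * P := pow_succ _ _
      _ ≤ (Ideal.span {w ^ N} ⊔ P ^ (N + 1)) * P := Ideal.mul_mono_left ih
      _ = Ideal.span {w ^ N} * P ⊔ P ^ (N + 1 + 1) := by rw [Ideal.sup_mul, ← pow_succ]
      _ ≤ _ := sup_le a1 le_sup_right

theorem fill (P : Ideal B) [P.IsPrime] (hP : P ≠ ⊥) {x : B} {φ : ℤ[X]} (h1 : aeval x φ ∈ P)
    (h2 : aeval x φ ∉ P ^ 2) (h3 : ∀ c : B, ∃ h : ℤ[X], c - aeval x h ∈ P) (N : ℕ) (b : B) :
    ∃ g : ℤ[X], b - aeval x g ∈ P ^ N := by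
  induction N with
  | zero => exact ⟨0, by simp⟩
  | succ N ih =>
    obtain ⟨g, hg⟩ := ih
    obtain ⟨c, p, hp, e⟩ := Ideal.mem_span_singleton_sup.mp (pow_le P hP h1 h2 N hg)
    obtain ⟨h, hh⟩ := h3 c
    refine ⟨g + φ ^ N * h, ?_⟩
    have e2 : b - aeval x (g + φ ^ N * h) = aeval x φ ^ N * (c - aeval x h) + p := by
      rw [map_add, map_mul, map_pow]
      linear_combination -e
    rw [e2]
    refine Ideal.add_mem _ ?_ hp
    rw [pow_succ]
    exact Ideal.mul_mem_mul (Ideal.pow_mem_pow h1 N) hh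

omit [IsDedekindDomain B] in
theorem shift (P : Ideal B) {q : ℕ} (hq : (q : B) ∈ P) (x : B) {π : B} (hπ : π ∈ P) :
    ((x + π) ^ q - (x + π)) - (x ^ q - x) + π ∈ P ^ 2 := by
  obtain ⟨k, hk⟩ := sq_dvd_add_pow_sub_sub π x q
  have e : ((x + π) ^ q - (x + π)) - (x ^ q - x) + π = π ^ 2 * k + x ^ (q - 1) * (π * q) := by
    linear_combination hk
  rw [e]
  refine Ideal.add_mem _ (Ideal.mul_mem_right _ _ (Ideal.pow_mem_pow hπ 2))
    (Ideal.mul_mem_left _ _ ?_)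
  rw [pow_two]
  exact Ideal.mul_mem_mul hπ hq

end GenP

theorem p_Gen : S_Gen := by
  intro L _ _ P Q hP hQ
  classical
  have hP0 : P ≠ ⊥ := (P.bot_lt_of_maximal (RingOfIntegers.not_isField L)).ne'
  haveI : Finite (𝓞 L ⧸ P) := P.finiteQuotientOfFreeOfNeBot hP0
  letI : Fintype (𝓞 L ⧸ P) := Fintype.ofFinite _
  letI : Field (𝓞 L ⧸ P) := Ideal.Quotient.field P
  set q := Fintype.card (𝓞 L ⧸ P) with hq
  have hφ : ∀ x : 𝓞 L, x ^ q - x ∈ P := fun x => by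
    rw [← Ideal.Quotient.eq_zero_iff_mem, map_sub, map_pow, FiniteField.pow_card, sub_self]
  have hqP : (q : 𝓞 L) ∈ P := by
    rw [← Ideal.Quotient.eq_zero_iff_mem, map_natCast]
    exact FiniteField.cast_card_eq_zero _
  obtain ⟨γ, hγ⟩ := IsCyclic.exists_monoid_generator (α := (𝓞 L ⧸ P)ˣ)
  obtain ⟨x₀, hx₀⟩ := Ideal.Quotient.mk_surjective (γ : 𝓞 L ⧸ P)
  obtain ⟨π, hπ, hπ2⟩ := Ideal.exists_mem_pow_notMem_pow_succ P hP0 hP.ne_top 1
  rw [pow_one] at hπ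
  obtain ⟨x₁, e₁, h₁⟩ : ∃ x₁ : 𝓞 L, Ideal.Quotient.mk P x₁ = γ ∧ x₁ ^ q - x₁ ∉ P ^ 2 := by
    by_cases h : x₀ ^ q - x₀ ∈ P ^ 2
    · refine ⟨x₀ + π, by rw [map_add, Ideal.Quotient.eq_zero_iff_mem.mpr hπ, add_zero, hx₀],
        fun h' => hπ2 ?_⟩
      have := GenP.shift P hqP x₀ hπ
      exact (Ideal.add_mem_iff_right _ (Ideal.sub_mem _ h' h)).mp this
    · exact ⟨x₀, hx₀, h⟩
  have hc : IsCoprime (P ^ 2) (∏ I ∈ Q, I) := by
    refine IsCoprime.pow_left (IsCoprime.prod_right fun I hI => ?_)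
    haveI := (hQ I hI).1
    exact Ideal.isCoprime_of_isMaximal (hQ I hI).2.symm
  obtain ⟨a, ha, b, hb, hab⟩ := Ideal.isCoprime_iff_exists.mp hc
  have hx : x₁ * b - x₁ ∈ P ^ 2 := by
    have : x₁ * b - x₁ = -x₁ * a := by linear_combination x₁ * hab
    rw [this]
    exact Ideal.mul_mem_left _ _ ha
  have ex : Ideal.Quotient.mk P (x₁ * b) = γ := by
    rw [← e₁, Ideal.Quotient.eq]
    exact Ideal.pow_le_self two_ne_zero hx
  refine ⟨x₁ * b, fun h => γ.ne_zero ?_, fun I hI => ?_, ?_⟩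
  · rw [← ex]; exact Ideal.Quotient.eq_zero_iff_mem.mpr h
  · exact Ideal.mul_mem_left _ _ (Ideal.le_of_dvd (dvd_prod_of_mem (fun I => I) hI) hb)
  · refine GenP.fill P hP0 (φ := X ^ q - X) (by simpa using hφ _) (fun h => h₁ ?_) fun c => ?_
    · have h' : (x₁ * b) ^ q - x₁ * b ∈ P ^ 2 := by simpa using h
      obtain ⟨k, hk⟩ := sub_dvd_pow_sub_pow (x₁ * b) x₁ q
      have e : x₁ ^ q - x₁ = ((x₁ * b) ^ q - x₁ * b) + (x₁ * b - x₁) * (1 - k) := by
        linear_combination -hk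
      rw [e]
      exact Ideal.add_mem _ h' (Ideal.mul_mem_right _ _ hx)
    · by_cases h0 : Ideal.Quotient.mk P c = 0
      · exact ⟨0, by simpa using Ideal.Quotient.eq_zero_iff_mem.mp h0⟩
      · obtain ⟨i, hi⟩ := hγ (Units.mk0 _ h0)
        refine ⟨X ^ i, ?_⟩
        rw [← Ideal.Quotient.eq, map_pow, aeval_X, map_pow, ex, ← Units.val_pow_eq_pow_val]
        simp only at hi
        rw [hi, Units.val_mk0]

end Pool.Agent.P.MP_44bffd_co.LS
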