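import Pool.Agent.P.MP_44bffd_co.LS.Defs

/-! A dense unit distance graph from a group of plane vectors. -/

namespace Pool.Agent.P.MP_44bffd_co.LS

open Finset
open scoped Classical

namespace GraphP

theorem two_mul_lt {J : ℕ} (h : 3 ≤ J) : 2 * J + 1 ≤ 2 ^ J := by
  induction J, h using Nat.le_induction with
  | base => norm_num
  | succ n _ ih => rw [pow_succ]; omega

theorem size_le {N R J j : ℕ} (hJ : 4 ≤ J) (hR : 2 * R ≤ 2 ^ J) (hj : j ≤ J) :
    (4 * (j * R) + 1) ^ (2 * N) ≤ 2 ^ (4 * N * J) := by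
  have h1 := two_mul_lt (J := J) (by omega)
  have h2 : 1 ≤ 2 ^ J := Nat.one_le_two_pow
  have h3 : j * (2 * R) ≤ J * 2 ^ J := Nat.mul_le_mul hj hR
  have h4 : (2 * J + 1) * 2 ^ J ≤ 2 ^ J * 2 ^ J := Nat.mul_le_mul_right _ h1
  have h5 : 4 * (j * R) + 1 ≤ 2 ^ J * 2 ^ J := by nlinarith
  calc (4 * (j * R) + 1) ^ (2 * N) ≤ (2 ^ J * 2 ^ J) ^ (2 * N) := Nat.pow_le_pow_left h5 _
    _ = 2 ^ (4 * N * J) := by rw [← pow_add, ← pow_mul]; congr 1; ring

theorem slow {a : ℕ → ℕ} {c J : ℕ} (h0 : 1 ≤ a 0) (hJ : 1 ≤ J) (h1 : a J ≤ c ^ J) :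
    ∃ j < J, a (j + 1) ≤ c * a j := by
  by_contra hn
  push Not at hn
  have key : ∀ j ≤ J, c ^ j ≤ a j := by
    intro j
    induction j with
    | zero => intro _; simpa using h0
    | succ j ih =>
      intro hj
      have := hn j (by omega)
      have h2 : c * c ^ j ≤ c * a j := Nat.mul_le_mul_left _ (ih (by omega))
      rw [pow_succ']
      omega
  obtain ⟨J', rfl⟩ : ∃ J', J = J' + 1 := ⟨J - 1, by omega⟩
  have h2 := hn J' (by omega)
  have h3 : c * c ^ J' ≤ c * a J' := Nat.mul_le_mul_left _ (key J' (by omega))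
  rw [pow_succ'] at h1
  omega

theorem le_deg {V : Type} (G : UG V) (x : V) (U : Finset V) (φ : V → V) (hi : Set.InjOn φ U)
    (h : ∀ u ∈ U, φ u ∈ G.s ∧ G.adj x (φ u)) : U.card ≤ G.deg x := by
  unfold UG.deg UG.cnt
  refine card_le_card_of_injOn φ (fun u hu => ?_) hi
  simpa using h u hu

end GraphP

open GraphP in
theorem p_Graph : S_Graph := by
  rintro N R n J ⟨Λ, _, f, L, B, U, hf, hB0, hBm, hBu, hBc, hU1, hUU, hL, hn⟩ hn1 hJ hR
  obtain ⟨z, hz⟩ : U.Nonempty := card_pos.1 (by omega)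
  have hfin : ∀ j, (B j).Finite := fun j => by
    by_contra h
    obtain ⟨t, ht, hc⟩ := Set.Infinite.exists_subset_card_eq h ((4 * (j * R) + 1) ^ (2 * N) + 1)
    have := hBc j t ht
    omega
  obtain ⟨P, hP⟩ : ∃ P : ℕ → Finset Λ, ∀ j x, x ∈ P j ↔ x ∈ B j ∧ (x ∈ L ∨ x - z ∈ L) :=
    ⟨fun j => (hfin j).toFinset.filter fun x => x ∈ L ∨ x - z ∈ L, fun j x => by simp⟩
  have hsz : ∀ j ≤ J, (P j).card ≤ 2 ^ (4 * N * J) := fun j hj =>
    (hBc j (P j) fun x hx => ((hP j x).1 hx).1).trans (size_le hJ hR hj)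
  have hm : ∀ j, P j ⊆ P (j + 1) := fun j x hx =>
    (hP _ x).2 ⟨hBm j ((hP j x).1 hx).1, ((hP j x).1 hx).2⟩
  have h0 : ∀ j, (0 : Λ) ∈ P j := fun j => by
    induction j with
    | zero => exact (hP 0 0).2 ⟨hB0, Or.inl L.zero_mem⟩
    | succ j ih => exact hm j ih
  obtain ⟨j, hj, hjc⟩ := slow (a := fun j => (P j).card) (c := 2 ^ (4 * N)) (J := J)
    (card_pos.2 ⟨0, h0 0⟩) (by omega) (by rw [← pow_mul]; exact hsz J le_rfl)
  have hd : ∀ a b : Λ, dist (f a) (f b) = ‖f (a - b)‖ := fun a b => by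
    rw [dist_eq_norm, map_sub]
  let G : UG Λ :=
    { s := P (j + 1)
      adj := fun a b => dist (f a) (f b) = 1
      col := fun a => decide (a ∈ L)
      real := ⟨f, hf.injOn, fun _ _ _ _ => Iff.rfl⟩
      bip := by
        intro a ha b hb h hc
        rw [hd] at h
        refine hL _ ?_ h
        have hab : a ∈ L ↔ b ∈ L := by simpa using hc
        by_cases h1 : a ∈ L
        · exact L.sub_mem h1 (hab.1 h1)
        · have h2 := ((hP _ a).1 ha).2.resolve_left h1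
          have h3 := ((hP _ b).1 hb).2.resolve_left fun h => h1 (hab.2 h)
          simpa using L.sub_mem h2 h3
      ne := ⟨0, h0 _⟩ }
  have hdeg : ∀ x ∈ P j, n ≤ G.deg x := by
    intro x hx
    obtain ⟨hx1, hx2⟩ := (hP j x).1 hx
    refine hn.trans ?_
    rcases hx2 with h | h
    · refine le_deg G x U (fun u => x + u) (fun u _ u' _ e => add_left_cancel e) fun u hu =>
        ⟨(hP _ _).2 ⟨(hBu j x hx1 u hu).1, Or.inr ?_⟩, ?_⟩
      · rw [add_sub_assoc]; exact L.add_mem h (hUU u hu z hz)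
      · show dist (f x) (f (x + u)) = 1
        rw [dist_comm, hd, add_sub_cancel_left]; exact hU1 u hu
    · refine le_deg G x U (fun u => x - u) (fun u _ u' _ e => sub_right_injective e) fun u hu =>
        ⟨(hP _ _).2 ⟨(hBu j x hx1 u hu).2, Or.inl ?_⟩, ?_⟩
      · simpa using L.sub_mem h (hUU u hu z hz)
      · show dist (f x) (f (x - u)) = 1
        rw [hd, sub_sub_cancel]; exact hU1 u hu
  refine ⟨Λ, G, hsz _ hj, ?_⟩
  have e1 : ((P (j + 1)).card : ℝ) ≤ 2 ^ (4 * N) * (P j).card := by exact_mod_cast hjc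
  calc (n : ℝ) / 2 ^ (4 * N) * (P (j + 1)).card
      ≤ (n : ℝ) / 2 ^ (4 * N) * (2 ^ (4 * N) * (P j).card) := by gcongr
    _ = ∑ _v ∈ P j, (n : ℝ) := by rw [sum_const, nsmul_eq_mul]; field_simp
    _ ≤ ∑ v ∈ P j, (G.deg v : ℝ) := sum_le_sum fun x hx => by exact_mod_cast hdeg x hx
    _ ≤ ∑ v ∈ P (j + 1), (G.deg v : ℝ) :=
      sum_le_sum_of_subset_of_nonneg (hm j) fun _ _ _ => Nat.cast_nonneg _

end Pool.Agent.P.MP_44bffd_co.LS
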