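import Pool.Agent.P.MP_44bffd_co.LS.Defs

/-! The iteration along the tower. -/

namespace Pool.Agent.P.MP_44bffd_co.LS

open Finset
open scoped Classical

namespace IterP

theorem pow_le (n p : ℕ) (hn : 0 < n) : (p + 1) ^ n ≤ n ^ n * 2 ^ p := by
  have h1 : p + 1 ≤ n * (p / n + 1) := Nat.lt_mul_div_succ p hn
  have h2 : p / n + 1 ≤ 2 ^ (p / n) := Nat.lt_two_pow_self
  calc (p + 1) ^ n ≤ (n * 2 ^ (p / n)) ^ n := Nat.pow_le_pow_left (h1.trans (by gcongr)) n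
    _ = n ^ n * 2 ^ (p / n * n) := by rw [mul_pow, ← pow_mul]
    _ ≤ _ := by gcongr; norm_num; exact Nat.div_mul_le_self p n

theorem tw_ge (j : ℕ) : 4 ≤ tw (j + 2) := by
  rw [tw_succ, tw_succ]
  have h1 : 1 ≤ tw j := by
    cases j with
    | zero => exact le_rfl
    | succ j => rw [tw_succ]; exact Nat.one_le_two_pow
  have h2 : 2 ^ 1 ≤ 2 ^ tw j := Nat.pow_le_pow_right (by norm_num) h1
  exact (by norm_num : 4 ≤ 2 ^ 2 ^ 1).trans (Nat.pow_le_pow_right (by norm_num) h2)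

theorem shift {d₀ d S T g g' : ℕ} {σ σ' : ℝ} (h : ∀ D, d₀ + S ≤ D → D ≤ d → Nr D σ g)
    (hT : ∀ D, Nr D σ g → Nr (D + T) σ' g') : ∀ D, d₀ + (S + T) ≤ D → D ≤ d → Nr D σ' g' := by
  intro D h1 h2
  have := hT (D - T) (h _ (by omega) (by omega))
  rwa [show D - T + T = D by omega] at this

theorem round (hR : S_Round) {c L K K₀ r P : ℕ} (hX : HX c (11 * L)) (hc : 1 ≤ c) (hK : 1 ≤ K)
    (h0 : K ≤ K₀) (hL : K₀ ≤ L) (hr : 1 ≤ r) (hr2 : 2 ^ r ≤ 2 * K)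
    (hP : 2 * (10 ^ 9 * c * L ^ 7) ≤ 2 ^ P) :
    ∃ T : ℕ, T ≤ 8 * L ^ 3 * 2 ^ K₀ ∧ ∀ D g : ℕ, Nr D (2 ^ K - 1) g →
      Nr (D + T) (2 ^ (8 * K / 2 ^ r + P) - 1) (2 * g + 11 * c * r ^ 2 * K) := by
  obtain ⟨T, h1, h2⟩ := hR c (11 * L) K r hX hc hK (by omega) hr hr2
  have hKL : K ≤ L := h0.trans hL
  refine ⟨T, h1.trans (by gcongr; norm_num), fun D g h => (h2 D g h).mono ?_ le_rfl⟩
  have a1 : 10 ^ 9 * c * K ^ 7 ≤ 10 ^ 9 * c * L ^ 7 := by gcongr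
  have a2 : 1 ≤ 10 ^ 9 * c * L ^ 7 := Nat.one_le_iff_ne_zero.2 (by
    have : 0 < L := by omega
    positivity)
  have a3 : 1 ≤ 2 ^ (8 * K / 2 ^ r) := Nat.one_le_two_pow
  have a4 : 10 ^ 9 * c * K ^ 7 * 2 ^ (8 * K / 2 ^ r) + 1 ≤ 2 ^ (8 * K / 2 ^ r + P) := by
    rw [pow_add]
    generalize 2 ^ (8 * K / 2 ^ r) = x at *
    generalize 10 ^ 9 * c * K ^ 7 = y at *
    generalize 10 ^ 9 * c * L ^ 7 = z at *
    generalize 2 ^ P = w at *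
    nlinarith [Nat.mul_le_mul_left x hP, Nat.mul_le_mul_left x a1, Nat.mul_le_mul a3 a2]
  have a5 : (((10 ^ 9 * c * K ^ 7 * 2 ^ (8 * K / 2 ^ r) + 1 : ℕ)) : ℝ) ≤
      ((2 ^ (8 * K / 2 ^ r + P) : ℕ) : ℝ) := by exact_mod_cast a4
  rw [Nat.cast_add, Nat.cast_one, Nat.cast_pow 2] at a5
  rw [le_sub_iff_add_le]
  exact a5

theorem log_r {K : ℕ} (hK : 1 ≤ K) :
    ∃ r, 1 ≤ r ∧ 2 ^ r ≤ 2 * K ∧ 8 * K / 2 ^ r ≤ 8 ∧ r ≤ K := by
  have h1 : 2 ^ Nat.log 2 (2 * K) ≤ 2 * K := Nat.pow_log_le_self 2 (by omega)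
  have h2 : 2 * K < 2 ^ (Nat.log 2 (2 * K) + 1) := Nat.lt_pow_succ_log_self (by norm_num) _
  have h3 : 1 ≤ Nat.log 2 (2 * K) := Nat.log_pos (by norm_num : 1 < 2) (by omega)
  generalize Nat.log 2 (2 * K) = r at *
  refine ⟨r, h3, h1, Nat.div_le_of_le_mul (by rw [pow_succ] at h2; omega), ?_⟩
  obtain ⟨q, rfl⟩ : ∃ q, r = q + 1 := ⟨r - 1, by omega⟩
  have : q < 2 ^ q := Nat.lt_two_pow_self
  rw [pow_succ] at h1
  omega

/-- The state after `j` rounds. -/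
def Good (c L K₀ P d₀ d j : ℕ) : Prop := ∃ K S g : ℕ, 1 ≤ K ∧ K ≤ K₀ ∧
  (K * tw (j + 2) ^ 2 ≤ 16 * L ∨ K ≤ 2 * P + 16) ∧ S ≤ j * (8 * L ^ 3 * 2 ^ K₀) ∧
  g + 704 * (c * L) ≤ 2 ^ j * (705 * (c * L)) ∧ ∀ D, d₀ + S ≤ D → D ≤ d → Nr D (2 ^ K - 1) g

theorem step (hR : S_Round) {c L K₀ P d₀ d j : ℕ} (hX : HX c (11 * L)) (hc : 1 ≤ c) (hL : K₀ ≤ L)
    (hP : 2 * (10 ^ 9 * c * L ^ 7) ≤ 2 ^ P) (hP1 : 1 ≤ P) (h : Good c L K₀ P d₀ d j) :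
    Good c L K₀ P d₀ d (j + 1) := by
  obtain ⟨K, S, g, h1, h2, h3, h4, h5, h6⟩ := h
  by_cases hs : K ≤ 2 * P + 16
  · refine ⟨K, S, g, h1, h2, Or.inr hs, h4.trans (by gcongr; omega), h5.trans ?_, h6⟩
    gcongr <;> omega
  have h3' := h3.resolve_right hs
  have hu := tw_ge j
  have e : tw (j + 1 + 2) = 2 ^ tw (j + 2) := tw_succ (j + 2)
  set u := tw (j + 2) with hudef
  have key : ∀ r, 1 ≤ r → 2 ^ r ≤ 2 * K → r ≤ 2 * u → 8 * K / 2 ^ r + P ≤ K →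
      ((8 * K / 2 ^ r + P) * (2 ^ u) ^ 2 ≤ 16 * L ∨ 8 * K / 2 ^ r + P ≤ 2 * P + 16) →
      Good c L K₀ P d₀ d (j + 1) := by
    intro r r1 r2 r3 r4 r5
    obtain ⟨T, t1, t2⟩ := round hR hX hc h1 h2 hL r1 r2 hP
    refine ⟨8 * K / 2 ^ r + P, S + T, 2 * g + 11 * c * r ^ 2 * K, le_add_left hP1, r4.trans h2,
      by rwa [e], by rw [add_mul]; omega, ?_, shift h6 (fun D => t2 D g)⟩
    have a : 11 * c * r ^ 2 * K ≤ 704 * (c * L) := by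
      calc 11 * c * r ^ 2 * K ≤ 11 * c * (2 * u) ^ 2 * K := by gcongr
        _ = 44 * c * (K * u ^ 2) := by ring
        _ ≤ 44 * c * (16 * L) := by gcongr
        _ = _ := by ring
    rw [pow_succ 2 j, mul_comm (2 ^ j) 2, mul_assoc 2]
    omega
  by_cases hb : 2 ^ (2 * u) ≤ 2 * K
  · have a1 : 8 * K / 2 ^ (2 * u) * 2 ^ (2 * u) ≤ 8 * K := Nat.div_mul_le_self _ _
    have a2 : 2 ^ 8 ≤ 2 ^ (2 * u) := Nat.pow_le_pow_right (by norm_num) (by omega)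
    have a3 : 8 * K / 2 ^ (2 * u) * 2 ^ 8 ≤ 8 * K := (Nat.mul_le_mul_left _ a2).trans a1
    refine key (2 * u) (by omega) hb le_rfl (by omega) ?_
    by_cases hq : 8 * K / 2 ^ (2 * u) ≤ P
    · exact Or.inr (by omega)
    · left
      rw [← pow_mul, mul_comm u 2]
      calc _ ≤ (2 * (8 * K / 2 ^ (2 * u))) * 2 ^ (2 * u) := by gcongr; omega
        _ = 2 * (8 * K / 2 ^ (2 * u) * 2 ^ (2 * u)) := by ring
        _ ≤ _ := by omega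
  · obtain ⟨r, r1, r2, r3, -⟩ := log_r h1
    refine key r r1 r2 ?_ (by omega) (Or.inr (by omega))
    have : 2 ^ r < 2 ^ (2 * u) := by omega
    exact ((Nat.pow_lt_pow_iff_right (by norm_num)).1 this).le

theorem first {c L d D y K₀ : ℕ} (hX : HX c (11 * L)) (hc : 1 ≤ c) (hL : 1 ≤ L) (hd : d ≤ 2 ^ L)
    (hD : D ≤ d) (hD' : 10 ^ 4 * (5 * (c * L)) ≤ D) (hy : 980 * (c * L) * d < (y + 1) ^ 2)
    (hK : y + 2 ≤ 2 ^ K₀) : Nr D (2 ^ K₀ - 1) (c * L) := by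
  have hm : 1 ≤ c * L := Nat.mul_le_mul hc hL
  have hm2 : L ≤ c * L := Nat.le_mul_of_pos_left _ hc
  obtain ⟨Γ, hΓ⟩ : ∃ Γ : ℝ, Γ = ((5 * (c * L) : ℕ) : ℝ) := ⟨_, rfl⟩
  have g1 : 1 ≤ Γ := by rw [hΓ]; exact_mod_cast (by omega)
  have g2 : 10 ^ 4 * Γ ≤ D := by rw [hΓ]; exact_mod_cast hD'
  have h1 := hX L D Γ hL (by omega) (hD.trans hd) (by rw [hΓ]; exact_mod_cast (by omega)) g2
  have h2 := chain_step (κ := L + 1) (σ := D) h1 (by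
      apply lt_of_pow_lt_pow_left₀ 2 (by positivity)
      rw [mul_pow, Real.sq_sqrt (by positivity)]
      nlinarith)
    (by have := Nat.one_le_two_pow (n := L); rw [pow_succ]; omega)
    (by rw [hΓ]; exact_mod_cast (by omega)) (by linarith) (nr_point D)
  refine h2.mono ?_ (by omega)
  have q1 : 1 ≤ Real.sqrt Γ := Real.one_le_sqrt.2 g1
  have q2 : 14 * Real.sqrt Γ * Real.sqrt D ≤ y + 1 := by
    apply le_of_pow_le_pow_left₀ two_ne_zero (by positivity)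
    rw [mul_pow, mul_pow, Real.sq_sqrt (by positivity), Real.sq_sqrt (by positivity), hΓ]
    have : 14 ^ 2 * (5 * (c * L)) * D ≤ (y + 1) ^ 2 := by
      calc 14 ^ 2 * (5 * (c * L)) * D = 980 * (c * L) * D := by ring
        _ ≤ 980 * (c * L) * d := by gcongr
        _ ≤ _ := hy.le
    exact_mod_cast this
  have q3 : (y : ℝ) + 2 ≤ 2 ^ K₀ := by exact_mod_cast hK
  have q4 : (12 * Real.sqrt Γ + 2) * Real.sqrt D ≤ 14 * Real.sqrt Γ * Real.sqrt D := by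
    gcongr; linarith
  linarith

theorem small {c L k d : ℕ} (hL : 1 ≤ L) (hd : 2 ^ L ≤ 2 * d)
    (hs : d ≤ 10 ^ 8 * (k + 1) ^ 2 * c * L ^ 7) :
    4 * d + 1 ≤ (10 ^ 40) ^ (k + 1) * c ^ 2 * L := by
  have d0 : 0 < d := by have := Nat.one_le_two_pow (n := L); omega
  have h1 : L ^ 14 ≤ 14 ^ 14 * (2 * d) :=
    (Nat.pow_le_pow_left (Nat.le_succ L) 14).trans ((pow_le 14 L (by norm_num)).trans (by gcongr))
  have h2 : d * d ≤ (10 ^ 16 * (k + 1) ^ 4 * c ^ 2 * (14 ^ 14 * 2)) * d := by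
    calc d * d ≤ (10 ^ 8 * (k + 1) ^ 2 * c * L ^ 7) * (10 ^ 8 * (k + 1) ^ 2 * c * L ^ 7) := by gcongr
      _ = 10 ^ 16 * (k + 1) ^ 4 * c ^ 2 * L ^ 14 := by ring
      _ ≤ 10 ^ 16 * (k + 1) ^ 4 * c ^ 2 * (14 ^ 14 * (2 * d)) := by gcongr
      _ = _ := by ring
  have h3 := Nat.le_of_mul_le_mul_right h2 d0
  have h4 : (k + 1) ^ 4 ≤ 16 ^ k := by
    have : k + 1 ≤ 2 ^ k := Nat.lt_two_pow_self
    calc (k + 1) ^ 4 ≤ (2 ^ k) ^ 4 := by gcongr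
      _ = 16 ^ k := by rw [← pow_mul, mul_comm, pow_mul]; norm_num
  have h5 : 16 ^ k ≤ (10 ^ 40) ^ k := Nat.pow_le_pow_left (by norm_num) k
  calc 4 * d + 1 ≤ 5 * d := by omega
    _ ≤ 5 * (10 ^ 16 * (10 ^ 40) ^ k * c ^ 2 * (14 ^ 14 * 2)) := by
        have h6 := h4.trans h5
        generalize (10 ^ 40) ^ k = Y at h6 ⊢
        exact Nat.mul_le_mul_left _ (h3.trans (by gcongr))
    _ = (5 * 10 ^ 16 * (14 ^ 14 * 2)) * (10 ^ 40) ^ k * c ^ 2 * 1 := by ring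
    _ ≤ 10 ^ 40 * (10 ^ 40) ^ k * c ^ 2 * L := by gcongr; norm_num
    _ = _ := by rw [pow_succ' (10 ^ 40) k]

end IterP

open IterP

theorem p_Iter (hR : S_Round) : S_Iter := by
  refine ⟨10 ^ 40, fun c L k d hX hc hL hd hd2 hk => ?_⟩
  by_cases hs : d ≤ 10 ^ 8 * (k + 1) ^ 2 * c * L ^ 7
  · obtain ⟨j, j1, j2⟩ := exists_pow_between (2 * d)
    obtain ⟨V, G, h1, h2⟩ := finish (s := d) (nr_point d) (by linarith) j1
    have := small hL hd2 hs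
    exact ⟨V, G, h1.trans (Nat.pow_le_pow_right (by norm_num) (by omega)), h2⟩
  push Not at hs
  have hm : 1 ≤ c * L := Nat.mul_le_mul hc hL
  have hk1 : 1 ≤ (k + 1) ^ 2 := Nat.one_le_pow _ _ (by omega)
  have hL7 : L ≤ L ^ 7 := Nat.le_self_pow (by norm_num) L
  have hbig : 10 ^ 8 * (c * L) ≤ d := by
    calc 10 ^ 8 * (c * L) = 10 ^ 8 * 1 * c * L := by ring
      _ ≤ 10 ^ 8 * (k + 1) ^ 2 * c * L ^ 7 := by gcongr
      _ ≤ d := hs.le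
  obtain ⟨y, y1, y2⟩ : ∃ y, y ^ 2 ≤ 980 * (c * L) * d ∧ 980 * (c * L) * d < (y + 1) ^ 2 :=
    ⟨Nat.sqrt _, Nat.sqrt_le' _, Nat.lt_succ_sqrt' _⟩
  have y0 : 1 ≤ y := by
    by_contra h
    have : y = 0 := by omega
    subst this
    have : 980 * 1 * 1 ≤ 980 * (c * L) * d := by gcongr; omega
    omega
  obtain ⟨K₀, k1, k2⟩ := exists_pow_between (y + 2)
  have sh : 112 * (k + 1) * L ^ 3 * y ≤ d := by
    apply le_of_pow_le_pow_left₀ two_ne_zero (by positivity)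
    calc (112 * (k + 1) * L ^ 3 * y) ^ 2 = 112 ^ 2 * (k + 1) ^ 2 * L ^ 6 * y ^ 2 := by ring
      _ ≤ 112 ^ 2 * (k + 1) ^ 2 * L ^ 6 * (980 * (c * L) * d) := by gcongr
      _ = (112 ^ 2 * 980 * (k + 1) ^ 2 * c * L ^ 7) * d := by ring
      _ ≤ (10 ^ 8 * (k + 1) ^ 2 * c * L ^ 7) * d := by gcongr; norm_num
      _ ≤ d * d := by gcongr
      _ = d ^ 2 := by ring
  have sh2 : 2 * ((k + 1) * (8 * L ^ 3 * 2 ^ K₀)) ≤ d := by
    calc 2 * ((k + 1) * (8 * L ^ 3 * 2 ^ K₀)) ≤ 2 * ((k + 1) * (8 * L ^ 3 * (7 * y))) := by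
          gcongr; omega
      _ = 112 * (k + 1) * L ^ 3 * y := by ring
      _ ≤ d := sh
  have hK0 : 1 ≤ K₀ := by
    by_contra h
    have : K₀ = 0 := by omega
    subst this
    omega
  have hKL : K₀ ≤ L := by
    have a1 : 1 * (1 * 2 ^ K₀) ≤ (k + 1) * (8 * L ^ 3 * 2 ^ K₀) := by
      have : 1 ≤ L ^ 3 := Nat.one_le_pow _ _ hL
      gcongr <;> omega
    exact (Nat.pow_le_pow_iff_right (by norm_num : 1 < 2)).1 (by omega)
  obtain ⟨p, p1, p2⟩ := exists_pow_between (c * L)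
  have hP : 2 * (10 ^ 9 * c * L ^ 7) ≤ 2 ^ (7 * p + 31) := by
    have a1 : c ≤ c ^ 7 := Nat.le_self_pow (by norm_num) c
    calc 2 * (10 ^ 9 * c * L ^ 7) ≤ 2 * (10 ^ 9 * c ^ 7 * L ^ 7) := by gcongr
      _ = (2 * 10 ^ 9) * (c * L) ^ 7 := by ring
      _ ≤ 2 ^ 31 * (2 ^ p) ^ 7 := by gcongr; norm_num
      _ = _ := by ring
  have good : ∀ j, Good c L K₀ (7 * p + 31) (d / 2) d j := by
    intro j
    induction j with
    | zero =>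
      refine ⟨K₀, 0, c * L, hK0, le_rfl, Or.inl ?_, by simp, by omega,
        fun D h1 h2 => first hX hc hL hd h2 (by omega) y2 k1⟩
      have : tw (0 + 2) = 4 := by rw [tw_succ, tw_succ, tw_zero]; norm_num
      rw [this]; omega
    | succ j ih => exact step hR hX hc hKL hP (by omega) ih
  obtain ⟨K, S, g, h1, h2, h3, h4, h5, h6⟩ := good k
  have hK : K ≤ 78 * (p + 1) := by
    rcases h3 with h3 | h3
    · exfalso
      have L2 : 2 ≤ L := by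
        by_contra h
        have : L = 1 := by omega
        subst this
        omega
      have a1 : L + 2 ≤ 2 ^ L := by
        obtain ⟨q, rfl⟩ : ∃ q, L = q + 2 := ⟨L - 2, by omega⟩
        have : q < 2 ^ q := Nat.lt_two_pow_self
        rw [pow_add]; omega
      have a2 : 2 ^ L ≤ 2 ^ tw k := Nat.pow_le_pow_right (by norm_num) hk
      have a3 : 2 ^ (L + 2) ≤ tw (k + 2) := by
        rw [tw_succ, tw_succ]
        exact Nat.pow_le_pow_right (by norm_num) (a1.trans a2)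
      have a4 : 4 * (L + 2) ≤ tw (k + 2) := by rw [pow_add] at a3; omega
      have a5 : 1 * (4 * (L + 2)) ^ 2 ≤ K * tw (k + 2) ^ 2 := by gcongr
      nlinarith
    · omega
  obtain ⟨r, r1, r2, r3, r4⟩ := log_r h1
  obtain ⟨T, t1, t2⟩ := hR c (11 * L) K r hX hc h1 (by omega) r1 r2
  have t3 : T ≤ 8 * L ^ 3 * 2 ^ K₀ := t1.trans (by
    have : K ≤ L := h2.trans hKL
    gcongr; norm_num)
  have h7 := shift h6 (fun D => t2 D g) d (by rw [add_mul] at sh2; omega) le_rfl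
  obtain ⟨s, hsd⟩ : ∃ s, s = 10 ^ 9 * c * K ^ 7 * 2 ^ (8 * K / 2 ^ r) := ⟨_, rfl⟩
  rw [← hsd] at h7
  obtain ⟨j, j1, j2⟩ := exists_pow_between (2 * s)
  obtain ⟨V, G, g1, g2⟩ := finish (s := s) h7 (by linarith) j1
  refine ⟨V, G, g1.trans (Nat.pow_le_pow_right (by norm_num) ?_), g2⟩
  obtain ⟨Z, hZ⟩ : ∃ Z, Z = c ^ 2 * L := ⟨_, rfl⟩
  have z1 : c * L ≤ Z := by
    rw [hZ]; exact Nat.mul_le_mul_right _ (Nat.le_self_pow (by norm_num) c)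
  have b1 : c * K ^ 7 ≤ 10 ^ 20 * Z := by
    calc c * K ^ 7 ≤ c * (78 * (p + 1)) ^ 7 := by gcongr
      _ = c * (78 ^ 7 * (p + 1) ^ 7) := by rw [mul_pow]
      _ ≤ c * (78 ^ 7 * (7 ^ 7 * 2 ^ p)) := by gcongr; exact pow_le 7 p (by norm_num)
      _ ≤ c * (78 ^ 7 * (7 ^ 7 * (3 * (c * L)))) := by gcongr; omega
      _ = (78 ^ 7 * 7 ^ 7 * 3) * Z := by rw [hZ]; ring
      _ ≤ _ := by gcongr; norm_num
  have b2 : s ≤ 10 ^ 32 * Z := by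
    calc s ≤ 10 ^ 9 * c * K ^ 7 * 2 ^ 8 := by rw [hsd]; gcongr; norm_num
      _ = (10 ^ 9 * 2 ^ 8) * (c * K ^ 7) := by ring
      _ ≤ (10 ^ 9 * 2 ^ 8) * (10 ^ 20 * Z) := by gcongr
      _ ≤ _ := by rw [← mul_assoc]; gcongr; norm_num
  have b3 : 11 * c * r ^ 2 * K ≤ 11 * (10 ^ 20 * Z) := by
    calc 11 * c * r ^ 2 * K ≤ 11 * c * K ^ 2 * K := by gcongr
      _ = 11 * (c * K ^ 3) := by ring
      _ ≤ 11 * (c * K ^ 7) := by gcongr; omega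
      _ ≤ _ := by gcongr
  have b4 : g ≤ 705 * (2 ^ k * Z) := by
    calc g ≤ 2 ^ k * (705 * (c * L)) := by omega
      _ ≤ 2 ^ k * (705 * Z) := by gcongr
      _ = _ := by ring
  have b5 : Z ≤ 2 ^ k * Z := Nat.le_mul_of_pos_left _ (by positivity)
  have b6 : 2 ^ k * Z ≤ (10 ^ 40) ^ k * Z := by gcongr; norm_num
  rw [mul_assoc _ (c ^ 2) L, ← hZ, pow_succ' (10 ^ 40) k, mul_assoc (10 ^ 40)]
  generalize (10 ^ 40) ^ k * Z = Y at *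
  omega

end Pool.Agent.P.MP_44bffd_co.LS
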