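import Pool.Agent.P.MP_44bffd_co.LS.Defs

/-! Degree of a multiquadratic extension. -/

namespace Pool.Agent.P.MP_44bffd_co.LS

open Finset IntermediateField Polynomial

namespace KumP

variable {K E : Type} [Field K] [Field E] [Algebra K E]

theorem not_mem {u : K} {y : E} (h : y ^ 2 = algebraMap K E u) (hu : ¬ IsSquare u) (c : K) :
    algebraMap K E c ≠ y := by
  intro hc
  apply hu
  refine ⟨c, ?_⟩
  apply (algebraMap K E).injective
  rw [← h, ← hc, map_mul, sq]

theorem integral {u : K} {y : E} (h : y ^ 2 = algebraMap K E u) : IsIntegral K y := by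
  refine ⟨X ^ 2 - C u, monic_X_pow_sub_C u (by norm_num), ?_⟩
  simp [h]

theorem minpoly_eq {u : K} {y : E} (h : y ^ 2 = algebraMap K E u) (hu : ¬ IsSquare u) :
    (minpoly K y).natDegree = 2 := by
  have h1 : (minpoly K y).natDegree ≤ 2 := by
    have hm : (X ^ 2 - C u : K[X]).Monic := monic_X_pow_sub_C u (by norm_num)
    have := minpoly.min K y hm (by simp [h])
    have h2 := natDegree_le_natDegree this
    rwa [natDegree_X_pow_sub_C] at h2
  have h2 : 2 ≤ (minpoly K y).natDegree := by
    rw [minpoly.two_le_natDegree_iff (integral h)]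
    rintro ⟨c, hc⟩
    exact not_mem h hu c hc
  omega

theorem rank_two {u : K} {y : E} (h : y ^ 2 = algebraMap K E u) (hu : ¬ IsSquare u) :
    Module.finrank K K⟮y⟯ = 2 := by
  rw [adjoin.finrank (integral h), minpoly_eq h hu]

theorem form {u : K} {y : E} (h : y ^ 2 = algebraMap K E u) {z : E} (hz : z ∈ K⟮y⟯) :
    ∃ a b : K, z = algebraMap K E a + algebraMap K E b * y := by
  have hz' : z ∈ Algebra.adjoin K {y} := by
    rw [← adjoin_simple_toSubalgebra_of_isAlgebraic (integral h).isAlgebraic]
    exact hz
  induction hz' using Algebra.adjoin_induction with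
  | mem x hx =>
    rw [Set.mem_singleton_iff] at hx
    exact ⟨0, 1, by simp [hx]⟩
  | algebraMap r => exact ⟨r, 0, by simp⟩
  | add x w hx hw ihx ihw =>
    obtain ⟨a, b, rfl⟩ := ihx (algebra_adjoin_le_adjoin K _ hx)
    obtain ⟨c, d, rfl⟩ := ihw (algebra_adjoin_le_adjoin K _ hw)
    exact ⟨a + c, b + d, by simp only [map_add]; ring⟩
  | mul x w hx hw ihx ihw =>
    obtain ⟨a, b, rfl⟩ := ihx (algebra_adjoin_le_adjoin K _ hx)
    obtain ⟨c, d, rfl⟩ := ihw (algebra_adjoin_le_adjoin K _ hw)
    refine ⟨a * c + b * d * u, a * d + b * c, ?_⟩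
    simp only [map_add, map_mul]
    rw [← h]
    ring

theorem sq_desc [CharZero K] {u v : K} {y : E} (h : y ^ 2 = algebraMap K E u) (hu : ¬ IsSquare u)
    (hv : IsSquare (algebraMap K K⟮y⟯ v)) : IsSquare v ∨ IsSquare (u * v) := by
  obtain ⟨z, hz⟩ := hv
  obtain ⟨a, b, hab⟩ := form h z.2
  have h1 : algebraMap K E v = (z : E) * (z : E) := by
    have := congrArg (fun t : K⟮y⟯ => (t : E)) hz
    simpa using this
  have h2 : algebraMap K E (v - a ^ 2 - b ^ 2 * u) = algebraMap K E (2 * a * b) * y := by
    simp only [map_sub, map_mul, map_pow, map_ofNat]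
    rw [h1, hab, ← h]
    ring
  by_cases hc : 2 * a * b = 0
  · rw [hc, map_zero, zero_mul, map_eq_zero] at h2
    have h3 : a = 0 ∨ b = 0 := by
      rcases mul_eq_zero.1 hc with h4 | h4
      · left
        rcases mul_eq_zero.1 h4 with h5 | h5
        · norm_num at h5
        · exact h5
      · exact Or.inr h4
    rcases h3 with h3 | h3
    · right
      refine ⟨b * u, ?_⟩
      rw [h3] at h2
      linear_combination u * h2
    · left
      refine ⟨a, ?_⟩
      rw [h3] at h2
      linear_combination h2
  · exfalso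
    apply not_mem h hu ((v - a ^ 2 - b ^ 2 * u) / (2 * a * b))
    rw [map_div₀, h2]
    have : algebraMap K E (2 * a * b) ≠ 0 := by
      rwa [Ne, map_eq_zero]
    field_simp

end KumP

theorem p_Kum : S_Kum := by
  intro K E _ _ _ _ m
  induction m generalizing K with
  | zero =>
    intro u y _ _
    have : Set.range y = ∅ := Set.range_eq_empty y
    rw [this, adjoin_empty, IntermediateField.finrank_bot, pow_zero]
  | succ m ih =>
    intro u y hy hS
    have h0 : ¬ IsSquare (u 0) := by
      have := hS {0} (singleton_nonempty 0)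
      simpa using this
    have hr := KumP.rank_two (hy 0) h0
    have : CharZero K⟮y 0⟯ := algebraRat.charZero _
    have h1 := ih K⟮y 0⟯ (fun i => algebraMap K K⟮y 0⟯ (u i.succ)) (fun i => y i.succ)
      (fun i => by rw [hy i.succ]; rfl) (by
        intro S hne hsq
        rw [← map_prod] at hsq
        have hinj : ∏ i ∈ S, u i.succ = ∏ i ∈ S.map (Fin.succEmb m), u i := by
          rw [prod_map]; rfl
        rcases KumP.sq_desc (hy 0) h0 hsq with h2 | h2
        · rw [hinj] at h2
          exact hS _ (by simpa using hne) h2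
        · rw [hinj] at h2
          have hn : (0 : Fin (m + 1)) ∉ S.map (Fin.succEmb m) := by
            simp [Fin.succ_ne_zero]
          rw [← prod_insert hn] at h2
          exact hS _ (insert_nonempty _ _) h2)
    have h2 : adjoin K (Set.range y) =
        (adjoin K⟮y 0⟯ (Set.range fun i : Fin m => y i.succ)).restrictScalars K := by
      rw [adjoin_adjoin_left, Fin.range_fin_succ]
      rfl
    rw [h2]
    have h3 := Module.finrank_mul_finrank K K⟮y 0⟯
      (adjoin K⟮y 0⟯ (Set.range fun i : Fin m => y i.succ))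
    rw [hr, h1] at h3
    rw [pow_succ']
    exact h3.symm

end Pool.Agent.P.MP_44bffd_co.LS
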