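import Pool.Agent.P.MP_44bffd_co.LS.Defs

/-! The one-sided link for labelled graphs. -/

namespace Pool.Agent.P.MP_44bffd_co.LS

open Finset
open scoped Classical

namespace LinkP

lemma sub_cnt {V : Type} (G : UG V) (p : V → Prop) (h : ∃ v ∈ G.s, p v) (a : V) (q : V → Prop) :
    (G.sub p h).cnt a q = G.cnt a (fun b => p b ∧ q b) := by
  unfold UG.cnt
  congr 1
  ext b
  simp only [UG.sub, Finset.mem_filter]
  tauto

lemma col_adj {V : Type} (G : UG V) {a b : V} (ha : a ∈ G.s) (hb : b ∈ G.s) (h : G.adj a b) :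
    G.col b = !G.col a := by
  have := G.bip a ha b hb h
  revert this
  cases G.col a <;> cases G.col b <;> simp

/-- The link with an arbitrary selection rule `A` and arbitrary new labels `ψ`. -/
theorem glink {V V' Λ : Type} (G : UG V) (H : UG V') (ξ : V → Λ) (ψ : V' → Λ)
    (A : V → V' → Prop) (hne : ∃ w ∈ H.s, H.col w = false) :
    ∃ (S : UG (V × V')) (ξ' : V × V' → Λ), S.s ⊆ G.s ×ˢ H.s ∧
      (∀ v ∈ S.s, S.col v = true → G.col v.1 = true ∧ H.col v.2 = false ∧ ∀ κ,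
        S.cnt v (fun w => ξ' w = κ) =
          G.cnt v.1 (fun x => ξ x = κ) + H.cnt v.2 (fun w => A v.1 w ∧ ψ w = κ)) ∧
      ∀ v ∈ S.s, S.col v = false →
        (G.col v.1 = false ∧ ∀ q : V × V' → Prop, S.cnt v q = G.cnt v.1 (fun x => q (x, v.2))) ∨
        (H.col v.2 = true ∧ ∀ q : V × V' → Prop, S.cnt v q = H.cnt v.2 (fun w => q (v.1, w))) := by
  obtain ⟨x₀, hx₀⟩ := G.ne
  obtain ⟨w₀, hw₀, hc₀⟩ := hne
  refine ⟨(G.prod H).sub (fun q => H.col q.2 = false ∨ (G.col q.1 = true ∧ A q.1 q.2))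
    ⟨(x₀, w₀), by simp [UG.mem_prod, hx₀, hw₀], Or.inl hc₀⟩,
    fun q => if H.col q.2 = true then ψ q.2 else ξ q.1,
    fun v hv => ((UG.mem_sub _ _ _ v).1 hv).1, ?_, ?_⟩
  · rintro ⟨x, w⟩ hv hcol
    rw [UG.mem_sub, UG.mem_prod] at hv
    obtain ⟨⟨hx, hw⟩, hp⟩ := hv
    simp only at hx hw hp
    have hcol' : xor (G.col x) (H.col w) = true := hcol
    have e : G.col x = true ∧ H.col w = false := by
      revert hp hcol'
      cases G.col x <;> cases H.col w <;> simp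
    refine ⟨e.1, e.2, fun κ => ?_⟩
    rw [sub_cnt, UG.prod_cnt G H x hx w hw,
      G.cnt_congr x (q := fun x => ξ x = κ) fun _ _ _ => by simp [e.2],
      H.cnt_congr w (q := fun w => A x w ∧ ψ w = κ) fun w' hw' h => by
        simp [col_adj H hw hw' h, e.1, e.2]]
  · rintro ⟨x, w⟩ hv hcol
    rw [UG.mem_sub, UG.mem_prod] at hv
    obtain ⟨⟨hx, hw⟩, hp⟩ := hv
    simp only at hx hw hp
    have hcol' : xor (G.col x) (H.col w) = false := hcol
    cases e : H.col w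
    · have e1 : G.col x = false := by simpa [e] using hcol'
      refine Or.inl ⟨e1, fun q => ?_⟩
      rw [sub_cnt, UG.prod_cnt G H x hx w hw,
        H.cnt_zero w fun w' hw' h => by simp [col_adj H hw hw' h, e, e1], add_zero]
      exact G.cnt_congr x fun _ _ _ => by simp [e]
    · have e1 : G.col x = true := by simpa [e] using hcol'
      refine Or.inr ⟨rfl, fun q => ?_⟩
      rw [sub_cnt, UG.prod_cnt G H x hx w hw,
        G.cnt_zero x fun x' hx' h => by simp [col_adj G hx hx' h, e, e1], zero_add]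
      exact H.cnt_congr w fun w' hw' h => by simp [col_adj H hw hw' h, e]

/-- The first `δ` labels of the class `κ`. -/
noncomputable def lb {Λ : Type} [Fintype Λ] (m : ℕ) (κ : Λ) (δ : ℕ) : Finset (Λ × Fin m) :=
  univ.filter (fun a => a.2.val < δ ∧ a.1 = κ)

lemma card_lb {Λ : Type} [Fintype Λ] {m δ : ℕ} (κ : Λ) (h : δ ≤ m) : (lb m κ δ).card = δ := by
  have : lb m κ δ = (univ.filter (fun a : Fin m => a.val < δ)).map
      ⟨fun a => (κ, a), fun a b h => (Prod.mk.inj h).2⟩ := by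
    ext ⟨b, a⟩
    simp only [lb, mem_filter, mem_univ, true_and, mem_map, Function.Embedding.coeFn_mk,
      Prod.mk.injEq]
    constructor
    · rintro ⟨h, rfl⟩; exact ⟨a, h, rfl, rfl⟩
    · rintro ⟨a', h, rfl, rfl⟩; exact ⟨h, rfl⟩
  rw [this, card_map, Fin.card_filter_val_lt]
  omega

end LinkP

open LinkP

theorem p_Link : S_Link := by
  intro V V' Λ _ G H ξ μ m g e σ Γ hG hσ hμ hM he hg hΓ hH
  have hΓ1 : 0 < Γ := lt_of_lt_of_le (by positivity) hΓ
  have hΛ : 0 < Fintype.card Λ := Nat.pos_of_mul_pos_right hM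
  have hm : 0 < m := Nat.pos_of_mul_pos_left hM
  have hD1 : 1 ≤ Real.sqrt σ := Real.one_le_sqrt.2 hσ
  obtain ⟨s, hs⟩ : ∃ s, s = min m ⌊σ⌋₊ := ⟨_, rfl⟩
  have s1 : s ≤ m := hs ▸ min_le_left _ _
  have s2 : (s : ℝ) ≤ σ := by
    have : s ≤ ⌊σ⌋₊ := hs ▸ min_le_right _ _
    exact le_trans (by exact_mod_cast this) (Nat.floor_le (by positivity))
  have hδ : ∀ v ∈ G.s, G.col v = true → ∀ κ, μ κ - G.cnt v (fun w => ξ w = κ) ≤ s := by
    intro v hv hc κ
    obtain ⟨a1, a2⟩ := hG v hv hc κ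
    rw [hs]
    refine le_min ((Nat.sub_le _ _).trans (hμ κ)) (Nat.le_floor ?_)
    rwa [Nat.cast_sub a1]
  obtain ⟨l, hl⟩ : ∃ l : ℕ, l = ⌈2 * Real.sqrt (s * Γ)⌉₊ := ⟨_, rfl⟩
  have hl1 : 2 * Real.sqrt (s * Γ) ≤ l := hl ▸ Nat.le_ceil _
  have hl2 : (l : ℝ) < 2 * Real.sqrt (s * Γ) + 1 := hl ▸ Nat.ceil_lt_add_one (by positivity)
  have a2 : Real.sqrt (s * Γ) ≤ Real.sqrt Γ * Real.sqrt σ := by
    rw [← Real.sqrt_mul hΓ1.le]
    apply Real.sqrt_le_sqrt
    nlinarith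
  have hfin : 16 * Real.sqrt (s * Γ) + 2 * l ≤ (20 * Real.sqrt Γ + 2) * Real.sqrt σ := by
    nlinarith
  have hne : Nonempty (Λ × Fin m) := ⟨(Classical.choice (Fintype.card_pos_iff.1 hΛ), ⟨0, hm⟩)⟩
  by_cases hbig : s ≤ 2 * l
  · obtain ⟨S, ξ', h1, h2, h3⟩ := glink G H ξ (fun _ => (Classical.choice hne).1)
      (fun _ _ => False) hH.1
    refine ⟨S, ξ', h1, fun v hv hc κ => ?_, h3⟩
    obtain ⟨c1, -, c3⟩ := h2 v hv hc
    have hx := (mem_product.1 (h1 hv)).1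
    have b1 := (hG _ hx c1 κ).1
    have b2 := hδ _ hx c1 κ
    rw [c3, H.cnt_zero _ fun _ _ _ h => h.1, add_zero]
    refine ⟨b1, ?_⟩
    have : (μ κ : ℝ) ≤ G.cnt v.1 (fun w => ξ w = κ) + 2 * l := by
      exact_mod_cast (by omega : μ κ ≤ G.cnt v.1 (fun w => ξ w = κ) + 2 * l)
    linarith [Real.sqrt_nonneg (s * Γ)]
  have hs0 : 0 < s := by omega
  have hsr : (0 : ℝ) < s := by exact_mod_cast hs0
  have hl0 : (0 : ℝ) < l := lt_of_lt_of_le (by positivity) hl1
  obtain ⟨M, hMd⟩ : ∃ M, M = Fintype.card Λ * m := ⟨_, rfl⟩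
  have hcard : (Fintype.card (Λ × Fin m) : ℝ) = M := by simp [hMd]
  have hsM : s ≤ M := s1.trans (hMd ▸ Nat.le_mul_of_pos_left m hΛ)
  have hsM' : (s : ℝ) ≤ M := by exact_mod_cast hsM
  have hMr : (0 : ℝ) < M := hsr.trans_le hsM'
  rw [← hMd] at hH
  obtain ⟨φ, hφ⟩ := exists_label (Λ := Λ × Fin m) H.s
    (H.s.filter (fun w => H.col w = false) ×ˢ ((univ : Finset Λ) ×ˢ range (s + 1)))
    (fun i => H.s.filter (H.adj i.1)) (fun i _ => filter_subset _ _)
    (fun i => lb m i.2.1 i.2.2) s l hl0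
    (by have : l ≤ 2 * s := by omega
        exact_mod_cast this)
    (by
      rintro ⟨w, c, δ⟩ hi
      simp only [mem_product, mem_univ, mem_range, true_and, mem_filter] at hi
      simp only
      rw [card_lb c (by omega), hcard, ← deg_eq]
      have a1 : (H.deg w : ℝ) ≤ M := by exact_mod_cast (hH.2 w hi.1.1 hi.1.2).1
      have a2 : (δ : ℝ) ≤ s := by exact_mod_cast (by omega : δ ≤ s)
      calc (H.deg w : ℝ) * (δ / M) ≤ M * (s / M) := by gcongr
        _ = s := by field_simp)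
    (by
      apply tail_small (g := g + e) (Γ := Γ) _ hsr
      · push_cast; linarith
      · have : (2 * Real.sqrt (s * Γ)) ^ 2 ≤ (l : ℝ) ^ 2 := by gcongr
        rw [mul_pow, Real.sq_sqrt (by positivity)] at this
        linarith
      · simp only [card_product, card_univ, card_range]
        have h1 := (card_filter_le H.s (fun w => H.col w = false)).trans hg
        have h2 : Fintype.card Λ * (s + 1) ≤ 2 ^ e :=
          (Nat.mul_le_mul_left _ (by omega)).trans he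
        rw [pow_add]
        exact Nat.mul_le_mul h1 h2)
  obtain ⟨S, ξ', h1, h2, h3⟩ := glink G H ξ (fun w => (φ w).1)
    (fun x w => (φ w).2.val < μ (φ w).1 - G.cnt x (fun y => ξ y = (φ w).1) - l) hH.1
  refine ⟨S, ξ', h1, fun v hv hc κ => ?_, h3⟩
  obtain ⟨c1, c2, c3⟩ := h2 v hv hc
  obtain ⟨hx, hw⟩ := mem_product.1 (h1 hv)
  have b1 := (hG _ hx c1 κ).1
  have b2 := hδ _ hx c1 κ
  obtain ⟨δ, hδ⟩ : ∃ δ, δ = μ κ - G.cnt v.1 (fun w => ξ w = κ) - l := ⟨_, rfl⟩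
  have b3 := hφ (v.2, κ, δ) (by
    simp only [mem_product, mem_univ, mem_range, true_and, mem_filter]
    exact ⟨⟨hw, c2⟩, by omega⟩)
  simp only at b3
  rw [card_lb _ (by omega), hcard, ← deg_eq, cnt_eq_filter, abs_le] at b3
  rw [c3, H.cnt_congr v.2 (q := fun w => φ w ∈ lb m κ δ) fun w _ _ => by
    simp only [lb, mem_filter, mem_univ, true_and]
    refine and_congr_left fun h => ?_
    rw [h, hδ]]
  obtain ⟨a1, a3⟩ := hH.2 _ hw c2
  have a1' : (H.deg v.2 : ℝ) ≤ M := by exact_mod_cast a1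
  have a6 : (δ : ℝ) ≤ s := by exact_mod_cast (by omega : δ ≤ s)
  have a4 : (H.deg v.2 : ℝ) * (δ / M) ≤ δ := by
    calc (H.deg v.2 : ℝ) * (δ / M) ≤ M * (δ / M) := by gcongr
      _ = δ := by field_simp
  have a7 : Real.sqrt (M * Γ) * s ≤ Real.sqrt (s * Γ) * M := by
    apply le_of_pow_le_pow_left₀ two_ne_zero (by positivity)
    rw [mul_pow, mul_pow, Real.sq_sqrt (by positivity), Real.sq_sqrt (by positivity)]
    have : 0 ≤ (s : ℝ) * M * Γ * (M - s) := mul_nonneg (by positivity) (by linarith)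
    nlinarith
  have a5 : δ - 16 * Real.sqrt (s * Γ) ≤ (H.deg v.2 : ℝ) * (δ / M) := by
    have c1 : (M - 16 * Real.sqrt (M * Γ)) * (δ / M) ≤ (H.deg v.2 : ℝ) * (δ / M) := by gcongr
    have c2 : (M - 16 * Real.sqrt (M * Γ)) * (δ / M) = δ - 16 * Real.sqrt (M * Γ) * δ / M := by
      field_simp
    have c3 : 16 * Real.sqrt (M * Γ) * δ / M ≤ 16 * Real.sqrt (M * Γ) * s / M := by gcongr
    have c4 : 16 * Real.sqrt (M * Γ) * s / M ≤ 16 * Real.sqrt (s * Γ) := by
      rw [div_le_iff₀ hMr]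
      linarith
    linarith
  constructor
  · by_cases hδ0 : δ = 0
    · rw [H.cnt_zero v.2]
      · omega
      · intro b _ _ hb
        have := (mem_filter.1 hb).2.1
        omega
    · have : (H.cnt v.2 (fun w => φ w ∈ lb m κ δ) : ℝ) ≤ δ + l := by linarith [b3.2]
      have : H.cnt v.2 (fun w => φ w ∈ lb m κ δ) ≤ δ + l := by exact_mod_cast this
      omega
  · have c4 : (μ κ : ℝ) ≤ G.cnt v.1 (fun w => ξ w = κ) + δ + l := by
      exact_mod_cast (by omega : μ κ ≤ G.cnt v.1 (fun w => ξ w = κ) + δ + l)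
    push_cast
    linarith [b3.1]

end Pool.Agent.P.MP_44bffd_co.LS
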