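import Pool.Agent.P.MP_44bffd_co.LS.Defs

/-! A jointly controlled lottery with unequal weights and small alphabets. -/

namespace Pool.Agent.P.MP_44bffd_co.LS

open Finset
open scoped Classical

namespace LotP

theorem step_one (K j : ℕ) (h : j < K) :
    ((2 : ℤ) ^ (K - j) - 1) - 2 * ((2 : ℤ) ^ (K - (j + 1)) - 1) = 1 := by
  have e : K - j = (K - (j + 1)) + 1 := by omega
  rw [e, pow_succ]; ring

theorem exists_F (K : ℕ) (hK : 1 ≤ K) (r : ℕ) :
    ∃ F : ℤ → (Fin r → Fin K) → ℤ,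
      (∀ P β, |((2 : ℤ) ^ K - 1) * F P β - P| ≤ ((2 : ℤ) ^ K - 1) * 3 ^ r) ∧
      (∀ P β, ((2 : ℤ) ^ K - 1) ∣ P → ((2 : ℤ) ^ K - 1) * F P β = P) ∧
      (∀ P β (i : Fin r), ∑ τ : Fin K, 2 ^ (τ : ℕ) * F P (Function.update β i τ) = P) := by
  have hV : (0 : ℤ) < 2 ^ K - 1 := by
    have : (2 : ℤ) ^ 1 ≤ 2 ^ K := pow_le_pow_right₀ (by norm_num) hK
    linarith
  induction r with
  | zero =>
    refine ⟨fun P _ => P / (2 ^ K - 1), ?_, ?_, fun P β i => i.elim0⟩
    · intro P β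
      have h1 := Int.mul_ediv_add_emod P (2 ^ K - 1)
      have h2 := Int.emod_nonneg P hV.ne'
      have h3 := Int.emod_lt_of_pos P hV
      rw [abs_le]
      constructor <;> simp only [pow_zero, mul_one] <;> linarith
    · intro P β h
      exact Int.mul_ediv_cancel' h
  | succ r ih =>
    obtain ⟨F, h1, h2, h3⟩ := ih
    refine ⟨fun P β => F (P * (2 ^ (K - (β 0 : ℕ)) - 1)) (Fin.tail β) -
      2 * F (P * (2 ^ (K - ((β 0 : ℕ) + 1)) - 1)) (Fin.tail β), ?_, ?_, ?_⟩
    · intro P β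
      have a1 := abs_le.mp (h1 (P * (2 ^ (K - (β 0 : ℕ)) - 1)) (Fin.tail β))
      have a2 := abs_le.mp (h1 (P * (2 ^ (K - ((β 0 : ℕ) + 1)) - 1)) (Fin.tail β))
      have a3 := step_one K (β 0) (β 0).2
      have a4 : P * (2 ^ (K - (β 0 : ℕ)) - 1) - 2 * (P * (2 ^ (K - ((β 0 : ℕ) + 1)) - 1)) = P := by
        linear_combination P * a3
      rw [abs_le, pow_succ]
      constructor <;> nlinarith [a1.1, a1.2, a2.1, a2.2]
    · intro P β h
      have a1 := h2 (P * (2 ^ (K - (β 0 : ℕ)) - 1)) (Fin.tail β) (h.mul_right _)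
      have a2 := h2 (P * (2 ^ (K - ((β 0 : ℕ) + 1)) - 1)) (Fin.tail β) (h.mul_right _)
      have a3 := step_one K (β 0) (β 0).2
      linear_combination a1 - 2 * a2 + P * a3
    · intro P β i
      refine Fin.cases ?_ (fun j => ?_) i
      · simp only [Function.update_self, Fin.tail_update_zero]
        have e := Finset.sum_range_sub'
          (fun t : ℕ => (2 : ℤ) ^ t * F (P * (2 ^ (K - t) - 1)) (Fin.tail β)) K
        rw [Finset.sum_range] at e
        have b1 := h2 (P * (2 ^ (K - 0) - 1)) (Fin.tail β) (by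
          rw [Nat.sub_zero]; exact Dvd.intro_left _ rfl)
        have b2 := h2 (P * (2 ^ (K - K) - 1)) (Fin.tail β) (by simp)
        have c1 : F (P * (2 ^ (K - 0) - 1)) (Fin.tail β) = P := by
          apply mul_left_cancel₀ hV.ne'
          rw [b1, Nat.sub_zero]; ring
        have c2 : F (P * (2 ^ (K - K) - 1)) (Fin.tail β) = 0 := by
          apply mul_left_cancel₀ hV.ne'
          rw [b2]; simp
        rw [c1, c2] at e
        have e2 : (2 : ℤ) ^ 0 * P - 2 ^ K * 0 = P := by simp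
        rw [e2] at e
        refine Eq.trans (Finset.sum_congr rfl fun τ _ => ?_) e
        rw [pow_succ]; ring
      · have hne : (0 : Fin (r + 1)) ≠ j.succ := (Fin.succ_ne_zero j).symm
        simp only [Function.update_of_ne hne, Fin.tail_update_succ, mul_sub]
        have a1 := h3 (P * (2 ^ (K - (β 0 : ℕ)) - 1)) (Fin.tail β) j
        have a2 := h3 (P * (2 ^ (K - ((β 0 : ℕ) + 1)) - 1)) (Fin.tail β) j
        have a3 := step_one K (β 0) (β 0).2
        simp only [mul_sub] at a1 a2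
        have a5 : ∑ τ : Fin K, (2 : ℤ) ^ (τ : ℕ) * (2 * F (P * 2 ^ (K - ((β 0 : ℕ) + 1)) - P * 1)
            (Function.update (Fin.tail β) j τ)) = 2 * ∑ τ : Fin K, (2 : ℤ) ^ (τ : ℕ) *
            F (P * 2 ^ (K - ((β 0 : ℕ) + 1)) - P * 1) (Function.update (Fin.tail β) j τ) := by
          rw [Finset.mul_sum]
          exact Finset.sum_congr rfl fun τ _ => by ring
        rw [Finset.sum_sub_distrib, a5, a1, a2]
        linear_combination P * a3

theorem exists_fibres {A C : Type} [Fintype A] [Fintype C] (m : C → ℕ)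
    (h : Fintype.card A = ∑ κ, m κ) :
    ∃ Φ : A → C, ∀ (κ : C) (w : ℕ), ∑ x, (if Φ x = κ then w else 0) = w * m κ := by
  have hc : Fintype.card A = Fintype.card (Σ κ : C, Fin (m κ)) := by
    rw [h, Fintype.card_sigma]; simp
  let e := Fintype.equivOfCardEq hc
  refine ⟨fun x => (e x).1, fun κ w => ?_⟩
  rw [Equiv.sum_comp e (fun y => if y.1 = κ then w else 0), Fintype.sum_sigma]
  rw [Finset.sum_eq_single κ]
  · simp [mul_comm]
  · intro b _ hb
    simp [hb]
  · simp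

theorem geom (K : ℕ) : ∑ τ : Fin K, (2 : ℤ) ^ (τ : ℕ) = 2 ^ K - 1 := by
  induction K with
  | zero => simp
  | succ K ih => rw [Fin.sum_univ_castSucc]; simp only [Fin.val_castSucc, Fin.val_last, ih]; ring

theorem exists_m (K : ℕ) (hK : 1 ≤ K) (r : ℕ) :
    ∃ m : (Fin r → Fin K) → Bool × Fin K × Bool → ℕ,
      (∀ β, ∑ κ, m β κ = 8 * K * 3 ^ r + 2) ∧
      ∀ β (i : Fin r) κ, ∑ τ : Fin K, 2 ^ (τ : ℕ) * m (Function.update β i τ) κ =
        wt K (2 * 3 ^ r) κ := by
  obtain ⟨F, h1, h2, h3⟩ := exists_F K hK r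
  have hV : (0 : ℤ) < 2 ^ K - 1 := by
    have : (2 : ℤ) ^ 1 ≤ 2 ^ K := pow_le_pow_right₀ (by norm_num) hK
    linarith
  have hpos : ∀ β (k : ℕ), 0 ≤ 2 * 3 ^ r + (F (2 ^ (k + 1) - 1) β - F (2 ^ k - 1) β) := by
    intro β k
    have a1 := (abs_le.mp (h1 (2 ^ (k + 1) - 1) β)).1
    have a2 := (abs_le.mp (h1 (2 ^ k - 1) β)).2
    have a3 : (0 : ℤ) < 2 ^ k := by positivity
    apply le_of_mul_le_mul_left _ hV
    rw [pow_succ] at a1 ⊢
    nlinarith
  obtain ⟨m, hm⟩ : ∃ m : (Fin r → Fin K) → Bool × Fin K × Bool → ℕ, ∀ β κ, (m β κ : ℤ) =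
      2 * 3 ^ r + if κ.2.2 = true then
        F (2 ^ ((κ.2.1 : ℕ) + 1) - 1) β - F (2 ^ (κ.2.1 : ℕ) - 1) β else 0 := by
    refine ⟨fun β κ => (2 * 3 ^ r + if κ.2.2 = true then
        F (2 ^ ((κ.2.1 : ℕ) + 1) - 1) β - F (2 ^ (κ.2.1 : ℕ) - 1) β else 0).toNat, fun β κ => ?_⟩
    apply Int.toNat_of_nonneg
    split_ifs
    · exact hpos β _
    · positivity
  refine ⟨m, fun β => ?_, fun β i κ => ?_⟩
  · have e := Finset.sum_range_sub (fun k : ℕ => F (2 ^ k - 1) β) K
    rw [Finset.sum_range] at e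
    have c1 : F (2 ^ K - 1) β = 1 := by
      apply mul_left_cancel₀ hV.ne'
      rw [h2 _ β dvd_rfl, mul_one]
    have c2 : F (2 ^ 0 - 1) β = 0 := by
      apply mul_left_cancel₀ hV.ne'
      rw [h2 _ β (by simp)]; simp
    rw [c1, c2] at e
    zify
    simp only [hm, Fintype.sum_prod_type, Fintype.sum_bool, Finset.sum_add_distrib, if_true,
      Bool.false_eq_true, if_false, Finset.sum_const, Finset.card_univ, Fintype.card_fin,
      nsmul_eq_mul, e, Fintype.card_prod, Fintype.card_bool]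
    push_cast
    ring
  · have h2K : 1 ≤ 2 ^ K := Nat.one_le_two_pow
    unfold wt
    zify [h2K]
    simp only [hm, mul_add, Finset.sum_add_distrib]
    rw [← Finset.sum_mul, geom]
    by_cases hκ : κ.2.2 = true
    · simp only [hκ, if_true, mul_sub, Finset.sum_sub_distrib, h3]
      ring
    · simp only [hκ]
      simp [mul_comm]

end LotP

theorem p_Lot : S_Lot := by
  intro K r hK
  obtain ⟨m, hm1, hm2⟩ := LotP.exists_m K hK r
  have hΦ : ∀ β : Fin r → Fin K, ∃ Φ : ZMod (8 * K * 3 ^ r + 2) → Bool × Fin K × Bool,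
      ∀ κ (w : ℕ), ∑ x, (if Φ x = κ then w else 0) = w * m β κ := fun β => by
    have := LotP.exists_fibres (A := ZMod (8 * K * 3 ^ r + 2)) (m β) (by rw [ZMod.card, hm1])
    obtain ⟨Φ, h⟩ := this
    exact ⟨Φ, fun κ w => by convert h κ w⟩
  choose Φ hΦ using hΦ
  refine ⟨Fin K × ZMod (8 * K * 3 ^ r + 2), inferInstance, fun b => 2 ^ (b.1 : ℕ),
    fun β => Φ (fun j => (β j).1) (∑ j, (β j).2), ?_, ?_, ?_, ?_⟩
  · rw [Fintype.card_prod, Fintype.card_fin, ZMod.card]
  · intro b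
    exact Nat.pow_le_pow_right (by norm_num) b.1.2.le
  · refine ⟨(⟨K - 1, by omega⟩, 0), ?_⟩
    have e : K = (K - 1) + 1 := by omega
    show 2 ^ K ≤ 2 * 2 ^ (K - 1)
    rw [← pow_succ', ← e]
  · intro β i κ
    rw [Fintype.sum_prod_type, ← hm2 (fun j => (β j).1) i κ]
    refine Finset.sum_congr rfl fun τ _ => ?_
    rw [← hΦ _ κ (2 ^ (τ : ℕ))]
    refine Eq.trans (Finset.sum_congr rfl fun z _ => ?_)
      (Equiv.sum_comp (Equiv.addRight (∑ j ∈ univ.erase i, (β j).2)) _)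
    have e1 : (fun j => (Function.update β i (τ, z) j).1) =
        Function.update (fun j => (β j).1) i τ := by
      funext j
      by_cases h : j = i
      · subst h; simp
      · simp [Function.update_of_ne h]
    have e2 : ∑ j, (Function.update β i (τ, z) j).2 = z + ∑ j ∈ univ.erase i, (β j).2 := by
      rw [← Finset.add_sum_erase univ _ (Finset.mem_univ i), Function.update_self]
      congr 1
      exact Finset.sum_congr rfl fun j hj => by
        rw [Function.update_of_ne (Finset.ne_of_mem_erase hj)]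
    simp only [e1, e2, Equiv.coe_addRight]
    congr

end Pool.Agent.P.MP_44bffd_co.LS
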