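import Pool.Agent.P.MP_44bffd_co.LS.Defs

/-! Many small integers in skew boxes, by the theorem of Minkowski. -/

namespace Pool.Agent.P.MP_44bffd_co.LS

open Finset NumberField
open scoped Classical NNReal ENNReal

namespace MinkP

theorem mink (K : Type) [Field K] [NumberField K] (ρ : ℕ)
    (hd : (discr K).natAbs ≤ ρ ^ Module.finrank ℚ K) (hρ : 1 ≤ ρ) (f : InfinitePlace K → ℝ≥0)
    (hf : ∏ w, f w ^ w.mult = ((2 * ρ + 1 : ℕ) : ℝ≥0) ^ Module.finrank ℚ K) :
    ∃ a : 𝓞 K, a ≠ 0 ∧ ∀ w : InfinitePlace K, w (a : K) < f w := by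
  apply mixedEmbedding.exists_ne_zero_mem_ringOfIntegers_lt
  rw [mixedEmbedding.convexBodyLT_volume, hf, mixedEmbedding.minkowskiBound,
    mixedEmbedding.volume_fundamentalDomain_fractionalIdealLatticeBasis, Units.val_one,
    FractionalIdeal.absNorm_one, Rat.cast_one, ENNReal.ofReal_one, one_mul,
    mixedEmbedding.finrank, mixedEmbedding.volume_fundamentalDomain_latticeBasis]
  set N := Module.finrank ℚ K with hN
  have hNpos : 0 < N := Module.finrank_pos
  have h1 : (NNReal.sqrt ‖discr K‖₊ : ℝ≥0) ≤ (ρ : ℝ≥0) ^ N := by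
    rw [NNReal.sqrt_le_iff_le_sq]
    have h2 : (‖discr K‖₊ : ℝ≥0) ≤ (ρ : ℝ≥0) ^ N := by
      rw [← NNReal.natCast_natAbs]
      exact_mod_cast hd
    have h3 : (1 : ℝ≥0) ≤ (ρ : ℝ≥0) ^ N := one_le_pow₀ (by exact_mod_cast hρ)
    calc _ ≤ (ρ : ℝ≥0) ^ N := h2
      _ = (ρ : ℝ≥0) ^ N * 1 := (mul_one _).symm
      _ ≤ (ρ : ℝ≥0) ^ N * (ρ : ℝ≥0) ^ N := by gcongr
      _ = _ := (sq _).symm
  have h4 : (ρ : ℝ≥0) ^ N * 2 ^ N < ((2 * ρ + 1 : ℕ) : ℝ≥0) ^ N := by
    rw [← mul_pow]
    apply pow_lt_pow_left₀ _ (by positivity) hNpos.ne'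
    push_cast
    rw [mul_comm]
    exact lt_add_one _
  have h5 : ((2 * ρ + 1 : ℕ) : ℝ≥0) ^ N ≤
      mixedEmbedding.convexBodyLTFactor K * ((2 * ρ + 1 : ℕ) : ℝ≥0) ^ N :=
    le_mul_of_one_le_left (by positivity) (mixedEmbedding.one_le_convexBodyLTFactor K)
  calc (2 : ℝ≥0∞)⁻¹ ^ InfinitePlace.nrComplexPlaces K * (NNReal.sqrt ‖discr K‖₊ : ℝ≥0) * 2 ^ N
      ≤ 1 * (((ρ : ℝ≥0) ^ N : ℝ≥0) : ℝ≥0∞) * 2 ^ N := by
        gcongr
        exact pow_le_one₀ (by positivity) (by simp)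
    _ = (((ρ : ℝ≥0) ^ N * 2 ^ N : ℝ≥0) : ℝ≥0∞) := by push_cast; ring
    _ < _ := by
        rw [← ENNReal.coe_mul, ENNReal.coe_lt_coe]
        exact h4.trans_le h5

theorem interval (T : ℕ) (a b A : ℝ) (ha : 0 < a) (hb : 0 < b) (I : Finset (Fin T))
    (hI : ∀ s ∈ I, a < A * 2 ^ (s : ℕ) ∧ b * 2 ^ (s : ℕ) < A) :
    (I.card : ℝ) ≤ A ^ 2 / (a * b) := by
  rcases I.eq_empty_or_nonempty with rfl | hne
  · simp only [card_empty, Nat.cast_zero]; positivity
  set m := I.min' hne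
  set M := I.max' hne
  have hm := (hI m (I.min'_mem hne)).1
  have hM := (hI M (I.max'_mem hne)).2
  have hmM : (m : ℕ) ≤ M := I.min'_le_max' hne
  have hc : I.card ≤ (M : ℕ) - m + 1 := by
    have : I.map Fin.valEmbedding ⊆ Icc (m : ℕ) M := by
      intro s hs
      obtain ⟨u, hu, rfl⟩ := mem_map.1 hs
      exact mem_Icc.2 ⟨I.min'_le u hu, I.le_max' u hu⟩
    have h2 := card_le_card this
    rw [card_map, Nat.card_Icc] at h2
    omega
  have hp : (M : ℕ) - m + 1 ≤ 2 ^ ((M : ℕ) - m) := Nat.lt_two_pow_self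
  have hq : (I.card : ℝ) ≤ 2 ^ ((M : ℕ) - m) := by exact_mod_cast hc.trans hp
  refine hq.trans ?_
  rw [le_div_iff₀ (by positivity)]
  have he : (2 : ℝ) ^ (M : ℕ) = 2 ^ ((M : ℕ) - m) * 2 ^ (m : ℕ) := by
    rw [← pow_add, Nat.sub_add_cancel hmM]
  have h2m : (0 : ℝ) < 2 ^ (m : ℕ) := by positivity
  have hA : 0 < A := lt_trans (by positivity) hM
  have h6 : a * (b * 2 ^ (M : ℕ)) ≤ (A * 2 ^ (m : ℕ)) * A :=
    mul_le_mul hm.le hM.le (by positivity) (by positivity)
  rw [he] at h6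
  have h7 : (2 ^ ((M : ℕ) - m) * (a * b)) * 2 ^ (m : ℕ) ≤ A ^ 2 * 2 ^ (m : ℕ) := by
    calc _ = a * (b * (2 ^ ((M : ℕ) - m) * 2 ^ (m : ℕ))) := by ring
      _ ≤ _ := h6
      _ = _ := by ring
  exact le_of_mul_le_mul_right h7 h2m

end MinkP

open MinkP

theorem p_Mink : S_Mink := by
  intro K _ _ τ W ρ T hτ hc hW hd hρ
  set N := Module.finrank ℚ K with hN
  have hcc : ∀ w : InfinitePlace K, (w.comap τ).comap τ = w := by
    intro w
    rw [← InfinitePlace.comap_comp]
    have : τ.comp τ = RingHom.id K := RingHom.ext hτ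
    rw [this, InfinitePlace.comap_id]
  let e : InfinitePlace K ≃ InfinitePlace K := ⟨fun w => w.comap τ, fun w => w.comap τ, hcc, hcc⟩
  have hmult : ∀ w : InfinitePlace K, w.mult = 2 := fun w =>
    InfinitePlace.mult_isComplex ⟨w, hc w⟩
  have hcard : Fintype.card (InfinitePlace K) * 2 = N := by
    have := InfinitePlace.sum_mult_eq (K := K)
    simp only [hmult, sum_const, card_univ, smul_eq_mul] at this
    exact this
  let tt : (W → Fin T) → InfinitePlace K → ℕ := fun t w => if h : w ∈ W then t ⟨w, h⟩ else 0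
  have htT : ∀ t w, tt t w ≤ T := by
    intro t w
    simp only [tt]
    split_ifs with h
    · exact (t ⟨w, h⟩).2.le
    · exact Nat.zero_le _
  have hex : ∀ t : W → Fin T, ∃ a : 𝓞 K, a ≠ 0 ∧ ∀ w : InfinitePlace K,
      w (a : K) < (2 * ρ + 1 : ℝ) * 2 ^ tt t w / 2 ^ tt t (w.comap τ) := by
    intro t
    obtain ⟨a, ha, h⟩ := mink K ρ hd hρ
      (fun w => ((2 * ρ + 1 : ℕ) : ℝ≥0) * 2 ^ tt t w / 2 ^ tt t (w.comap τ)) (by
        simp only [hmult]
        rw [prod_pow, prod_div_distrib, prod_mul_distrib, prod_const, card_univ]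
        have h1 : ∏ w : InfinitePlace K, (2 : ℝ≥0) ^ tt t (w.comap τ) = ∏ w, 2 ^ tt t w :=
          Equiv.prod_comp e (fun w => (2 : ℝ≥0) ^ tt t w)
        rw [h1, mul_div_assoc, div_self (prod_ne_zero_iff.2 fun w _ => by positivity), mul_one,
          ← pow_mul, hcard])
    refine ⟨a, ha, fun w => ?_⟩
    have := h w
    push_cast at this
    exact this
  choose x hx0 hx using hex
  have hA : (0 : ℝ) < 2 * ρ + 1 := by positivity
  have hh : ∀ t (w : InfinitePlace K),
      w (x t : K) * w (τ (x t : K)) < (2 * ρ + 1 : ℝ) ^ 2 := by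
    intro t w
    have h1 := hx t w
    have h2 := hx t (w.comap τ)
    rw [hcc, InfinitePlace.comap_apply] at h2
    calc _ < ((2 * ρ + 1 : ℝ) * 2 ^ tt t w / 2 ^ tt t (w.comap τ)) *
          ((2 * ρ + 1 : ℝ) * 2 ^ tt t (w.comap τ) / 2 ^ tt t w) :=
          mul_lt_mul'' h1 h2 (apply_nonneg _ _) (apply_nonneg _ _)
      _ = _ := by field_simp
  refine ⟨univ.image x, ?_, ?_⟩
  · have hfib : ∀ y ∈ univ.image x,
        (univ.filter (fun t => x t = y)).card ≤ (2 * ρ + 1) ^ N := by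
      intro y hy
      obtain ⟨t₀, -, rfl⟩ := mem_image.1 hy
      set y := x t₀ with hy'
      have hy0 : (y : K) ≠ 0 := RingOfIntegers.coe_ne_zero_iff.2 (hx0 t₀)
      have hτy : τ (y : K) ≠ 0 := (map_ne_zero τ).2 hy0
      have hp1 : ∀ w : InfinitePlace K, 0 < w (y : K) := fun w => InfinitePlace.pos_iff.2 hy0
      have hp2 : ∀ w : InfinitePlace K, 0 < w (τ (y : K)) := fun w => InfinitePlace.pos_iff.2 hτy
      let I : W → Finset (Fin T) := fun w => univ.filter fun s =>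
        w.1 (y : K) < (2 * ρ + 1 : ℝ) * 2 ^ (s : ℕ) ∧
          w.1 (τ (y : K)) * 2 ^ (s : ℕ) < (2 * ρ + 1 : ℝ)
      have hsub : univ.filter (fun t => x t = y) ⊆ Fintype.piFinset I := by
        intro t ht
        have ht' : x t = y := (mem_filter.1 ht).2
        refine Fintype.mem_piFinset.2 fun w => mem_filter.2 ⟨mem_univ _, ?_, ?_⟩
        · have h1 := hx t w.1
          have h2 : tt t w.1 = t w := dif_pos w.2
          have h3 : tt t (w.1.comap τ) = 0 := dif_neg (hW w.1 w.2)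
          rw [h2, h3, ht', pow_zero, div_one] at h1
          exact h1
        · have h1 := hx t (w.1.comap τ)
          have h2 : tt t w.1 = t w := dif_pos w.2
          have h3 : tt t (w.1.comap τ) = 0 := dif_neg (hW w.1 w.2)
          rw [hcc, h2, h3, ht', pow_zero, mul_one, InfinitePlace.comap_apply,
            lt_div_iff₀ (by positivity)] at h1
          exact h1
      have h1 := card_le_card hsub
      rw [Fintype.card_piFinset] at h1
      have h2 : ((∏ w : W, (I w).card : ℕ) : ℝ) ≤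
          ∏ w : W, (2 * ρ + 1 : ℝ) ^ 2 / (w.1 (y : K) * w.1 (τ (y : K))) := by
        push_cast
        refine prod_le_prod (fun w _ => by positivity) fun w _ => ?_
        exact interval T _ _ _ (hp1 _) (hp2 _) (I w) fun s hs => (mem_filter.1 hs).2
      rw [prod_coe_sort W (fun w => (2 * ρ + 1 : ℝ) ^ 2 / (w (y : K) * w (τ (y : K))))] at h2
      have h3 : ∏ w ∈ W, (2 * ρ + 1 : ℝ) ^ 2 / (w (y : K) * w (τ (y : K))) ≤
          ∏ w : InfinitePlace K, (2 * ρ + 1 : ℝ) ^ 2 / (w (y : K) * w (τ (y : K))) := by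
        refine prod_le_prod_of_subset_of_one_le (subset_univ W) (fun w _ => ?_) (fun w _ _ => ?_)
        · have := hp1 w
          have := hp2 w
          positivity
        · rw [one_le_div (mul_pos (hp1 w) (hp2 w))]
          exact (hh t₀ w).le
      have h4 : ∏ w : InfinitePlace K, w (τ (y : K)) = ∏ w : InfinitePlace K, w (y : K) :=
        Equiv.prod_comp e (fun w => w (y : K))
      have h5 : (1 : ℝ) ≤ (∏ w : InfinitePlace K, w (y : K)) * ∏ w : InfinitePlace K, w (y : K) := by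
        have h6 := InfinitePlace.prod_eq_abs_norm (y : K)
        simp only [hmult] at h6
        rw [prod_pow, sq] at h6
        rw [h6, ← Algebra.coe_norm_int, ← Int.cast_abs, Rat.cast_intCast, ← Int.cast_one,
          Int.cast_le]
        exact Int.one_le_abs (Algebra.norm_ne_zero_iff.mpr (hx0 t₀))
      replace h3 := h2.trans h3
      rw [prod_div_distrib, prod_mul_distrib, h4, prod_const, card_univ, ← pow_mul,
        mul_comm 2 (Fintype.card _), hcard] at h3
      have h7 : (2 * ρ + 1 : ℝ) ^ N /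
          ((∏ w : InfinitePlace K, w (y : K)) * ∏ w : InfinitePlace K, w (y : K)) ≤
          (2 * ρ + 1 : ℝ) ^ N := div_le_self (by positivity) h5
      have h8 : ((∏ w : W, (I w).card : ℕ) : ℝ) ≤ (((2 * ρ + 1) ^ N : ℕ) : ℝ) := by
        refine (h3.trans h7).trans (le_of_eq ?_)
        push_cast
        rfl
      exact h1.trans (by exact_mod_cast h8)
    have h := card_le_mul_card_image univ _ hfib
    rw [card_univ, Fintype.card_fun, Fintype.card_fin, Fintype.card_coe] at h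
    rw [mul_comm]
    exact h
  · intro y hy
    obtain ⟨t, -, rfl⟩ := mem_image.1 hy
    refine ⟨hx0 t, fun w => ⟨?_, ?_⟩⟩
    · refine (hx t w).le.trans ?_
      refine (div_le_self (by positivity) (one_le_pow₀ one_le_two)).trans ?_
      exact mul_le_mul_of_nonneg_left (pow_le_pow_right₀ one_le_two (htT t w)) hA.le
    · rw [map_mul]
      exact hh t w

end Pool.Agent.P.MP_44bffd_co.LS
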