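import Pool.Agent.P.MP_44bffd_co.LS.Defs

/-! From bounded ratio of the degrees to nearly regular graphs, and the two-sided thinning. -/

namespace Pool.Agent.P.MP_44bffd_co.LS

open Finset
open scoped Classical

namespace NearP

lemma sq_l {x Γ : ℝ} (hx : 0 ≤ x) (hΓ : 0 ≤ Γ) : 4 * x * Γ ≤ (2 * Real.sqrt (x * Γ)) ^ 2 := by
  rw [mul_pow, Real.sq_sqrt (by positivity)]
  linarith

lemma sqrt_small {x Γ : ℝ} (hΓ : 0 ≤ Γ) (h : 400 * Γ ≤ x) : 20 * Real.sqrt (x * Γ) ≤ x := by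
  have hx : 0 ≤ x := by linarith
  apply le_of_pow_le_pow_left₀ two_ne_zero hx
  rw [mul_pow, Real.sq_sqrt (by positivity)]
  nlinarith

/-- One thinning of the side `true` down to degrees between `(D - l) / 100 - l` and `D`. -/
lemma thin100 {g : ℕ} {a b₁ b₂ D Γ : ℝ} (h : Bi a (100 * a) b₁ b₂ g) (hb : 0 < b₁) (hD : 0 < D)
    (ha : D ≤ a) (hΓ : (g : ℝ) + 1 ≤ Γ) (hl : 2 * Real.sqrt (D * Γ) ≤ D) :
    Bi ((D - 2 * Real.sqrt (D * Γ)) / 100 - 2 * Real.sqrt (D * Γ)) D b₁ b₂ g := by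
  have hΓ0 : 0 < Γ := lt_of_lt_of_le (by positivity) hΓ
  have ha0 : 0 < a := hD.trans_le ha
  have hl0 : 0 < 2 * Real.sqrt (D * Γ) := by positivity
  set l := 2 * Real.sqrt (D * Γ) with hldef
  have e1 : (D - l) / (100 * a) * (100 * a) = D - l := by field_simp
  have e2 : (D - l) / (100 * a) * a = (D - l) / 100 := by field_simp
  have := thin (ρ := (D - l) / (100 * a)) (l := l) (μ := D) (Γ := Γ) h ha0 hb
    (div_nonneg (by linarith) (by positivity)) (by rw [div_le_one (by positivity)]; linarith) hl0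
    (by linarith) (by linarith) hΓ (sq_l hD.le hΓ0.le)
  exact this.mono (by linarith) (by linarith) le_rfl le_rfl

lemma start100 {g D : ℕ} {a b Γ : ℝ} (h : Bi a (100 * a) b (100 * b) g) (ha : (D : ℝ) ≤ a)
    (hb : (D : ℝ) ≤ b) (hΓ : (g : ℝ) + 1 ≤ Γ) :
    Nr D (99 / 100 * D + (4 * Real.sqrt Γ + 2) * Real.sqrt D) g := by
  have hΓ0 : 0 < Γ := lt_of_lt_of_le (by positivity) hΓ
  have e : Real.sqrt (D * Γ) = Real.sqrt Γ * Real.sqrt D := by
    rw [mul_comm, Real.sqrt_mul hΓ0.le]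
  have q0 := Real.sqrt_nonneg ((D : ℝ) * Γ)
  have q1 := Real.sqrt_nonneg (D : ℝ)
  have q2 : 4 * Real.sqrt (D * Γ) ≤ (4 * Real.sqrt Γ + 2) * Real.sqrt D := by
    rw [e]
    nlinarith
  by_cases hbig : (D : ℝ) ≤ 202 * Real.sqrt (D * Γ)
  · exact (nr_point D).mono (by linarith) (Nat.zero_le _)
  have hbig' := not_le.1 hbig
  have hD : (0 : ℝ) < D := by linarith
  have h1 := thin100 h (hD.trans_le hb) hD ha hΓ (by linarith)
  obtain ⟨V, G, c1, c2⟩ := thin100 h1.swap (by linarith) hD hb hΓ (by linarith)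
  refine ⟨V, G, c1, fun v hv => ?_⟩
  have : (D - 2 * Real.sqrt (D * Γ)) / 100 - 2 * Real.sqrt (D * Γ) ≤ G.deg v ∧
      (G.deg v : ℝ) ≤ D := by
    cases e : G.col v
    exacts [(c2 v hv).2 e, (c2 v hv).1 e]
  exact ⟨by exact_mod_cast this.2, by linarith [this.1]⟩

lemma pow99 : ((99 : ℝ) / 100) ^ 2 ^ 9 ≤ 1 / 16 := by
  have h1 : ((99 : ℝ) / 100) ^ 16 ≤ 7 / 8 := by norm_num
  calc ((99 : ℝ) / 100) ^ 2 ^ 9 = ((99 / 100) ^ 16) ^ 32 := by rw [← pow_mul]; norm_num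
    _ ≤ (7 / 8) ^ 32 := by gcongr
    _ ≤ 1 / 16 := by norm_num

end NearP

open NearP

theorem p_Near : S_Near := by
  intro g t E a b Γ h ha hb hE hΓ hΓE
  have hΓ1 : 1 ≤ Γ := le_trans (by exact_mod_cast (by omega : 1 ≤ 3 ^ 9 * g + t + 11)) hΓ
  have hs1 : 1 ≤ Real.sqrt Γ := Real.one_le_sqrt.2 hΓ1
  set β : ℝ := 4 * Real.sqrt Γ + 2 with hβ
  have hβ0 : 0 ≤ β := by positivity
  have hg : ∀ j ≤ 9, ((3 ^ j * g : ℕ) : ℝ) + (t + 9 : ℕ) + 2 ≤ Γ := fun j hj => by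
    refine le_trans ?_ hΓ
    have h1 : 3 ^ j * g ≤ 3 ^ 9 * g :=
      Nat.mul_le_mul_right _ (Nat.pow_le_pow_right (by norm_num) hj)
    exact_mod_cast (by omega : 3 ^ j * g + (t + 9) + 2 ≤ 3 ^ 9 * g + t + 11)
  have one : ∀ j ≤ 9, ∀ D ≤ 2 ^ (t + (9 - j)),
      Nr D ((99 / 100) ^ (2 ^ j) * D + ((2 ^ (j + 1) - 1) * β) * Real.sqrt D) (3 ^ j * g) := by
    intro j
    induction j with
    | zero =>
      intro _ D hD
      have hD' : (D : ℝ) ≤ 2 ^ (t + 9) := by exact_mod_cast hD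
      have h0 := hg 0 (by norm_num)
      have := start100 (Γ := Γ) h (hD'.trans ha) (hD'.trans hb) (by
        push_cast at h0
        have : (0 : ℝ) ≤ t := Nat.cast_nonneg t
        linarith)
      refine this.mono (le_of_eq ?_) (by omega)
      rw [← hβ]; norm_num
    | succ j ih =>
      intro hj D hD
      have hε1 : ((99 : ℝ) / 100) ^ (2 ^ j) ≤ 1 := pow_le_one₀ (by norm_num) (by norm_num)
      have hε0 : (0 : ℝ) ≤ (99 / 100) ^ (2 ^ j) := by positivity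
      have hB : (0 : ℝ) ≤ (2 ^ (j + 1) - 1) * β :=
        mul_nonneg (sub_nonneg.2 (one_le_pow₀ (by norm_num))) hβ0
      have := phase_one (Γ := Γ) (M := 2 ^ (t + (9 - (j + 1)))) (κ := t + 9) hε0 hB
        (fun D hD => ih (by omega) D (by
          rw [show t + (9 - j) = (t + (9 - (j + 1))) + 1 by omega, pow_succ]; omega))
        (Nat.pow_lt_pow_right (by norm_num) (by omega)) (hg j (by omega)) D hD
      refine this.mono ?_ (le_of_eq (by ring))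
      rw [← hβ, pow_succ (2 : ℕ) j, pow_mul]
      set ε : ℝ := (99 / 100) ^ (2 ^ j)
      have h2 : (ε + 0.7072) * ((2 ^ (j + 1) - 1) * β) ≤ 2 * ((2 ^ (j + 1) - 1) * β) :=
        mul_le_mul_of_nonneg_right (by linarith) hB
      have h3 : (ε + 0.7072) * ((2 ^ (j + 1) - 1) * β) + β ≤ (2 ^ (j + 1 + 1) - 1) * β := by
        rw [pow_succ 2 (j + 1)]
        linarith
      have h4 := mul_le_mul_of_nonneg_right h3 (Real.sqrt_nonneg (D : ℝ))
      linarith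
  refine (one 9 le_rfl E (by simpa using hE)).mono ?_ le_rfl
  have E0 : (0 : ℝ) ≤ E := Nat.cast_nonneg E
  have a1 := mul_le_mul_of_nonneg_right pow99 E0
  have a2 : 10 ^ 5 * Real.sqrt Γ ≤ Real.sqrt E := by
    apply Real.le_sqrt_of_sq_le
    rw [mul_pow, Real.sq_sqrt (by linarith)]
    linarith
  have a3 := Real.mul_self_sqrt E0
  have a4 := Real.sqrt_nonneg (E : ℝ)
  have a5 : (2 ^ (9 + 1) - 1) * β ≤ Real.sqrt E / 16 := by
    rw [hβ]
    linarith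
  have a6 := mul_le_mul_of_nonneg_right a5 a4
  rw [div_mul_eq_mul_div, a3] at a6
  generalize ((99 : ℝ) / 100) ^ 2 ^ 9 * E = u at a1 ⊢
  generalize (2 ^ (9 + 1) - 1) * β * Real.sqrt E = w at a6 ⊢
  linarith

theorem p_Two : S_Two := by
  intro D M₁ M₂ g Γ h h1 h2 hΓ k1 k2
  have hΓ0 : 0 < Γ := lt_of_lt_of_le (by positivity) hΓ
  have d1 : (M₁ : ℝ) ≤ D := by exact_mod_cast h1
  have d2 : (M₂ : ℝ) ≤ D := by exact_mod_cast h2
  have m1 : (0 : ℝ) < M₁ := by linarith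
  have m2 : (0 : ℝ) < M₂ := by linarith
  have d0 : (0 : ℝ) < D := by linarith
  have s0 := sqrt_small hΓ0.le (k1.trans d1)
  have s1 := sqrt_small hΓ0.le k1
  have s2 := sqrt_small hΓ0.le k2
  have p0 : 0 < Real.sqrt (D * Γ) := by positivity
  have p1 : 0 < Real.sqrt (M₁ * Γ) := by positivity
  have p2 : 0 < Real.sqrt (M₂ * Γ) := by positivity
  have e1 : (M₁ - 2 * Real.sqrt (M₁ * Γ)) / D * D = M₁ - 2 * Real.sqrt (M₁ * Γ) := by field_simp
  have b1 := (thin (ρ := (M₁ - 2 * Real.sqrt (M₁ * Γ)) / D) (l := 2 * Real.sqrt (M₁ * Γ))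
    (μ := M₁) (Γ := Γ) h d0 (by linarith) (div_nonneg (by linarith) d0.le)
    (by rw [div_le_one d0]; linarith) (by linarith) (by linarith) (by linarith) hΓ
    (sq_l m1.le hΓ0.le)).mono (a₁' := M₁ - 16 * Real.sqrt (M₁ * Γ)) (a₂' := M₁)
    (by linarith) (by linarith) le_rfl le_rfl
  have e2 : (M₂ - 2 * Real.sqrt (M₂ * Γ)) / (2 * D) * (2 * D) = M₂ - 2 * Real.sqrt (M₂ * Γ) := by
    field_simp
  have a1 : Real.sqrt (D * Γ) * M₂ ≤ Real.sqrt (M₂ * Γ) * D := by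
    apply le_of_pow_le_pow_left₀ two_ne_zero (by positivity)
    rw [mul_pow, mul_pow, Real.sq_sqrt (by positivity), Real.sq_sqrt (by positivity)]
    have : 0 ≤ (M₂ : ℝ) * D * Γ * (D - M₂) := mul_nonneg (by positivity) (by linarith)
    nlinarith
  have a2 : (M₂ - 2 * Real.sqrt (M₂ * Γ)) / (2 * D) * (16 * Real.sqrt (D * Γ)) ≤
      8 * Real.sqrt (M₂ * Γ) := by
    rw [div_mul_eq_mul_div, div_le_iff₀ (by positivity)]
    nlinarith [mul_pos p0 p2]
  refine ((thin (ρ := (M₂ - 2 * Real.sqrt (M₂ * Γ)) / (2 * D)) (l := 2 * Real.sqrt (M₂ * Γ))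
    (μ := M₂) (Γ := Γ) b1.swap (by linarith) (by linarith)
    (div_nonneg (by linarith) (by positivity)) (by rw [div_le_one (by positivity)]; linarith)
    (by linarith) (by linarith) (by linarith) hΓ (sq_l m2.le hΓ0.le)).mono ?_ (by linarith)
    le_rfl le_rfl).swap
  rw [mul_sub]
  linarith

end Pool.Agent.P.MP_44bffd_co.LS
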