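import Pool.Agent.P.MP_44bffd_co.LS.Defs

/-! Chains of labelled links. -/

namespace Pool.Agent.P.MP_44bffd_co.LS

open Finset
open scoped Classical

namespace OneWP

/-- A chain of `r` links that carries an invariant `I`. -/
theorem iter (h : S_Link) {V' Λ : Type} [Fintype Λ] (H : UG V') (μ : Λ → ℕ) (m g e r u : ℕ) (Γ : ℝ)
    (h1 : ∀ κ, μ κ ≤ m) (h2 : m ≤ 2 ^ (2 ^ r * u)) (h3 : 0 < Fintype.card Λ * m)
    (h4 : Fintype.card Λ * (m + 1) ≤ 2 ^ e) (h5 : H.s.card ≤ 2 ^ g) (h6 : (g : ℝ) + e + 1 ≤ Γ)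
    (h7 : Fal H (Fintype.card Λ * m) Γ) (I : ℕ → ∀ V : Type, UG V → Prop) (h0 : I 0 Unit point)
    (hs : ∀ j < r, ∀ (V : Type) (G : UG V) (S : UG (V × V')), I j V G → S.s ⊆ G.s ×ˢ H.s →
      (∀ v ∈ S.s, S.col v = false →
        (G.col v.1 = false ∧ ∀ q : V × V' → Prop, S.cnt v q = G.cnt v.1 (fun x => q (x, v.2))) ∨
        (H.col v.2 = true ∧ ∀ q : V × V' → Prop, S.cnt v q = H.cnt v.2 (fun w => q (v.1, w)))) →
      I (j + 1) _ S) :
    ∃ (V : Type) (O : UG V) (ξ : V → Λ), O.s.card ≤ 2 ^ (r * g) ∧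
      View O true ξ μ ((20 * Real.sqrt Γ + 2) ^ 2 * 2 ^ u) ∧ I r V O := by
  have hK : 1 ≤ 20 * Real.sqrt Γ + 2 := by linarith [Real.sqrt_nonneg Γ]
  set K := 20 * Real.sqrt Γ + 2 with hKdef
  have key : ∀ j ≤ r, ∃ (V : Type) (O : UG V) (ξ : V → Λ), O.s.card ≤ 2 ^ (j * g) ∧
      View O true ξ μ (K ^ 2 * 2 ^ (2 ^ (r - j) * u)) ∧ I j V O := by
    intro j
    induction j with
    | zero =>
      intro _
      obtain ⟨κ₀⟩ : Nonempty Λ := Fintype.card_pos_iff.1 (Nat.pos_of_mul_pos_right h3)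
      refine ⟨Unit, point, fun _ => κ₀, by simp [point], fun v _ _ κ => ?_, h0⟩
      rw [point.cnt_zero v fun _ _ h => h.elim]
      have a1 : (μ κ : ℝ) ≤ 2 ^ (2 ^ r * u) := by exact_mod_cast (h1 κ).trans h2
      have a2 : (1 : ℝ) ≤ K ^ 2 := one_le_pow₀ hK
      have a3 : (0 : ℝ) < 2 ^ (2 ^ r * u) := by positivity
      refine ⟨Nat.zero_le _, ?_⟩
      rw [Nat.cast_zero, sub_zero, Nat.sub_zero]
      nlinarith
    | succ j ih =>
      intro hj
      obtain ⟨V, G, ξ, a1, a2, a3⟩ := ih (by omega)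
      obtain ⟨S, ξ', b1, b2, b3⟩ := h V V' Λ G H ξ μ m g e _ Γ a2
        (one_le_mul_of_one_le_of_one_le (one_le_pow₀ hK) (one_le_pow₀ (by norm_num)))
        h1 h3 h4 h5 h6 h7
      have e1 : Real.sqrt (K ^ 2 * 2 ^ (2 ^ (r - j) * u)) = K * 2 ^ (2 ^ (r - (j + 1)) * u) := by
        rw [Real.sqrt_eq_iff_eq_sq (by positivity) (by positivity),
          show r - j = r - (j + 1) + 1 by omega, pow_succ 2 (r - (j + 1)), mul_pow, ← pow_mul]
        congr 2
        ring
      rw [e1, ← hKdef, ← mul_assoc, ← sq] at b2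
      refine ⟨_, S, ξ', ?_, b2, hs j hj V G S a3 b1 b3⟩
      calc S.s.card ≤ G.s.card * H.s.card := (card_le_card b1).trans (card_product _ _).le
        _ ≤ 2 ^ (j * g) * 2 ^ g := Nat.mul_le_mul a1 h5
        _ = _ := by rw [← pow_add, Nat.succ_mul]
  simpa using key r le_rfl

theorem cnt_fiber {V B : Type} [Fintype B] (H : UG V) (y : V) (b : V → B) (P : B → Prop) :
    H.cnt y (fun w => P (b w)) = ∑ b₀ : B, if P b₀ then H.cnt y (fun w => b w = b₀) else 0 := by
  unfold UG.cnt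
  rw [card_eq_sum_card_fiberwise (f := b) (t := univ) fun _ _ => mem_univ _]
  refine sum_congr rfl fun b₀ _ => ?_
  split_ifs with hP
  · congr 1
    ext w
    simp only [mem_filter]
    exact ⟨fun h => ⟨h.1.1, h.1.2.1, h.2⟩, fun h => ⟨⟨h.1, h.2.1, h.2.2 ▸ hP⟩, h.2.2⟩⟩
  · rw [card_eq_zero, filter_eq_empty_iff]
    intro w hw e
    exact hP (e ▸ (mem_filter.1 hw).2.2)

/-- The first `j` coordinates from `γ`, the others from `β`. -/
def mx {B : Type} {r : ℕ} (j : ℕ) (γ β : Fin r → B) : Fin r → B :=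
  fun i => if (i : ℕ) < j then γ i else β i

theorem mx_old {B : Type} {r j : ℕ} (hj : j < r) (γ β : Fin r → B) (x : B) :
    mx (j + 1) (Function.update γ ⟨j, hj⟩ x) β = mx j γ (Function.update β ⟨j, hj⟩ x) := by
  funext i
  simp only [mx, Function.update_apply, Fin.ext_iff]
  split_ifs <;> first | rfl | omega

theorem mx_new {B : Type} {r j : ℕ} (hj : j < r) (γ β : Fin r → B) (x : B) :
    mx (j + 1) (Function.update γ ⟨j, hj⟩ x) β = Function.update (mx j γ β) ⟨j, hj⟩ x := by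
  funext i
  simp only [mx, Function.update_apply, Fin.ext_iff]
  split_ifs <;> first | rfl | omega

theorem mx_end {B : Type} {r : ℕ} (γ β : Fin r → B) : mx r γ β = γ :=
  funext fun i => if_pos i.2

end OneWP

open OneWP

theorem p_One (h : S_Link) : S_One := by
  intro V' Λ _ H μ m g e r u Γ b₁ b₂ h1 h2 h3 h4 h5 h6 h7 h8
  refine iter h H μ m g e r u Γ h1 h2 h3 h4 h5 h6 h7
    (fun _ _ O => ∀ v ∈ O.s, O.col v = false → b₁ ≤ O.deg v ∧ (O.deg v : ℝ) ≤ b₂)
    (fun v _ hv => by simp [point] at hv) ?_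
  intro j _ V G S hI hS hc v hv hf
  have hm := mem_product.1 (hS hv)
  rcases hc v hv hf with ⟨a, b⟩ | ⟨a, b⟩
  · rw [show S.deg v = G.deg v.1 from b _]
    exact hI _ hm.1 a
  · rw [show S.deg v = H.deg v.2 from b _]
    exact h8 _ hm.2 a

theorem p_W (h : S_Link) : S_W := by
  intro V' B C _ _ H b r ν n π m g e u ε Γ hL h1 h2 h3 h4 h5 h6 h7 h8 h9
  obtain ⟨V, W, ξ, a1, a2, γ, a3⟩ := iter h H n m g e r u Γ h1 h2 h3 h4 h5 h6 h7
    (fun j V O => ∃ γ : V → Fin r → B, ∀ x ∈ O.s, O.col x = false → ∀ β κ,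
      O.cnt x (fun v => π (mx j (γ v) β) = κ) ≤ n κ ∧
        (n κ : ℝ) - O.cnt x (fun v => π (mx j (γ v) β) = κ) ≤ Fintype.card B * ε)
    ⟨fun _ _ => b H.ne.choose, fun v _ hv => by simp [point] at hv⟩ (by
      rintro j hj V G S ⟨γ, hI⟩ hS hc
      refine ⟨fun v => Function.update (γ v.1) ⟨j, hj⟩ (b v.2), fun v hv hf β κ => ?_⟩
      have hm := mem_product.1 (hS hv)
      rcases hc v hv hf with ⟨a, c⟩ | ⟨a, c⟩
      · rw [c]
        simp only [mx_old]
        exact hI _ hm.1 a _ κ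
      · rw [c]
        simp only [mx_new]
        rw [cnt_fiber H v.2 b fun x => π (Function.update (mx j (γ v.1) β) ⟨j, hj⟩ x) = κ,
          ← hL (mx j (γ v.1) β) ⟨j, hj⟩ κ]
        have hV := h8 _ hm.2 a
        refine ⟨sum_le_sum fun x _ => ?_, ?_⟩
        · split_ifs
          exacts [(hV x).1, le_rfl]
        · push_cast
          rw [← sum_sub_distrib, ← card_univ, ← nsmul_eq_mul, ← sum_const]
          refine sum_le_sum fun x _ => ?_
          split_ifs
          · exact (hV x).2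
          · simpa using h9)
  refine ⟨V, W, fun v => if W.col v = true then π (γ v) else ξ v, a1, fun v hv hc κ => ?_,
    fun v hv hc κ => ?_⟩
  · rw [W.cnt_congr v (q := fun w => ξ w = κ) fun w hw ha => by
      simp only [if_neg fun e => W.bip v hv w hw ha (hc.trans (Eq.symm e))]]
    exact a2 v hv hc κ
  · rw [W.cnt_congr v (q := fun w => π (mx r (γ w) (γ v)) = κ) fun w hw ha => by
      have : W.col w = true := by
        have := W.bip v hv w hw ha
        rw [hc] at this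
        simpa using this.symm
      simp only [if_pos this, mx_end]]
    exact a3 v hv hc _ κ

end Pool.Agent.P.MP_44bffd_co.LS
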