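import Pool.Agent.P.MP_44bffd_co.LS.Defs

/-! An involution that fixes a fourth root of two and negates a square root of minus one moves
many infinite places. -/

namespace Pool.Agent.P.MP_44bffd_co.LS

open Finset NumberField
open scoped Classical

namespace PairsP

/-- Half of the embeddings send a square root of two to the negative square root. -/
theorem half (K : Type) [Field K] [NumberField K] (β : K) (hβ : β ^ 2 = 2) :
    Module.finrank ℚ K =
      2 * ((univ : Finset (K →+* ℂ)).filter (fun φ => φ β = -((Real.sqrt 2 : ℝ) : ℂ))).card := by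
  set s : ℂ := ((Real.sqrt 2 : ℝ) : ℂ) with hs
  have hs2 : s ^ 2 = 2 := by
    rw [hs, ← Complex.ofReal_pow, Real.sq_sqrt (by norm_num)]; norm_num
  have hor : ∀ φ : K →+* ℂ, ¬ φ β = -s → φ β = s := by
    intro φ h
    have h1 : φ β ^ 2 = s ^ 2 := by rw [← map_pow, hβ, hs2]; exact map_ofNat φ 2
    rcases sq_eq_sq_iff_eq_or_eq_neg.1 h1 with h2 | h2
    · exact h2
    · exact absurd h2 h
  have htr : ((Algebra.trace ℚ K β : ℚ) : ℂ) = ∑ φ : K →+* ℂ, φ β := by
    have h := trace_eq_sum_embeddings ℂ (K := ℚ) (L := K) (x := β)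
    rw [← Fintype.sum_equiv (RingHom.equivRatAlgHom K ℂ) (fun φ => φ β) (fun φ => φ β)
      (fun _ => by simp [RingHom.equivRatAlgHom_apply])] at h
    simpa using h
  set B := (univ : Finset (K →+* ℂ)).filter (fun φ => φ β = -s) with hB
  set A := (univ : Finset (K →+* ℂ)).filter (fun φ => ¬ φ β = -s) with hA
  have hAB : B.card + A.card = Module.finrank ℚ K := by
    rw [hA, hB, card_filter_add_card_filter_not, card_univ, Embeddings.card K ℂ]
  have hsum : ∑ φ : K →+* ℂ, φ β = ((A.card : ℂ) - B.card) * s := by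
    rw [← sum_filter_add_sum_filter_not univ (fun φ : K →+* ℂ => φ β = -s)]
    have h1 : ∑ φ ∈ B, φ β = B.card * (-s) := by
      rw [sum_congr rfl (fun φ hφ => (mem_filter.1 hφ).2), sum_const, nsmul_eq_mul]
    have h2 : ∑ φ ∈ A, φ β = A.card * s := by
      rw [sum_congr rfl (fun φ hφ => hor φ (mem_filter.1 hφ).2), sum_const, nsmul_eq_mul]
    rw [← hA, ← hB, h1, h2]; ring
  have hreal : ((Algebra.trace ℚ K β : ℚ) : ℝ) = (((A.card : ℤ) - B.card : ℤ) : ℝ) * Real.sqrt 2 := by
    have h := htr.trans hsum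
    rw [hs] at h
    exact_mod_cast h
  have hz : ((A.card : ℤ) - B.card : ℤ) = 0 := by
    by_contra hne
    have hirr := irrational_sqrt_two.intCast_mul hne
    rw [← hreal] at hirr
    exact hirr ⟨_, rfl⟩
  omega

end PairsP

theorem p_Pairs : S_Pairs := by
  intro K _ _ τ α j hτ hα hτα hj hτj
  have hβ : (α ^ 2) ^ 2 = 2 := by rw [← hα]; ring
  have hN := PairsP.half K (α ^ 2) hβ
  set B := (univ : Finset (K →+* ℂ)).filter (fun φ => φ (α ^ 2) = -((Real.sqrt 2 : ℝ) : ℂ))
    with hB
  set M := (univ : Finset (InfinitePlace K)).filter (fun w => w.comap τ ≠ w) with hM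
  have hinv : ∀ w : InfinitePlace K, (w.comap τ).comap τ = w := by
    intro w
    rw [← InfinitePlace.comap_comp]
    have : τ.comp τ = RingHom.id K := RingHom.ext hτ
    rw [this, InfinitePlace.comap_id]
  have hmove : ∀ φ ∈ B, InfinitePlace.mk φ ∈ M := by
    intro φ hφ
    have hφ' := (mem_filter.1 hφ).2
    refine mem_filter.2 ⟨mem_univ _, fun h => ?_⟩
    rw [InfinitePlace.comap_mk, InfinitePlace.mk_eq_iff] at h
    rcases h with h | h
    · have h1 : φ (τ j) = φ j := congrArg (fun ψ : K →+* ℂ => ψ j) h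
      rw [hτj, map_neg] at h1
      have h2 : φ j = 0 := by linear_combination (-1 / 2 : ℂ) * h1
      have h3 : φ j ^ 2 = -1 := by rw [← map_pow, hj, map_neg, map_one]
      rw [h2] at h3
      norm_num at h3
    · have h1 : starRingEnd ℂ (φ (τ α)) = φ α := congrArg (fun ψ : K →+* ℂ => ψ α) h
      rw [hτα] at h1
      obtain ⟨r, hr⟩ := Complex.conj_eq_iff_real.1 h1
      rw [map_pow, hr] at hφ'
      have h2 : r ^ 2 = -Real.sqrt 2 := by exact_mod_cast hφ'
      have h3 : 0 < Real.sqrt 2 := Real.sqrt_pos.2 (by norm_num)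
      nlinarith [sq_nonneg r]
  have hBM : B.card ≤ 2 * M.card := by
    refine card_le_mul_card_image_of_maps_to hmove 2 fun w _ => ?_
    have h1 : (B.filter fun φ => InfinitePlace.mk φ = w).card
        ≤ ((univ : Finset (K →+* ℂ)).filter fun φ => InfinitePlace.mk φ = w).card :=
      card_le_card (filter_subset_filter _ (subset_univ _))
    have h2 := InfinitePlace.card_filter_mk_eq w
    have h3 : w.mult ≤ 2 := by unfold InfinitePlace.mult; split_ifs <;> omega
    calc _ ≤ _ := h1
      _ = w.mult := by convert h2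
      _ ≤ 2 := h3
  let e := Fintype.equivFin (InfinitePlace K)
  set W := (univ : Finset (InfinitePlace K)).filter (fun w => e w < e (w.comap τ)) with hW
  have hMW : M ⊆ W ∪ W.image (fun w => w.comap τ) := by
    intro w hw
    have hne : e (w.comap τ) ≠ e w := fun h => (mem_filter.1 hw).2 (e.injective h)
    rcases lt_or_gt_of_ne hne with h | h
    · refine mem_union_right _ (mem_image.2 ⟨w.comap τ, ?_, hinv w⟩)
      exact mem_filter.2 ⟨mem_univ _, by rw [hinv]; exact h⟩
    · exact mem_union_left _ (mem_filter.2 ⟨mem_univ _, h⟩)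
  have hcard : M.card ≤ 2 * W.card := by
    have h1 := card_le_card hMW
    have h2 := card_union_le W (W.image (fun w => w.comap τ))
    have h3 : (W.image (fun w => w.comap τ)).card ≤ W.card := card_image_le
    omega
  refine ⟨W, fun w hw h => ?_, by omega⟩
  have h1 := (mem_filter.1 hw).2
  have h2 := (mem_filter.1 h).2
  rw [hinv] at h2
  exact lt_asymm h1 h2

end Pool.Agent.P.MP_44bffd_co.LS
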