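import Pool.Agent.P.MP_44bffd_co.LS.Defs

/-! From bounded degrees and many edges to a subgraph with comparable degrees on each side. -/

namespace Pool.Agent.P.MP_44bffd_co.LS

open Finset
open scoped Classical

namespace PotP

variable {α β : Type}

/-- Total weight between two finite sets. -/
noncomputable def e (w : α → β → ℝ) (X : Finset α) (Y : Finset β) : ℝ :=
  ∑ x ∈ X, ∑ y ∈ Y, w x y

lemma e_swap (w : α → β → ℝ) (X : Finset α) (Y : Finset β) :
    e (fun y x => w x y) Y X = e w X Y := by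
  unfold e
  rw [Finset.sum_comm]

lemma e_nonneg {w : α → β → ℝ} (hw : ∀ x y, 0 ≤ w x y) (X : Finset α) (Y : Finset β) :
    0 ≤ e w X Y :=
  Finset.sum_nonneg fun x _ => Finset.sum_nonneg fun y _ => hw x y

lemma e_mono {w : α → β → ℝ} (hw : ∀ x y, 0 ≤ w x y) {X X' : Finset α} {Y Y' : Finset β}
    (hX : X ⊆ X') (hY : Y ⊆ Y') : e w X Y ≤ e w X' Y' := by
  unfold e
  calc ∑ x ∈ X, ∑ y ∈ Y, w x y ≤ ∑ x ∈ X, ∑ y ∈ Y', w x y :=
        Finset.sum_le_sum fun x _ =>
          Finset.sum_le_sum_of_subset_of_nonneg hY fun y _ _ => hw x y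
    _ ≤ ∑ x ∈ X', ∑ y ∈ Y', w x y :=
        Finset.sum_le_sum_of_subset_of_nonneg hX fun x _ _ =>
          Finset.sum_nonneg fun y _ => hw x y

lemma card_pos_of_e {w : α → β → ℝ} {X : Finset α} {Y : Finset β} (h : 0 < e w X Y) :
    X.Nonempty ∧ Y.Nonempty := by
  constructor
  · rw [Finset.nonempty_iff_ne_empty]
    rintro rfl
    simp [e] at h
  · rw [Finset.nonempty_iff_ne_empty]
    rintro rfl
    simp [e] at h

/-- The vertices of large degree carry at most a fifth of the weight. -/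
lemma heavy {w : α → β → ℝ} (hw : ∀ x y, 0 ≤ w x y) {X : Finset α} {Y : Finset β} {a b : ℝ}
    (h2 : e w X Y = b * Y.card)
    (hmax : ∀ Z ⊆ X, e w Z Y ^ 2 ≤ a * b * Z.card * Y.card) :
    e w (X.filter fun x => 25 * a < ∑ y ∈ Y, w x y) Y ≤ e w X Y / 5 := by
  set Z := X.filter fun x => 25 * a < ∑ y ∈ Y, w x y with hZ
  have hs : Z ⊆ X := Finset.filter_subset _ _
  have c1 : 25 * a * Z.card ≤ e w Z Y := by
    have := Finset.card_nsmul_le_sum Z (fun x => ∑ y ∈ Y, w x y) (25 * a)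
      (fun x hx => (Finset.mem_filter.1 hx).2.le)
    rw [nsmul_eq_mul] at this
    unfold e
    linarith
  have c2 : e w Z Y ≤ e w X Y := e_mono hw hs (Finset.Subset.refl _)
  have c3 := hmax Z hs
  have c4 : 0 ≤ e w X Y := e_nonneg hw X Y
  have c5 : a * b * Z.card * Y.card ≤ (e w X Y / 5) ^ 2 := by
    calc a * b * Z.card * Y.card = (a * Z.card) * (b * Y.card) := by ring
      _ ≤ (e w X Y / 25) * e w X Y := by
        rw [← h2]
        exact mul_le_mul_of_nonneg_right (by linarith) c4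
      _ = (e w X Y / 5) ^ 2 := by ring
  exact (pow_le_pow_iff_left₀ (e_nonneg hw Z Y) (by positivity) two_ne_zero).1 (c3.trans c5)

lemma e_split (w : α → β → ℝ) (X : Finset α) (Y : Finset β) (p : α → Prop) :
    e w (X.filter fun x => ¬ p x) Y = e w X Y - e w (X.filter p) Y := by
  unfold e
  rw [← Finset.sum_filter_add_sum_filter_not X p]
  ring

lemma e_erase (w : α → β → ℝ) {X : Finset α} (Y : Finset β) {x : α} (hx : x ∈ X) :
    e w (X.erase x) Y = e w X Y - ∑ y ∈ Y, w x y := by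
  unfold e
  rw [← Finset.add_sum_erase X _ hx]
  ring

/-- A pair of subsets with large minimum degrees on both sides. -/
lemma mindeg (w : α → β → ℝ) (X : Finset α) (Y : Finset β) {a b : ℝ} (ha : 0 ≤ a) (hb : 0 ≤ b)
    (h : a * X.card + b * Y.card < e w X Y) :
    ∃ X' ⊆ X, ∃ Y' ⊆ Y, X'.Nonempty ∧ (∀ x ∈ X', a ≤ ∑ y ∈ Y', w x y) ∧
      ∀ y ∈ Y', b ≤ ∑ x ∈ X', w x y := by
  obtain ⟨⟨X', Y'⟩, hm, hmax⟩ := Finset.exists_max_image (X.powerset ×ˢ Y.powerset)
    (fun q => e w q.1 q.2 - a * q.1.card - b * q.2.card) ⟨(X, Y), by simp⟩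
  simp only [Finset.mem_product, Finset.mem_powerset] at hm hmax
  have h0 := hmax (X, Y) ⟨Finset.Subset.refl _, Finset.Subset.refl _⟩
  simp only at h0
  have hpos : 0 < e w X' Y' := by
    have : 0 ≤ a * X'.card := by positivity
    have : 0 ≤ b * Y'.card := by positivity
    linarith
  refine ⟨X', hm.1, Y', hm.2, (card_pos_of_e hpos).1, fun x hx => ?_, fun y hy => ?_⟩
  · have h1 := hmax (X'.erase x, Y') ⟨(Finset.erase_subset _ _).trans hm.1, hm.2⟩
    simp only at h1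
    rw [e_erase w Y' hx, Finset.cast_card_erase_of_mem hx] at h1
    linarith
  · have h1 := hmax (X', Y'.erase y) ⟨hm.1, (Finset.erase_subset _ _).trans hm.2⟩
    simp only at h1
    rw [← e_swap w X' (Y'.erase y), e_erase _ X' hy, e_swap, Finset.cast_card_erase_of_mem hy] at h1
    linarith

/-- The densest pair. -/
lemma dense {w : α → β → ℝ} (hw : ∀ x y, 0 ≤ w x y) (X : Finset α) (Y : Finset β)
    (h : 0 < e w X Y) : ∃ X' ⊆ X, ∃ Y' ⊆ Y, ∃ a b : ℝ, 0 < a ∧ 0 < b ∧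
      e w X' Y' = a * X'.card ∧ e w X' Y' = b * Y'.card ∧ 0 < e w X' Y' ∧
      ∀ Z ⊆ X, ∀ T ⊆ Y, e w Z T ^ 2 ≤ a * b * Z.card * T.card := by
  obtain ⟨⟨X', Y'⟩, hm, hmax⟩ := Finset.exists_max_image (X.powerset ×ˢ Y.powerset)
    (fun q => e w q.1 q.2 ^ 2 / (q.1.card * q.2.card)) ⟨(X, Y), by simp⟩
  simp only [Finset.mem_product, Finset.mem_powerset] at hm hmax
  have cp : ∀ {Z : Finset α} {T : Finset β}, 0 < e w Z T →
      (0 : ℝ) < Z.card ∧ (0 : ℝ) < T.card := fun hz =>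
    ⟨by exact_mod_cast (card_pos_of_e hz).1.card_pos,
      by exact_mod_cast (card_pos_of_e hz).2.card_pos⟩
  have h0 := hmax (X, Y) ⟨Finset.Subset.refl _, Finset.Subset.refl _⟩
  simp only at h0
  have hpos : 0 < e w X' Y' := by
    rcases (e_nonneg hw X' Y').lt_or_eq with h1 | h1
    · exact h1
    · exfalso
      rw [← h1] at h0
      have : 0 < e w X Y ^ 2 / (X.card * Y.card) :=
        div_pos (by positivity) (mul_pos (cp h).1 (cp h).2)
      simp only [ne_eq, OfNat.ofNat_ne_zero, not_false_eq_true, zero_pow, zero_div] at h0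
      linarith
  obtain ⟨p1, p2⟩ := cp hpos
  refine ⟨X', hm.1, Y', hm.2, e w X' Y' / X'.card, e w X' Y' / Y'.card, by positivity,
    by positivity, by field_simp, by field_simp, hpos, fun Z hZ T hT => ?_⟩
  rcases (e_nonneg hw Z T).lt_or_eq with h1 | h1
  · obtain ⟨q1, q2⟩ := cp h1
    have h2 := hmax (Z, T) ⟨hZ, hT⟩
    simp only at h2
    rw [div_le_iff₀ (mul_pos q1 q2)] at h2
    refine h2.trans (le_of_eq ?_)
    field_simp
  · rw [← h1]
    have : (0 : ℝ) ^ 2 = 0 := by norm_num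
    rw [this]
    positivity

lemma core {w : α → β → ℝ} (hw : ∀ x y, 0 ≤ w x y) (X : Finset α) (Y : Finset β)
    (h : 0 < e w X Y) {A B : ℝ} (hA : ∀ x ∈ X, ∑ y ∈ Y, w x y ≤ A)
    (hB : ∀ y ∈ Y, ∑ x ∈ X, w x y ≤ B) :
    ∃ a b : ℝ, 0 < a ∧ 0 < b ∧ a ≤ A ∧ b ≤ B ∧ e w X Y ^ 2 ≤ a * b * X.card * Y.card ∧
      ∃ X' ⊆ X, ∃ Y' ⊆ Y, X'.Nonempty ∧
        (∀ x ∈ X', a / 4 ≤ ∑ y ∈ Y', w x y ∧ ∑ y ∈ Y', w x y ≤ 25 * a) ∧
        ∀ y ∈ Y', b / 4 ≤ ∑ x ∈ X', w x y ∧ ∑ x ∈ X', w x y ≤ 25 * b := by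
  obtain ⟨X1, s1, Y1, t1, a, b, ha, hb, e1, e2, hp, hmax⟩ := dense hw X Y h
  have hw' : ∀ y x, 0 ≤ (fun y x => w x y) y x := fun y x => hw x y
  have p1 : (0 : ℝ) < X1.card := by exact_mod_cast (card_pos_of_e hp).1.card_pos
  have p2 : (0 : ℝ) < Y1.card := by exact_mod_cast (card_pos_of_e hp).2.card_pos
  have hAa : a ≤ A := by
    have : e w X1 Y1 ≤ X1.card • A := Finset.sum_le_card_nsmul _ _ _ fun x hx =>
      (Finset.sum_le_sum_of_subset_of_nonneg t1 fun y _ _ => hw x y).trans (hA x (s1 hx))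
    rw [nsmul_eq_mul, e1, mul_comm] at this
    exact le_of_mul_le_mul_left this p1
  have hBb : b ≤ B := by
    have : e (fun y x => w x y) Y1 X1 ≤ Y1.card • B := Finset.sum_le_card_nsmul _ _ _ fun y hy =>
      (Finset.sum_le_sum_of_subset_of_nonneg s1 fun x _ _ => hw x y).trans (hB y (t1 hy))
    rw [nsmul_eq_mul, e_swap, e2, mul_comm] at this
    exact le_of_mul_le_mul_left this p2
  have k1 := heavy hw e2 fun Z hZ => hmax Z (hZ.trans s1) Y1 t1
  have k2 := heavy hw' (X := Y1) (Y := X1) (a := b) (b := a)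
    (by rw [e_swap]; exact e1) fun T hT => by
      rw [e_swap]
      exact (hmax X1 s1 T (hT.trans t1)).trans (le_of_eq (by ring))
  rw [e_swap w X1 Y1, e_swap] at k2
  set X2 := X1.filter fun x => ¬ 25 * a < ∑ y ∈ Y1, w x y with hX2
  set Y2 := Y1.filter fun y => ¬ 25 * b < ∑ x ∈ X1, w x y with hY2
  have s2 : X2 ⊆ X1 := Finset.filter_subset _ _
  have t2 : Y2 ⊆ Y1 := Finset.filter_subset _ _
  have k3 : e w X2 Y1 = e w X1 Y1 - e w (X1.filter fun x => 25 * a < ∑ y ∈ Y1, w x y) Y1 :=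
    e_split w X1 Y1 _
  have k4 : e w X2 Y2 = e w X2 Y1 - e w X2 (Y1.filter fun y => 25 * b < ∑ x ∈ X1, w x y) := by
    rw [← e_swap w X2 Y2, ← e_swap w X2 Y1, ← e_swap w X2 (Y1.filter _)]
    exact e_split _ Y1 X2 _
  have k5 : e w X2 (Y1.filter fun y => 25 * b < ∑ x ∈ X1, w x y) ≤
      e w X1 (Y1.filter fun y => 25 * b < ∑ x ∈ X1, w x y) := e_mono hw s2 (Finset.Subset.refl _)
  have c1 : (X2.card : ℝ) ≤ X1.card := by exact_mod_cast Finset.card_le_card s2
  have c2 : (Y2.card : ℝ) ≤ Y1.card := by exact_mod_cast Finset.card_le_card t2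
  have c3 : a * X2.card ≤ a * X1.card := by gcongr
  have c4 : b * Y2.card ≤ b * Y1.card := by gcongr
  obtain ⟨X3, s3, Y3, t3, hne, m1, m2⟩ := mindeg w X2 Y2 (a := a / 4) (b := b / 4)
    (by positivity) (by positivity) (by linarith)
  refine ⟨a, b, ha, hb, hAa, hBb, hmax X (Finset.Subset.refl _) Y (Finset.Subset.refl _), X3,
    (s3.trans s2).trans s1, Y3, (t3.trans t2).trans t1, hne, fun x hx => ⟨m1 x hx, ?_⟩,
    fun y hy => ⟨m2 y hy, ?_⟩⟩
  · exact (Finset.sum_le_sum_of_subset_of_nonneg (t3.trans t2) fun y _ _ => hw x y).trans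
      (not_lt.1 (Finset.mem_filter.1 (s3 hx)).2)
  · exact (Finset.sum_le_sum_of_subset_of_nonneg (s3.trans s2) fun x _ _ => hw x y).trans
      (not_lt.1 (Finset.mem_filter.1 (t3 hy)).2)

lemma cnt_eq {V : Type} (G : UG V) (v : V) (p : V → Prop) (Y : Finset V) (r : V → Prop)
    (h : ∀ y, (y ∈ G.s ∧ G.adj v y ∧ p y) ↔ (y ∈ Y ∧ r y)) :
    (G.cnt v p : ℝ) = ∑ y ∈ Y, if r y then (1 : ℝ) else 0 := by
  rw [Finset.sum_boole]
  unfold UG.cnt
  congr 2
  ext y
  simp only [Finset.mem_filter]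
  exact h y

end PotP

open PotP

theorem p_Pot : S_Pot := by
  intro g a b ha hb ⟨V, G, hc, hd, hp, hab⟩
  set X := G.s.filter (fun v => G.col v = true) with hX
  set Y := G.s.filter (fun v => G.col v = false) with hY
  let w : V → V → ℝ := fun x y => if G.adj x y then 1 else 0
  have hw : ∀ x y, 0 ≤ w x y := fun x y => by
    simp only [w]
    split_ifs <;> norm_num
  have mX : ∀ x, x ∈ X ↔ x ∈ G.s ∧ G.col x = true := fun x => Finset.mem_filter
  have mY : ∀ x, x ∈ Y ↔ x ∈ G.s ∧ G.col x = false := fun x => Finset.mem_filter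
  have d1 : ∀ X' ⊆ X, ∀ Y' ⊆ Y, ∀ x ∈ X,
      (G.cnt x (fun v => v ∈ X' ∨ v ∈ Y') : ℝ) = ∑ y ∈ Y', w x y := by
    intro X' s Y' t x hx
    refine cnt_eq G x _ Y' (fun y => G.adj x y) fun y => ⟨?_, ?_⟩
    · rintro ⟨h1, h2, h3 | h3⟩
      · exact absurd (((mX x).1 hx).2.trans ((mX y).1 (s h3)).2.symm)
          (G.bip x ((mX x).1 hx).1 y h1 h2)
      · exact ⟨h3, h2⟩
    · rintro ⟨h1, h2⟩
      exact ⟨((mY y).1 (t h1)).1, h2, Or.inr h1⟩
  have d2 : ∀ X' ⊆ X, ∀ Y' ⊆ Y, ∀ y ∈ Y,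
      (G.cnt y (fun v => v ∈ X' ∨ v ∈ Y') : ℝ) = ∑ x ∈ X', w x y := by
    intro X' s Y' t y hy
    refine cnt_eq G y _ X' (fun x => G.adj x y) fun x => ⟨?_, ?_⟩
    · rintro ⟨h1, h2, h3 | h3⟩
      · exact ⟨h3, G.symm ((mY y).1 hy).1 h1 h2⟩
      · exact absurd (((mY y).1 hy).2.trans ((mY x).1 (t h3)).2.symm)
          (G.bip y ((mY y).1 hy).1 x h1 h2)
    · rintro ⟨h1, h2⟩
      exact ⟨((mX x).1 (s h1)).1, G.symm ((mX x).1 (s h1)).1 ((mY y).1 hy).1 h2, Or.inl h1⟩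
  have d0 : ∀ v, G.deg v = G.cnt v (fun v => v ∈ X ∨ v ∈ Y) := fun v =>
    G.cnt_congr v fun u hu _ => by
      rw [mX, mY]
      cases G.col u <;> simp [hu]
  have he : ∑ v ∈ X, (G.deg v : ℝ) = e w X Y :=
    Finset.sum_congr rfl fun x hx => by
      rw [d0, d1 X (Finset.Subset.refl _) Y (Finset.Subset.refl _) x hx]
  have hpos : 0 < e w X Y := by
    rw [← he]
    exact_mod_cast hp
  obtain ⟨a', b', ha', hb', h1, h2, h3, X', s, Y', t, ⟨x0, hx0⟩, m1, m2⟩ :=
    core hw X Y hpos (A := 2 * a) (B := 2 * b)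
      (fun x hx => by
        rw [← d1 X (Finset.Subset.refl _) Y (Finset.Subset.refl _) x hx, ← d0]
        exact (hd x ((mX x).1 hx).1).1 ((mX x).1 hx).2)
      (fun y hy => by
        rw [← d2 X (Finset.Subset.refl _) Y (Finset.Subset.refl _) y hy, ← d0]
        exact (hd y ((mY y).1 hy).1).2 ((mY y).1 hy).2)
  have p1 : (0 : ℝ) < X.card := by exact_mod_cast (card_pos_of_e hpos).1.card_pos
  have p2 : (0 : ℝ) < Y.card := by exact_mod_cast (card_pos_of_e hpos).2.card_pos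
  have hg : (0 : ℝ) < g + 1 := by positivity
  have key : a * b ≤ (g + 1) * (a' * b') := by
    rw [he] at hab
    have : a * b * (X.card * Y.card) ≤ (g + 1) * (a' * b') * (X.card * Y.card) := by
      calc a * b * (X.card * Y.card) = a * b * X.card * Y.card := by ring
        _ ≤ (g + 1) * e w X Y ^ 2 := hab
        _ ≤ (g + 1) * (a' * b' * X.card * Y.card) := by gcongr
        _ = _ := by ring
    exact le_of_mul_le_mul_right this (mul_pos p1 p2)
  have k1 : a ≤ 2 * (g + 1) * a' := by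
    have : a * b ≤ 2 * (g + 1) * a' * b := by
      calc a * b ≤ (g + 1) * (a' * b') := key
        _ ≤ (g + 1) * (a' * (2 * b)) := by gcongr
        _ = _ := by ring
    exact le_of_mul_le_mul_right this hb
  have k2 : b ≤ 2 * (g + 1) * b' := by
    have : b * a ≤ 2 * (g + 1) * b' * a := by
      calc b * a = a * b := by ring
        _ ≤ (g + 1) * (a' * b') := key
        _ ≤ (g + 1) * (2 * a * b') := by gcongr
        _ = _ := by ring
    exact le_of_mul_le_mul_right this ha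
  have hne : ∃ v ∈ G.s, v ∈ X' ∨ v ∈ Y' := ⟨x0, ((mX x0).1 (s hx0)).1, Or.inl hx0⟩
  refine ⟨a' / 4, b' / 4, ?_, ?_, V, G.sub _ hne, (G.card_sub _ hne).trans hc, fun v hv => ?_⟩
  · rw [div_le_iff₀ (by positivity)]
    linarith
  · rw [div_le_iff₀ (by positivity)]
    linarith
  · rw [G.mem_sub] at hv
    rw [G.sub_deg]
    constructor
    · intro hcol
      have hcol' : G.col v = true := hcol
      have hv' : v ∈ X' := hv.2.resolve_right fun h => by
        rw [((mY v).1 (t h)).2] at hcol'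
        exact absurd hcol' (by simp)
      rw [d1 X' s Y' t v (s hv')]
      exact ⟨(m1 v hv').1, by linarith [(m1 v hv').2]⟩
    · intro hcol
      have hcol' : G.col v = false := hcol
      have hv' : v ∈ Y' := hv.2.resolve_left fun h => by
        rw [((mX v).1 (s h)).2] at hcol'
        exact absurd hcol' (by simp)
      rw [d2 X' s Y' t v (t hv')]
      exact ⟨(m2 v hv').1, by linarith [(m2 v hv').2]⟩

end Pool.Agent.P.MP_44bffd_co.LS
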