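import Pool.Agent.P.MP_44bffd_co.LS.Defs

/-! One absorber round. -/

namespace Pool.Agent.P.MP_44bffd_co.LS

open Finset
open scoped Classical

namespace RoundP

theorem pow_le (K i j c : ℕ) (hK : 1 ≤ K) (hc : c ≤ 2 ^ j) (n : ℕ) (hn : j + i + 1 ≤ n) :
    c * K ^ i * 2 ^ K ≤ 2 ^ (n * K) := by
  have h1 : K ^ i ≤ 2 ^ (i * K) := by
    rw [mul_comm, pow_mul]
    exact Nat.pow_le_pow_left Nat.lt_two_pow_self.le _
  calc c * K ^ i * 2 ^ K ≤ 2 ^ j * 2 ^ (i * K) * 2 ^ K := by gcongr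
    _ = 2 ^ (j + i * K + K) := by rw [pow_add, pow_add]
    _ ≤ 2 ^ (n * K) := Nat.pow_le_pow_right (by norm_num) (by nlinarith)

theorem pos_of {M Γ : ℝ} (hΓ : 0 < Γ) (h : 400 * Γ ≤ M) : 0 < M - 16 * Real.sqrt (M * Γ) := by
  have hM : 0 < M := by linarith
  have : Real.sqrt (M * Γ) ≤ M / 20 := Real.sqrt_le_iff.2 ⟨by positivity, by nlinarith⟩
  linarith

theorem beta_le {Γ : ℝ} (hΓ : 1 ≤ Γ) : (20 * Real.sqrt Γ + 2) ^ 2 ≤ 484 * Γ := by
  have h1 : 1 ≤ Real.sqrt Γ := Real.one_le_sqrt.2 hΓ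
  have h2 := Real.sq_sqrt (by linarith : 0 ≤ Γ)
  nlinarith

theorem view_mono {V Λ : Type} {G : UG V} {c : Bool} {ξ : V → Λ} {μ : Λ → ℕ} {σ σ' : ℝ}
    (h : View G c ξ μ σ) (hσ : σ ≤ σ') : View G c ξ μ σ' :=
  fun v hv e κ => ⟨(h v hv e κ).1, (h v hv e κ).2.trans hσ⟩

theorem ex_false {V Λ : Type} {G : UG V} {ξ : V → Λ} {μ : Λ → ℕ} {σ : ℝ}
    (h : View G true ξ μ σ) {b : Λ} (hb : σ < μ b) : ∃ w ∈ G.s, G.col w = false := by
  by_contra hc
  push Not at hc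
  obtain ⟨v, hv⟩ := G.ne
  have e : ∀ w ∈ G.s, G.col w = true := fun w hw => by simpa using hc w hw
  have h1 := (h v hv (e v hv) b).2
  rw [G.cnt_zero v fun w hw ha _ => G.bip v hv w hw ha ((e v hv).trans (e w hw).symm)] at h1
  simp only [Nat.cast_zero, sub_zero] at h1
  linarith

theorem wt_le (K a : ℕ) (κ : Bool × Fin K × Bool) : wt K a κ ≤ (a + 1) * 2 ^ K := by
  have h1 : a * (2 ^ K - 1) ≤ a * 2 ^ K := Nat.mul_le_mul_left _ (Nat.sub_le _ _)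
  have h2 : 2 ^ (κ.2.1 : ℕ) ≤ 2 ^ K := Nat.pow_le_pow_right (by norm_num) κ.2.1.2.le
  unfold wt
  split_ifs <;> nlinarith [Nat.zero_le (2 ^ K)]

end RoundP

open RoundP

theorem p_Round (h1 : S_Lot) (h2 : S_One) (h3 : S_W) (h4 : S_Abs) (h5 : S_Two) : S_Round := by
  intro c L K r hX hc hK hL hr hrK
  by_cases hbig : 2 ^ K ≤ 10 ^ 9 * c * K ^ 7 * 2 ^ (8 * K / 2 ^ r)
  · refine ⟨0, Nat.zero_le _, fun D g h => h.mono ?_ (by omega)⟩
    have : ((2 ^ K : ℕ) : ℝ) ≤ ((10 ^ 9 * c * K ^ 7 * 2 ^ (8 * K / 2 ^ r) : ℕ) : ℝ) := by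
      exact_mod_cast hbig
    push_cast at this ⊢
    linarith
  push Not at hbig
  obtain ⟨B, _, ν, π, hq, hν, ⟨b₀, hb₀⟩, hLi⟩ := h1 K r hK
  set w := 8 * K / 2 ^ r with hw
  set q := Fintype.card B with hqd
  have q1 : 1 ≤ q := Fintype.card_pos_iff.2 ⟨b₀⟩
  have K2 : K ≤ K ^ 2 := Nat.le_self_pow (by norm_num) K
  have K3 : K ^ 2 ≤ K ^ 3 := Nat.pow_le_pow_right hK (by norm_num)
  have K4 : K ^ 3 ≤ K ^ 4 := Nat.pow_le_pow_right hK (by norm_num)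
  have K7 : K ^ 2 ≤ K ^ 7 := Nat.pow_le_pow_right hK (by norm_num)
  have w1 : 1 ≤ 2 ^ w := Nat.one_le_two_pow
  have r3 : 3 ^ r ≤ 4 * K ^ 2 := by
    calc 3 ^ r ≤ (2 * 2) ^ r := Nat.pow_le_pow_left (by norm_num) _
      _ = 2 ^ r * 2 ^ r := mul_pow _ _ _
      _ ≤ (2 * K) * (2 * K) := Nat.mul_le_mul hrK hrK
      _ = 4 * K ^ 2 := by ring
  have rK : r ≤ K := by
    have : 2 * K ≤ 2 ^ K := by
      obtain ⟨k, rfl⟩ : ∃ k, K = k + 1 := ⟨K - 1, by omega⟩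
      have := Nat.lt_two_pow_self (n := k)
      rw [pow_succ]
      omega
    exact (Nat.pow_le_pow_iff_right (by norm_num)).1 (hrK.trans this)
  have q2 : q ≤ 34 * K ^ 4 := by
    have e1 : 8 * K * 3 ^ r ≤ 8 * K * (4 * K ^ 2) := Nat.mul_le_mul_left _ r3
    have e2 : K * (8 * K * 3 ^ r + 2) ≤ K * (8 * K * (4 * K ^ 2) + 2) :=
      Nat.mul_le_mul_left _ (by omega)
    have e3 : K * (8 * K * (4 * K ^ 2) + 2) = 32 * K ^ 4 + 2 * K := by ring
    omega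
  have big1 : 10 ^ 9 * (c * K ^ 2 * 2 ^ w) < 2 ^ K := by
    refine lt_of_le_of_lt ?_ hbig
    calc 10 ^ 9 * (c * K ^ 2 * 2 ^ w) ≤ 10 ^ 9 * (c * K ^ 7 * 2 ^ w) := by gcongr
      _ = _ := by ring
  have big2 : 10 ^ 9 * (c * K ^ 2) < 2 ^ K :=
    lt_of_le_of_lt (Nat.mul_le_mul_left _ (Nat.le_mul_of_pos_right _ w1)) big1
  have cK : K ≤ c * K := Nat.le_mul_of_pos_left _ hc
  have cK2 : c * K ≤ c * K ^ 2 := Nat.mul_le_mul_left _ K2
  have hK2 : 2 ≤ K := by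
    by_contra h
    obtain rfl : K = 1 := by omega
    omega
  have hu : 8 * K ≤ 2 ^ r * (w + 1) := (Nat.lt_mul_div_succ _ (by positivity)).le
  have cardC : Fintype.card (Bool × Fin K × Bool) = 4 * K := by
    simp only [Fintype.card_prod, Fintype.card_bool, Fintype.card_fin]
    ring
  set P := 2 ^ K with hP
  have P1 : 1 ≤ P := Nat.one_le_two_pow
  have PK2 : P ≤ K ^ 2 * P := Nat.le_mul_of_pos_left _ (by positivity)
  have PK3 : K ^ 2 * P ≤ K ^ 3 * P := Nat.mul_le_mul_right _ K3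
  have PK4 : K ^ 3 * P ≤ K ^ 4 * P := Nat.mul_le_mul_right _ K4
  have qP : q * P ≤ 34 * (K ^ 4 * P) := by
    calc q * P ≤ 34 * K ^ 4 * P := Nat.mul_le_mul_right _ q2
      _ = _ := by ring
  have qP1 : P ≤ q * P := Nat.le_mul_of_pos_left _ q1
  have qP2 : q ≤ q * P := Nat.le_mul_of_pos_right _ P1
  have M'e : 4 * K * (9 * K ^ 2 * P) = 36 * (K ^ 3 * P) := by ring
  set Γ : ℝ := ((24 * (c * K ^ 2) : ℕ) : ℝ) with hΓ
  have Γ1 : 1 ≤ Γ := by
    rw [hΓ]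
    exact_mod_cast (by omega : 1 ≤ 24 * (c * K ^ 2))
  have g0e : c * (11 * K) = 11 * (c * K) := by ring
  have b0 := hX (11 * K) (36 * K ^ 4 * P) Γ (by omega) hL
    (pow_le K 4 6 36 hK (by norm_num) 11 (by norm_num))
    (by rw [hΓ]; exact_mod_cast (by omega : c * (11 * K) ≤ 24 * (c * K ^ 2)))
    (by
      rw [hΓ]
      have : 10 ^ 4 * (24 * (c * K ^ 2)) ≤ 36 * K ^ 4 * P := by rw [mul_assoc 36]; omega
      exact_mod_cast this)
  have m1 : 400 * Γ ≤ ((4 * K * (9 * K ^ 2 * P) : ℕ) : ℝ) := by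
    rw [hΓ]
    exact_mod_cast (by omega : 400 * (24 * (c * K ^ 2)) ≤ 4 * K * (9 * K ^ 2 * P))
  have m2 : 400 * Γ ≤ ((q * P : ℕ) : ℝ) := by
    rw [hΓ]
    exact_mod_cast (by omega : 400 * (24 * (c * K ^ 2)) ≤ q * P)
  obtain ⟨V', H, hH, hd⟩ := h5 (36 * K ^ 4 * P) (4 * K * (9 * K ^ 2 * P)) (q * P) (c * (11 * K)) Γ
    b0 (by rw [mul_assoc 36]; omega) (by rw [mul_assoc 36]; omega)
    (by rw [hΓ]; exact_mod_cast (by omega : c * (11 * K) + 1 ≤ 24 * (c * K ^ 2))) m1 m2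
  have hF : Fal H (q * P) Γ := by
    refine ⟨H.both (fun v hv => ?_) false, fun v hv e => ⟨?_, ((hd v hv).2 e).1⟩⟩
    · have : (0 : ℝ) < H.deg v := by
        cases e : H.col v
        · exact (pos_of (by linarith) m2).trans_le ((hd v hv).2 e).1
        · exact (pos_of (by linarith) m1).trans_le ((hd v hv).1 e).1
      exact_mod_cast this
    · exact_mod_cast ((hd v hv).2 e).2
  have e1 : q * (P + 1) ≤ 2 ^ (11 * K) := by
    have a1 : 68 * K ^ 4 * P ≤ 2 ^ 7 * 2 ^ (5 * K) := by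
      have := pow_le K 4 0 1 hK (by norm_num) 5 (by norm_num)
      rw [one_mul, ← hP] at this
      rw [mul_assoc 68]
      omega
    have a2 : 2 ^ 7 * 2 ^ (5 * K) ≤ 2 ^ (11 * K) := by
      rw [← pow_add]
      exact Nat.pow_le_pow_right (by norm_num) (by omega)
    rw [mul_assoc 68] at a1
    rw [mul_add]
    omega
  obtain ⟨V, O, ξ, hO, hV, hdO⟩ := h2 V' B H ν P (c * (11 * K)) (11 * K) r (w + 1) Γ _ _ hν
    (Nat.pow_le_pow_right (by norm_num) (by omega)) (by positivity) e1 hH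
    (by rw [hΓ]; exact_mod_cast (by omega : c * (11 * K) + 11 * K + 1 ≤ 24 * (c * K ^ 2))) hF
    fun v hv e => (hd v hv).1 e
  set ε : ℝ := (20 * Real.sqrt Γ + 2) ^ 2 * 2 ^ (w + 1) with hε
  have ε0 : 0 ≤ ε := by positivity
  have ε1 : ε ≤ ((23232 * (c * K ^ 2 * 2 ^ w) : ℕ) : ℝ) := by
    calc ε ≤ 484 * Γ * 2 ^ (w + 1) := by
          have := beta_le Γ1
          rw [hε]
          gcongr
      _ = _ := by
          rw [hΓ]
          push_cast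
          ring
  have hFO : Fal O (Fintype.card (Bool × Fin K × Bool) * (9 * K ^ 2 * P)) Γ := by
    rw [cardC]
    refine ⟨ex_false hV (b := b₀) (ε1.trans_lt ?_), fun v hv e => ⟨?_, (hdO v hv e).1⟩⟩
    · exact_mod_cast (by omega : 23232 * (c * K ^ 2 * 2 ^ w) < ν b₀)
    · exact_mod_cast (hdO v hv e).2
  have rg : r * (c * (11 * K)) ≤ 11 * (c * K ^ 2) := by
    calc r * (c * (11 * K)) ≤ K * (c * (11 * K)) := Nat.mul_le_mul_right _ rK
      _ = _ := by ring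
  obtain ⟨V₂, W, ξ', hW, hW1, hW2⟩ := h3 V B (Bool × Fin K × Bool) O ξ r ν (wt K (2 * 3 ^ r)) π
    (9 * K ^ 2 * P) (r * (c * (11 * K))) (11 * K) (w + 1) ε Γ hLi
    (fun κ => (wt_le K _ κ).trans (Nat.mul_le_mul_right _ (by omega)))
    ((pow_le K 2 4 9 hK (by norm_num) 8 (by norm_num)).trans
      (Nat.pow_le_pow_right (by norm_num) hu))
    (by rw [cardC]; positivity)
    (by
      have a1 := pow_le K 3 6 40 hK (by norm_num) 11 (by norm_num)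
      have a2 : K ≤ K ^ 3 * P := (K2.trans K3).trans (Nat.le_mul_of_pos_right _ P1)
      rw [← hP, mul_assoc 40] at a1
      rw [cardC, mul_add]
      omega)
    hO
    (by
      rw [hΓ]
      exact_mod_cast (by omega : r * (c * (11 * K)) + 11 * K + 1 ≤ 24 * (c * K ^ 2)))
    hFO hV ε0
  have q1' : (1 : ℝ) ≤ q := by exact_mod_cast q1
  refine ⟨K * (2 * 3 ^ r * (P - 1)), ?_, fun D g h => ?_⟩
  · calc K * (2 * 3 ^ r * (P - 1)) ≤ K * (2 * (4 * K ^ 2) * P) := by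
          gcongr
          exact Nat.sub_le _ _
      _ = _ := by ring
  · refine (h4 K (2 * 3 ^ r) _ V₂ W ξ' (q * ε) hW
      (view_mono hW1 (le_mul_of_one_le_left ε0 q1')) hW2 D g h).mono ?_ (le_of_eq (by ring))
    have q2' : (q : ℝ) ≤ 34 * K ^ 4 := by exact_mod_cast q2
    calc (K : ℝ) * (q * ε) ≤ K * (34 * K ^ 4 * ((23232 * (c * K ^ 2 * 2 ^ w) : ℕ) : ℝ)) := by
          gcongr
      _ = 789888 * (c * K ^ 7 * 2 ^ w) := by
          push_cast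
          ring
      _ ≤ 10 ^ 9 * (c * K ^ 7 * 2 ^ w) := by
          gcongr
          norm_num
      _ = _ := by
          push_cast
          ring

end Pool.Agent.P.MP_44bffd_co.LS
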