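import Pool.Agent.P.MP_44bffd_co.LS.Defs

/-! A tower of real number fields with slowly growing root discriminant. -/

namespace Pool.Agent.P.MP_44bffd_co.LS

open Finset NumberField
open scoped Classical

namespace TowerP

theorem mono {n ρ ρ' : ℕ} (h : RF n ρ) (hρ : ρ ≤ ρ') : RF n ρ' := by
  obtain ⟨K, i1, i2, σ, α, hα, hn, hd⟩ := h
  exact ⟨K, i1, i2, σ, α, hα, hn, hd.trans (Nat.pow_le_pow_left hρ n)⟩

theorem step (hE : S_Ext) (hU : S_Units) {n ρ m : ℕ} (h : RF n ρ) (hm : 2 * m + 1 ≤ n) :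
    RF (n * 2 ^ m) (4 * ρ) := by
  obtain ⟨K, _, _, σ, α, hα, hn, hd⟩ := h
  obtain ⟨u, hu, hsq⟩ := hU K σ m (by rw [hn]; exact hm)
  obtain ⟨F, i1, i2, ι, hr, hf, hdisc⟩ := hE K ℝ σ m ρ u
    (fun i => Real.sqrt (σ ((u i : 𝓞 K) : K))) (fun i => Real.sq_sqrt (hu i).le) hsq
    (by rw [hn]; exact hd)
  have hα' : ∃ a : F, ι a = σ α := by
    have h1 : σ α ∈ ι.fieldRange := by
      rw [hr]; exact Subfield.subset_closure (Or.inl ⟨α, rfl⟩)
    exact h1
  obtain ⟨a, ha⟩ := hα'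
  refine ⟨F, i1, i2, ι, a, ι.injective ?_, by rw [hf, hn], ?_⟩
  · rw [map_pow, ha, ← map_pow, hα, map_ofNat, map_ofNat]
  · rw [← hn, ← hf]; exact hdisc

theorem rat_zero {s : ℝ} (hs : s ^ 2 = 2) {p q : ℚ} (h : (p : ℝ) + q * s = 0) :
    p = 0 ∧ q = 0 := by
  have hq : q = 0 := by
    by_contra hq
    have hq' : (q : ℝ) ≠ 0 := by exact_mod_cast hq
    have h1 : s = ((-p / q : ℚ) : ℝ) := by
      push_cast
      field_simp
      linarith
    have h2 : Real.sqrt 2 = ((|-p / q| : ℚ) : ℝ) := by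
      rw [← hs, Real.sqrt_sq_eq_abs, h1, Rat.cast_abs]
    exact irrational_sqrt_two ⟨_, h2.symm⟩
  refine ⟨?_, hq⟩
  rw [hq] at h
  simpa using h

theorem three_le {K : Type} [Field K] [NumberField K] (σ : K →+* ℝ) (α : K) (hα : α ^ 4 = 2) :
    3 ≤ Module.finrank ℚ K := by
  have hs : ((σ α) ^ 2) ^ 2 = 2 := by
    rw [← pow_mul, ← map_pow, hα, map_ofNat]
  have hli : LinearIndependent ℚ ![(1 : K), α, α ^ 2] := by
    rw [Fintype.linearIndependent_iff]
    intro g hg
    have h0 := congrArg σ hg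
    simp only [Fin.sum_univ_three, Matrix.cons_val_zero, Matrix.cons_val_one, Matrix.cons_val,
      Rat.smul_def, map_add, map_mul, map_ratCast, map_one, map_pow, map_zero] at h0
    have h1 : ((g 0 ^ 2 + 2 * g 2 ^ 2 : ℚ) : ℝ) +
        ((2 * g 0 * g 2 - g 1 ^ 2 : ℚ) : ℝ) * (σ α) ^ 2 = 0 := by
      push_cast
      have h2 : ((g 0 : ℝ) + g 2 * (σ α) ^ 2) = -(g 1 * σ α) := by linarith
      have h3 : ((g 0 : ℝ) + g 2 * (σ α) ^ 2) ^ 2 = (g 1 * σ α) ^ 2 := by rw [h2]; ring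
      linear_combination h3 - (g 2 : ℝ) ^ 2 * hs
    obtain ⟨h4, h5⟩ := rat_zero hs h1
    have h6 : g 0 = 0 := by nlinarith [sq_nonneg (g 0), sq_nonneg (g 2)]
    have h7 : g 2 = 0 := by nlinarith [sq_nonneg (g 0), sq_nonneg (g 2)]
    have h8 : g 1 = 0 := by
      rw [h6, h7] at h5
      nlinarith [sq_nonneg (g 1)]
    intro i
    fin_cases i
    · exact h6
    · exact h8
    · exact h7
  simpa using hli.fintype_card_le_finrank

theorem start : ∃ n ρ : ℕ, 1 ≤ ρ ∧ 3 ≤ n ∧ RF n ρ := by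
  set a : ℝ := Real.sqrt (Real.sqrt 2) with ha
  have ha4 : a ^ 4 = 2 := by
    have h1 : a ^ 2 = Real.sqrt 2 := Real.sq_sqrt (Real.sqrt_nonneg 2)
    have h2 : a ^ 4 = (a ^ 2) ^ 2 := by ring
    rw [h2, h1, Real.sq_sqrt (by norm_num)]
  have hint : IsIntegral ℚ a := by
    refine ⟨Polynomial.X ^ 4 - Polynomial.C 2, Polynomial.monic_X_pow_sub_C _ (by norm_num), ?_⟩
    simp [ha4]
  have : FiniteDimensional ℚ (IntermediateField.adjoin ℚ {a}) :=
    IntermediateField.adjoin.finiteDimensional hint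
  have : NumberField (IntermediateField.adjoin ℚ {a}) := NumberField.of_module_finite ℚ _
  let σ : IntermediateField.adjoin ℚ {a} →+* ℝ := algebraMap _ ℝ
  let α : IntermediateField.adjoin ℚ {a} := ⟨a, IntermediateField.mem_adjoin_simple_self ℚ a⟩
  have hα : α ^ 4 = 2 := by
    apply σ.injective
    rw [map_pow, map_ofNat]
    exact ha4
  have h3 := three_le σ α hα
  refine ⟨_, (discr (IntermediateField.adjoin ℚ {a})).natAbs + 1, by omega, h3,
    ⟨_, inferInstance, inferInstance, σ, α, hα, rfl, ?_⟩⟩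
  exact (Nat.le_succ _).trans (Nat.le_self_pow (by omega) _)

theorem one_le_tw (k : ℕ) : 1 ≤ tw k := by
  cases k with
  | zero => rw [tw_zero]
  | succ k => rw [tw_succ]; exact Nat.one_le_two_pow

end TowerP

theorem p_Tower (hE : S_Ext) (hU : S_Units) : S_Tower := by
  obtain ⟨n₀, ρ₀, hρ, hn, h0⟩ := TowerP.start
  refine ⟨n₀, ρ₀, hρ, fun k => ?_⟩
  induction k with
  | zero =>
    intro t ht
    rw [tw_zero] at ht
    exact ⟨n₀, by omega, by omega, by simpa using h0⟩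
  | succ k ih =>
    intro t ht
    rw [tw_succ] at ht
    have h1 := TowerP.one_le_tw k
    obtain ⟨n', h2, h3, h4⟩ := ih (min t (3 * tw k)) (min_le_right _ _)
    have he : ρ₀ * 4 ^ (k + 1) = 4 * (ρ₀ * 4 ^ k) := by ring
    by_cases hc : t ≤ n'
    · refine ⟨n', hc, ?_, TowerP.mono h4 (by rw [he]; omega)⟩
      have := min_le_left t (3 * tw k)
      omega
    · have h5 : 3 * tw k ≤ n' := by
        rcases le_total t (3 * tw k) with h | h
        · rw [min_eq_left h] at h2; omega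
        · rwa [min_eq_right h] at h2
      have h6 : t ≤ n' * 2 ^ tw k := ht.trans (Nat.mul_le_mul_right _ (by omega))
      have hex : ∃ m, t ≤ n' * 2 ^ m := ⟨_, h6⟩
      have h7 : Nat.find hex ≤ tw k := Nat.find_min' hex h6
      have h8 := Nat.find_spec hex
      refine ⟨n' * 2 ^ Nat.find hex, h8, ?_, ?_⟩
      · obtain ⟨j, hj⟩ : ∃ j, Nat.find hex = j + 1 := by
          refine Nat.exists_eq_succ_of_ne_zero fun hz => ?_
          rw [hz] at h8
          omega
        have h9 := Nat.find_min hex (show j < Nat.find hex by omega)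
        have h10 : n' * 2 ^ (j + 1) = 2 * (n' * 2 ^ j) := by ring
        rw [hj, h10]
        omega
      · rw [he]
        exact TowerP.step hE hU h4 (by omega)

end Pool.Agent.P.MP_44bffd_co.LS
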