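import Pool.Agent.P.MP_44bffd_co.LS.Defs

/-! Positive units that are independent modulo squares. -/

namespace Pool.Agent.P.MP_44bffd_co.LS

open Finset NumberField NumberField.Units
open scoped Classical

namespace UnitsP

theorem unit_of_sq {K : Type} [Field K] [NumberField K] (v : (𝓞 K)ˣ) (z : K)
    (h : ((v : 𝓞 K) : K) = z * z) : ∃ w : (𝓞 K)ˣ, v = w * w := by
  have h1 : IsIntegral ℤ z := by
    refine IsIntegral.of_pow (n := 2) (by norm_num) ?_
    rw [sq, ← h]
    exact (v : 𝓞 K).isIntegral_coe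
  obtain ⟨y, hy⟩ : ∃ y : 𝓞 K, (y : K) = z := ⟨⟨z, h1⟩, rfl⟩
  have h2 : (v : 𝓞 K) = y * y := RingOfIntegers.ext (by rw [h, ← hy]; simp)
  obtain ⟨w, hw⟩ : IsUnit y := isUnit_of_mul_isUnit_left (h2 ▸ v.isUnit)
  exact ⟨w, Units.ext (by rw [Units.val_mul, hw, h2])⟩

theorem neg_mk {K : Type} [Field K] [NumberField K] (v : (𝓞 K)ˣ) :
    (QuotientGroup.mk (-v) : (𝓞 K)ˣ ⧸ torsion K) = QuotientGroup.mk v := by
  rw [QuotientGroup.eq]
  have : (-v)⁻¹ * v = -1 := by rw [inv_neg, neg_mul, inv_mul_cancel]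
  rw [this, torsion, CommGroup.mem_torsion]
  exact isOfFinOrder_iff_pow_eq_one.2 ⟨2, by norm_num, by simp⟩

theorem odd {M ι κ : Type} {_ : AddCommMonoid M} {_ : Module ℤ M} (b : Module.Basis ι ℤ M) {e : κ → ι}
    (he : Function.Injective e) {S : Finset κ} {i : κ} (hi : i ∈ S) {x : M}
    (h : ∑ j ∈ S, b (e j) = x + x) : False := by
  have h2 := congrArg (b.coord (e i)) h
  rw [map_sum, map_add, sum_eq_single_of_mem i hi fun j _ hj => by
    simp [Finsupp.single_eq_of_ne (he.ne hj).symm]] at h2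
  simp only [Module.Basis.coord_apply, Module.Basis.repr_self, Finsupp.single_eq_same] at h2
  omega

end UnitsP

theorem p_Units : S_Units := by
  intro K _ _ σ m hm
  have hr : m ≤ rank K := by
    have h1 := InfinitePlace.card_add_two_mul_card_eq_rank K
    have h2 := InfinitePlace.card_eq_nrRealPlaces_add_nrComplexPlaces K
    unfold rank
    omega
  let f : Fin m → (𝓞 K)ˣ := fun i => fundSystem K (Fin.castLE hr i)
  let u : Fin m → (𝓞 K)ˣ := fun i => if 0 < σ ((f i : 𝓞 K) : K) then f i else -f i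
  have hu : ∀ i, Additive.ofMul (QuotientGroup.mk (u i) : (𝓞 K)ˣ ⧸ torsion K) =
      basisModTorsion K (Fin.castLE hr i) := fun i => by
    rw [← fundSystem_mk]
    simp only [u]
    split_ifs
    · rfl
    · rw [UnitsP.neg_mk]
  refine ⟨u, fun i => ?_, fun S ⟨i, hi⟩ ⟨z, hz⟩ => ?_⟩
  · simp only [u]
    split_ifs with h
    · exact h
    · have h0 : σ ((f i : 𝓞 K) : K) ≠ 0 := by
        rw [map_ne_zero, RingOfIntegers.coe_ne_zero_iff]
        exact (f i).ne_zero
      have h1 : (((-f i : (𝓞 K)ˣ) : 𝓞 K) : K) = -((f i : 𝓞 K) : K) := by simp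
      rw [h1, map_neg, neg_pos]
      exact lt_of_le_of_ne (not_lt.1 h) h0
  · obtain ⟨w, hw⟩ := UnitsP.unit_of_sq (∏ j ∈ S, u j) z (by rw [← hz]; simp)
    have h1 : ∑ j ∈ S, basisModTorsion K (Fin.castLE hr j) =
        Additive.ofMul (QuotientGroup.mk w : (𝓞 K)ˣ ⧸ torsion K) +
          Additive.ofMul (QuotientGroup.mk w : (𝓞 K)ˣ ⧸ torsion K) := by
      rw [← ofMul_mul, ← QuotientGroup.mk_mul, ← hw, QuotientGroup.mk_prod, ofMul_prod]
      exact sum_congr rfl fun j _ => (hu j).symm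
    exact UnitsP.odd (basisModTorsion K) (Fin.castLE_injective hr) hi h1

end Pool.Agent.P.MP_44bffd_co.LS
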