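import Pool.Agent.P.MP_44bffd_co.LS.Defs

/-! Many integers of one relative norm in one residue class give many unit vectors. -/

namespace Pool.Agent.P.MP_44bffd_co.LS

open Finset NumberField
open scoped Classical

namespace VecP

theorem arith (A N w X : ℕ) (hA : 1 ≤ A) (hw : N ≤ 8 * w)
    (h : ((32 * (7 * A ^ 2) ^ 3) ^ 8) ^ w ≤ X * A ^ N) :
    (4 * A ^ 2 + 1) ^ (2 * N) * A ^ N * 32 ^ N ≤ X := by
  have hApos : 0 < A ^ N := pow_pos hA N
  refine Nat.le_of_mul_le_mul_right ?_ hApos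
  refine le_trans ?_ h
  rw [← pow_mul]
  have h1 : (32 * (7 * A ^ 2) ^ 3) ^ N ≤ (32 * (7 * A ^ 2) ^ 3) ^ (8 * w) :=
    Nat.pow_le_pow_right (by positivity) hw
  refine le_trans ?_ h1
  rw [pow_mul, ← mul_pow, ← mul_pow, ← mul_pow]
  refine Nat.pow_le_pow_left ?_ N
  have h2 : 1 ≤ A ^ 2 := Nat.one_le_pow _ _ hA
  have h3 : 4 * A ^ 2 + 1 ≤ 5 * A ^ 2 := by omega
  calc (4 * A ^ 2 + 1) ^ 2 * A * 32 * A ≤ (5 * A ^ 2) ^ 2 * A * 32 * A := by gcongr
    _ = 32 * (25 * A ^ 6) := by ring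
    _ ≤ 32 * (343 * A ^ 6) := by gcongr; norm_num
    _ = _ := by ring

theorem place_add_le {K : Type} [Field K] (w : InfinitePlace K) (x y : K) :
    w (x + y) ≤ w x + w y := by
  rw [← w.norm_embedding_eq, ← w.norm_embedding_eq, ← w.norm_embedding_eq, map_add]
  exact norm_add_le _ _

theorem place_sub_le {K : Type} [Field K] (w : InfinitePlace K) (x y : K) :
    w (x - y) ≤ w x + w y := by
  rw [← w.norm_embedding_eq, ← w.norm_embedding_eq, ← w.norm_embedding_eq, map_sub]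
  exact norm_sub_le _ _

/-- The relative norm determines the absolute value at the distinguished place. -/
theorem norm_iff {K : Type} [Field K] (τ : K →+* K) (ι : K →+* ℂ)
    (hι : ∀ x, ι (τ x) = starRingEnd ℂ (ι x)) (x y : K) :
    ‖ι x‖ = ‖ι y‖ ↔ x * τ x = y * τ y := by
  have key : ∀ z : K, ι (z * τ z) = ((‖ι z‖ ^ 2 : ℝ) : ℂ) := by
    intro z
    rw [map_mul, hι, Complex.mul_conj']
    push_cast
    rfl
  constructor
  · intro h
    apply ι.injective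
    rw [key, key, h]
  · intro h
    have h1 := key x
    rw [h, key] at h1
    have h2 : ‖ι y‖ ^ 2 = ‖ι x‖ ^ 2 := by exact_mod_cast h1
    exact ((sq_eq_sq₀ (norm_nonneg _) (norm_nonneg _)).1 h2).symm

/-- A nonzero integer has a place of size at least one. -/
theorem not_all_lt {K : Type} [Field K] [NumberField K] (a : 𝓞 K) (ha : a ≠ 0)
    (h : ∀ w : InfinitePlace K, w (a : K) < 1) : False := by
  obtain ⟨w⟩ : Nonempty (InfinitePlace K) := inferInstance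
  have h1 := InfinitePlace.one_le_of_lt_one (w := w) ha (fun z _ => h z)
  exact absurd (h w) (not_lt.2 h1)

/-- The pigeonhole step. -/
theorem fibre (hC : S_Count) {K : Type} [Field K] [NumberField K] (τ : K →+* K) (A n : ℕ)
    (hA : 1 ≤ A) (hn : 1 ≤ n) (X : Finset (𝓞 K))
    (hX : ∀ x ∈ X, ∀ w : InfinitePlace K, w ((x : K) * τ (x : K)) < (A : ℝ) ^ 2)
    (hcard : (4 * A ^ 2 + 1) ^ (2 * Module.finrank ℚ K) * A ^ Module.finrank ℚ K * n ≤ X.card) :
    ∃ U : Finset (𝓞 K), U ⊆ X ∧ n ≤ U.card ∧ ∀ u ∈ U, ∀ u' ∈ U,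
      (u : K) * τ (u : K) = (u' : K) * τ (u' : K) ∧ u - u' ∈ Ideal.span {(A : 𝓞 K)} := by
  set I : Ideal (𝓞 K) := Ideal.span {(A : 𝓞 K)} with hI
  have hnorm : Ideal.absNorm I = A ^ Module.finrank ℚ K := by
    rw [hI, Ideal.absNorm_span_natCast, RingOfIntegers.rank]
  have hfin : Finite (𝓞 K ⧸ I) := by
    rw [← Ideal.absNorm_ne_zero_iff, hnorm]
    positivity
  let _ : Fintype (𝓞 K ⧸ I) := Fintype.ofFinite _
  have hq : Fintype.card (𝓞 K ⧸ I) = A ^ Module.finrank ℚ K := by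
    rw [← hnorm, Ideal.absNorm_apply, Submodule.cardQuot_apply, Nat.card_eq_fintype_card]
  set ν : 𝓞 K → 𝓞 K := fun x => x * RingOfIntegers.mapRingHom τ x with hν
  have hνc : ∀ x : 𝓞 K, ((ν x : 𝓞 K) : K) = (x : K) * τ (x : K) := fun x => rfl
  set t : Finset (𝓞 K × (𝓞 K ⧸ I)) := (X.image ν) ×ˢ univ with ht
  have h1 : (X.image ν).card ≤ (4 * A ^ 2 + 1) ^ (2 * Module.finrank ℚ K) := by
    apply hC K (A ^ 2)
    intro z hz w
    obtain ⟨x, hx, rfl⟩ := mem_image.1 hz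
    rw [hνc]
    push_cast
    exact (hX x hx w).le
  have h2 : t.card * n ≤ X.card := by
    refine le_trans ?_ hcard
    rw [ht, card_product, card_univ, hq]
    gcongr
  have hXne : X.Nonempty := by
    rw [← card_pos]
    refine lt_of_lt_of_le ?_ hcard
    positivity
  have hmaps : ∀ x ∈ X, (ν x, Ideal.Quotient.mk I x) ∈ t := fun x hx =>
    mem_product.2 ⟨mem_image_of_mem _ hx, mem_univ _⟩
  have htne : t.Nonempty := by
    obtain ⟨x, hx⟩ := hXne
    exact ⟨_, hmaps x hx⟩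
  obtain ⟨y, -, hy⟩ := exists_le_card_fiber_of_mul_le_card_of_maps_to hmaps htne h2
  refine ⟨_, filter_subset _ _, hy, fun u hu u' hu' => ?_⟩
  have e1 := (mem_filter.1 hu).2
  have e2 := (mem_filter.1 hu').2
  have e := e1.trans e2.symm
  refine ⟨?_, Ideal.Quotient.eq.1 (congrArg Prod.snd e)⟩
  rw [← hνc, ← hνc]
  exact congrArg _ (congrArg Prod.fst e)

end VecP

open VecP in
theorem p_Vec (hC : S_Count) (hM : S_Mink) : S_Vec := by
  intro N ρ hCM hρ
  obtain ⟨K, _, _, τ, ι, W, hι, hcx, hW, hNW, hN, hdisc⟩ := hCM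
  have hτ : ∀ x, τ (τ x) = x := by
    intro x
    apply ι.injective
    rw [hι, hι, Complex.conj_conj]
  obtain ⟨X, hXc, hX⟩ := hM K τ W ρ (Tm ρ) hτ hcx hW (by rw [hN]; exact hdisc) hρ
  have hA : 1 ≤ 2 * ρ + 1 := by omega
  have hcard := arith (2 * ρ + 1) N W.card X.card hA hNW (by rw [← hN]; exact hXc)
  have hn : 1 ≤ 32 ^ N := Nat.one_le_pow _ _ (by norm_num)
  obtain ⟨U, hUX, hUc, hU⟩ := fibre hC τ (2 * ρ + 1) (32 ^ N) hA hn X
    (fun x hx w => by push_cast; exact ((hX x hx).2 w).2) (by rw [hN]; exact hcard)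
  obtain ⟨x₀, hx₀⟩ : U.Nonempty := card_pos.1 (lt_of_lt_of_le hn hUc)
  have hx0 : (x₀ : K) ≠ 0 := RingOfIntegers.coe_ne_zero_iff.2 (hX x₀ (hUX hx₀)).1
  have hl : 0 < ‖ι (x₀ : K)‖ := norm_pos_iff.2 ((map_ne_zero ι).2 hx0)
  set l : ℝ := ‖ι (x₀ : K)‖ with hldef
  have hlc : (l : ℂ) ≠ 0 := by exact_mod_cast hl.ne'
  let f : 𝓞 K →+ ℂ := (AddMonoidHom.mulLeft ((l : ℂ)⁻¹)).comp
    (ι.comp (algebraMap (𝓞 K) K)).toAddMonoidHom
  have hf : ∀ x : 𝓞 K, f x = (l : ℂ)⁻¹ * ι (x : K) := fun x => rfl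
  have hf1 : ∀ x : 𝓞 K, ‖f x‖ = 1 ↔ (x : K) * τ (x : K) = (x₀ : K) * τ (x₀ : K) := by
    intro x
    rw [← norm_iff τ ι hι, hf, norm_mul, norm_inv, Complex.norm_real, Real.norm_eq_abs,
      abs_of_pos hl, inv_mul_eq_one₀ hl.ne', ← hldef]
    exact eq_comm
  set R : ℕ := (2 * ρ + 1) * 2 ^ Tm ρ with hR
  have hUR : ∀ u ∈ U, ∀ w : InfinitePlace K, w (u : K) ≤ (R : ℝ) := by
    intro u hu w
    rw [hR]
    push_cast
    exact ((hX u (hUX hu)).2 w).1
  refine ⟨𝓞 K, inferInstance, f, (Ideal.span {((2 * ρ + 1 : ℕ) : 𝓞 K)}).toAddSubgroup,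
    fun j => {x | ∀ w : InfinitePlace K, w (x : K) ≤ ((j * R : ℕ) : ℝ)}, U, ?_, ?_, ?_, ?_, ?_,
    ?_, ?_, ?_, hUc⟩
  · intro x y hxy
    rw [hf, hf] at hxy
    have h1 := mul_left_cancel₀ (inv_ne_zero hlc) hxy
    exact RingOfIntegers.ext (ι.injective h1)
  · intro w
    simp
  · intro j x hx w
    refine (hx w).trans ?_
    exact_mod_cast Nat.mul_le_mul_right R (Nat.le_succ j)
  · intro j x hx u hu
    have hb : ∀ w : InfinitePlace K, w (x : K) + w (u : K) ≤ (((j + 1) * R : ℕ) : ℝ) := by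
      intro w
      have h1 := hx w
      have h2 := hUR u hu w
      push_cast at h1 ⊢
      linarith
    refine ⟨fun w => ?_, fun w => ?_⟩
    · exact (place_add_le w _ _).trans (hb w)
    · exact (place_sub_le w _ _).trans (hb w)
  · intro j s hs
    rw [← hN]
    exact hC K (j * R) s (fun x hx w => hs hx w)
  · intro u hu
    exact (hf1 u).2 (hU u hu x₀ hx₀).1
  · intro u hu u' hu'
    exact (hU u hu u' hu').2
  · intro x hx h1
    obtain ⟨y, rfl⟩ := Ideal.mem_span_singleton'.1 hx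
    have h2 := (hf1 _).1 h1
    have hApos : (0 : ℝ) < (2 * ρ + 1) ^ 2 := by positivity
    have h3 : (((2 * ρ + 1 : ℕ) : K)) ^ 2 * ((y : K) * τ (y : K)) = (x₀ : K) * τ (x₀ : K) := by
      rw [← h2]
      have : ((y * ((2 * ρ + 1 : ℕ) : 𝓞 K) : 𝓞 K) : K) = (y : K) * ((2 * ρ + 1 : ℕ) : K) := by
        rw [RingOfIntegers.coe_eq_algebraMap, map_mul, map_natCast]
      rw [this, map_mul, map_natCast]
      ring
    have hne : (x₀ : K) * τ (x₀ : K) ≠ 0 := mul_ne_zero hx0 ((map_ne_zero τ).2 hx0)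
    refine not_all_lt (y * RingOfIntegers.mapRingHom τ y) ?_ (fun w => ?_)
    · intro h0
      have h4 : (y : K) * τ (y : K) = 0 := congrArg (fun z : 𝓞 K => (z : K)) h0
      rw [h4, mul_zero] at h3
      exact hne h3.symm
    · have h4 := ((hX x₀ (hUX hx₀)).2 w).2
      rw [← h3, map_mul, map_pow, ← w.norm_embedding_eq (((2 * ρ + 1 : ℕ) : K)), map_natCast,
        Complex.norm_natCast] at h4
      push_cast at h4
      exact (mul_lt_iff_lt_one_right hApos).1 h4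

end Pool.Agent.P.MP_44bffd_co.LS
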